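import Mathlib

/-!
# The parity argument (MP_42fa54_co)
-/

open Complex Filter Topology Set
open scoped ComplexConjugate

namespace FK

lemma exists_log (z : ℝ → ℂ) (hz : Continuous z) (hne : ∀ t, z t ≠ 0) :
    ∃ L : ℝ → ℂ, Continuous L ∧ ∀ t, exp (L t) = z t := by
  let z' : C(ℝ, {w : ℂ // w ≠ 0}) := ⟨fun t => ⟨z t, hne t⟩, by fun_prop⟩
  obtain ⟨L, ⟨-, hL⟩, -⟩ := isCoveringMap_exp.existsUnique_continuousMap_lifts z' 0 (log (z 0))
    (Subtype.ext (exp_log (hne 0)))
  exact ⟨L, L.continuous, fun t => congrArg Subtype.val (congrFun hL t)⟩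

lemma log_unique {L1 L2 : ℝ → ℂ} (h1 : Continuous L1) (h2 : Continuous L2)
    (h : ∀ t, exp (L1 t) = exp (L2 t)) (h0 : L1 0 = L2 0) : ∀ t, L1 t = L2 t :=
  congrFun (isCoveringMap_exp.eq_of_comp_eq h1 h2 (funext fun u => Subtype.ext (h u)) 0 h0)

lemma div_mem_slitPlane {p q : ℂ} (hq : q ≠ 0) (h : ∀ r : ℝ, 0 ≤ r → p ≠ -(r : ℂ) * q) :
    p / q ∈ slitPlane := by
  rw [mem_slitPlane_iff]
  by_contra hcon
  push Not at hcon
  obtain ⟨h1, h2⟩ := hcon
  refine h (-(p / q).re) (by linarith) ?_
  have e : p / q = ((p / q).re : ℂ) := by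
    apply Complex.ext <;> simp [h2]
  have e2 : p = (p / q) * q := by field_simp
  conv_lhs => rw [e2, e]
  push_cast
  ring

/-- There is no antiperiodic curve with these sign relations. -/
theorem parity_contradiction {T : ℝ} {z : ℝ → ℂ} {σ : ℝ → ℝ} (hz : Continuous z)
    (hne : ∀ t, z t ≠ 0) (hanti : ∀ t, z (t + T) = -z t) (hσ : Continuous σ)
    (hσT : ∀ t, σ (t + T) = σ t + T)
    (h1 : ∀ t, (z t).re = 0 → 0 < (z (σ t)).re * (z t).im)
    (h2 : ∀ t, (z (σ t)).im = 0 → (z t).re = 0)
    (h3 : ∀ t, (z t).im = 0 → 0 < (z (σ t)).im * (z t).re) : False := by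
  obtain ⟨L, hLc, hL⟩ := exists_log z hz hne
  set c := L T - L 0 with hcdef
  have hzT : z T = -z 0 := by have := hanti 0; rwa [zero_add] at this
  have hc : exp c = -1 := by
    rw [hcdef, exp_sub, hL, hL, hzT, neg_div, div_self (hne 0)]
  have hLT : ∀ t, L (t + T) = L t + c := by
    apply log_unique
    · exact hLc.comp (continuous_id.add continuous_const)
    · exact hLc.add continuous_const
    · intro t
      rw [hL, exp_add, hL, hc, hanti]; ring
    · simp only [zero_add]; rw [hcdef]; ring
  -- the modified real part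
  obtain ⟨u, hu⟩ : ∃ u : ℝ → ℝ, u = fun t => if 0 ≤ (z (σ t)).im then |(z t).re| else -|(z t).re| :=
    ⟨_, rfl⟩
  have huc : Continuous u := by
    rw [hu]
    refine Continuous.if_le ?_ ?_ continuous_const ?_ ?_
    · exact (continuous_re.comp hz).abs
    · exact (continuous_re.comp hz).abs.neg
    · exact continuous_im.comp (hz.comp hσ)
    · intro t ht
      rw [h2 t ht.symm]; simp
  have hsame : ∀ t, 0 ≤ (z (σ t)).im * u t := by
    intro t
    rw [hu]; simp only
    split_ifs with h
    · exact mul_nonneg h (abs_nonneg _)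
    · push Not at h
      nlinarith [abs_nonneg (z t).re]
  have huabs : ∀ t, |u t| = |(z t).re| := by
    intro t
    rw [hu]; simp only
    split_ifs <;> simp
  have huT : ∀ t, u (t + T) = -u t := by
    intro t
    have e1 : (z (σ (t + T))).im = -(z (σ t)).im := by rw [hσT, hanti]; simp
    have e2 : |(z (t + T)).re| = |(z t).re| := by rw [hanti]; simp
    rw [hu]; simp only
    rw [e1, e2]
    rcases lt_trichotomy (z (σ t)).im 0 with h | h | h
    · rw [if_pos (by linarith), if_neg (by linarith)]; ring
    · have := h2 t h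
      rw [h, this]; simp
    · rw [if_neg (by linarith), if_pos h.le]
  obtain ⟨w, hw⟩ : ∃ w : ℝ → ℂ, w = fun t => (u t : ℂ) + (z t).im * I := ⟨_, rfl⟩
  have hwre : ∀ t, (w t).re = u t := by intro t; rw [hw]; simp
  have hwim : ∀ t, (w t).im = (z t).im := by intro t; rw [hw]; simp
  have hwc : Continuous w := by
    rw [hw]
    exact (continuous_ofReal.comp huc).add
      ((continuous_ofReal.comp (continuous_im.comp hz)).mul continuous_const)
  have hwT : ∀ t, w (t + T) = -w t := by
    intro t
    apply Complex.ext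
    · rw [hwre, huT, neg_re, hwre]
    · rw [hwim, hanti, neg_im, neg_im, hwim]
  have hwne : ∀ t, w t ≠ 0 := by
    intro t h0
    apply hne t
    have e1 : (w t).re = 0 := by rw [h0]; rfl
    have e2 : (w t).im = 0 := by rw [h0]; rfl
    rw [hwre] at e1
    rw [hwim] at e2
    have e3 := huabs t
    rw [e1, abs_zero] at e3
    exact Complex.ext (abs_eq_zero.1 e3.symm) e2
  have hwz : ∀ t, w t / z t ∈ slitPlane := by
    intro t
    apply div_mem_slitPlane (hne t)
    intro r hr h
    have e1 : u t = -r * (z t).re := by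
      have := congrArg Complex.re h
      rw [hwre] at this
      simpa using this
    have e2 : (z t).im = -r * (z t).im := by
      have := congrArg Complex.im h
      rw [hwim] at this
      simpa using this
    have e3 : (z t).im = 0 := by
      have : (1 + r) * (z t).im = 0 := by linarith
      rcases mul_eq_zero.1 this with h | h
      · linarith
      · exact h
    have e4 := h3 t e3
    have e5 := hsame t
    rw [e1] at e5
    have e6 : r * ((z (σ t)).im * (z t).re) ≤ 0 := by linarith
    have e7 : r = 0 := by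
      rcases hr.eq_or_lt with h | h
      · exact h.symm
      · have := mul_pos h e4; linarith
    have e8 := huabs t
    rw [e1, e7] at e8
    simp only [neg_zero, zero_mul, abs_zero] at e8
    have e9 := abs_eq_zero.1 e8.symm
    rw [e9, mul_zero] at e4
    exact lt_irrefl _ e4
  obtain ⟨y, hy⟩ : ∃ y : ℝ → ℂ, y = fun t => I * conj (z (σ t)) := ⟨_, rfl⟩
  have hyre : ∀ t, (y t).re = (z (σ t)).im := by intro t; rw [hy]; simp
  have hyim : ∀ t, (y t).im = (z (σ t)).re := by intro t; rw [hy]; simp
  have hyc : Continuous y := by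
    rw [hy]
    exact continuous_const.mul (continuous_conj.comp (hz.comp hσ))
  have hyT : ∀ t, y (t + T) = -y t := by
    intro t
    rw [hy]; simp only
    rw [hσT, hanti]; simp
  have hyne : ∀ t, y t ≠ 0 := by
    intro t h0
    apply hne (σ t)
    apply Complex.ext
    · rw [← hyim, h0]; rfl
    · rw [← hyre, h0]; rfl
  have hyw : ∀ t, y t / w t ∈ slitPlane := by
    intro t
    apply div_mem_slitPlane (hwne t)
    intro r hr h
    have e1 : (z (σ t)).im = -r * u t := by
      have := congrArg Complex.re h
      rw [hyre] at this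
      simpa [hwre] using this
    have e2 : (z (σ t)).re = -r * (z t).im := by
      have := congrArg Complex.im h
      rw [hyim] at this
      simpa [hwim] using this
    have e3 := hsame t
    have e4 : (z (σ t)).im = 0 := by
      have : (z (σ t)).im ^ 2 ≤ 0 := by
        have : (z (σ t)).im ^ 2 = -r * ((z (σ t)).im * u t) := by
          rw [pow_two]; nth_rewrite 2 [e1]; ring
        rw [this]; nlinarith
      exact pow_eq_zero_iff two_ne_zero |>.1 (le_antisymm this (sq_nonneg _))
    have e5 := h2 t e4
    have e6 := h1 t e5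
    rw [e2] at e6
    nlinarith [sq_nonneg (z t).im]
  -- two logarithms of `y`
  have hlog1 : Continuous fun t => log (w t / z t) :=
    (hwc.div hz hne).clog hwz
  have hlog2 : Continuous fun t => log (y t / w t) :=
    (hyc.div hwc hwne).clog hyw
  obtain ⟨D1, hD1⟩ : ∃ D1 : ℝ → ℂ, D1 = fun t => L t + log (w t / z t) + log (y t / w t) :=
    ⟨_, rfl⟩
  obtain ⟨D2, hD2⟩ : ∃ D2 : ℝ → ℂ, D2 = fun t => conj (L (σ t)) + log I := ⟨_, rfl⟩
  have hD1c : Continuous D1 := by rw [hD1]; exact (hLc.add hlog1).add hlog2
  have hD2c : Continuous D2 := by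
    rw [hD2]; exact (continuous_conj.comp (hLc.comp hσ)).add continuous_const
  have hexp1 : ∀ t, exp (D1 t) = y t := by
    intro t
    rw [hD1]; simp only
    rw [exp_add, exp_add, hL, exp_log (div_ne_zero (hwne t) (hne t)),
      exp_log (div_ne_zero (hyne t) (hwne t))]
    have := hne t
    have := hwne t
    field_simp
  have hexp2 : ∀ t, exp (D2 t) = y t := by
    intro t
    rw [hD2]; simp only
    rw [exp_add, exp_conj, hL, exp_log I_ne_zero, hy]; ring
  have hD : ∀ t, D1 t = D2 t + (D1 0 - D2 0) := by
    apply log_unique hD1c (hD2c.add continuous_const)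
    · intro t
      simp only [Pi.add_apply]
      rw [exp_add, exp_sub, hexp1, hexp2, hexp1, hexp2, div_self (hyne 0), mul_one]
    · simp only [Pi.add_apply]; ring
  have e1 : D1 T = D1 0 + c := by
    have a1 : w T = -w 0 := by have := hwT 0; rwa [zero_add] at this
    have a2 : y T = -y 0 := by have := hyT 0; rwa [zero_add] at this
    have a3 : L T = L 0 + c := by rw [hcdef]; ring
    rw [hD1]; simp only
    rw [a1, a2, a3, hzT, neg_div_neg_eq, neg_div_neg_eq]; ring
  have e2 : D2 T = D2 0 + conj c := by
    have a1 : σ T = σ 0 + T := by have := hσT 0; rwa [zero_add] at this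
    rw [hD2]; simp only
    rw [a1, hLT, map_add]; ring
  have e3 := hD T
  rw [e1, e2] at e3
  have e4 : conj c = c := by linear_combination -e3
  have e5 : c = ((c.re : ℝ) : ℂ) := (conj_eq_iff_real.1 e4).elim fun r hr => by rw [hr]; simp
  rw [e5, ← ofReal_exp] at hc
  have e6 : Real.exp c.re = -1 := by exact_mod_cast hc
  have := Real.exp_pos c.re
  linarith

end FK
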