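import Pool.Agent.FK.Core2
import Pool.Agent.FK.Topo

/-!
# There is a degenerate critical parallelogram (MP_42fa54_co)
-/

open Set Filter Metric
open scoped Topology Pointwise

set_option linter.unusedSimpArgs false

namespace FK
open H78

variable {C : Set Plane} {K : ℝ} {a x y : Plane}

/-- the diagonals turn strictly monotonically -/
lemma mono (hB : Body C K) (h : Par C K a x y) {a' x' y' : Plane} (h' : Par C K a' x' y')
    (hS : 0 < br a a') : 0 < br (a + (y - x)) (a' + (y' - x')) := by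
  have hK := hB.pos
  have p1 := h'.width' hB h.max
  have p2 := h'.width'' hB h.max
  have p3 := h.width' hB h'.max
  have p4 := h.width'' hB h'.max
  have hpl := plucker a a' (y - x) (y' - x')
  rw [h.hbr, h'.hbr] at hpl
  obtain ⟨b, hb⟩ : ∃ b, b = y - x := ⟨_, rfl⟩
  obtain ⟨b', hb'⟩ : ∃ b', b' = y' - x' := ⟨_, rfl⟩
  rw [← hb'] at p1 p2
  rw [← hb] at p3 p4
  rw [← hb, ← hb'] at hpl ⊢
  have e : br (a + b) (a' + b') = br a a' + br b b' + br a b' - br a' b := by
    rw [br_add_left, br_add_right, br_add_right, br_swap b a']; ring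
  rw [e]
  set S := br a a'
  set B := br b b'
  set u := br a b'
  set v := br a' b
  -- S * B = K^2 - u v
  have h1 : 0 ≤ S * B := by rw [hpl]; nlinarith
  have hB0 : 0 ≤ B := by
    by_contra hcon; push Not at hcon
    have := mul_neg_of_pos_of_neg hS hcon
    linarith
  by_contra hcon
  push Not at hcon
  have h2 : S + B ≤ v - u := by linarith
  have h3 : (S + B) ^ 2 ≤ (v - u) ^ 2 := by
    have : 0 ≤ S + B := by linarith
    nlinarith
  have h4 : (v - u) ^ 2 = 4 * (S * B) - (2 * K - u - v) * (2 * K + u + v) := by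
    rw [hpl]; ring
  have h5 : 0 ≤ (2 * K - u - v) * (2 * K + u + v) := mul_nonneg (by linarith) (by linarith)
  have h6 : (S - B) ^ 2 = (S + B) ^ 2 - 4 * (S * B) := by ring
  have h7 : (2 * K - u - v) * (2 * K + u + v) = 0 := by
    nlinarith [sq_nonneg (S - B)]
  rcases mul_eq_zero.1 h7 with h8 | h8
  · have : u = K := by linarith
    have : v = K := by linarith
    linarith
  · have : u = -K := by linarith
    have : v = -K := by linarith
    linarith

/-- chords and longest chords -/
lemma chord_zero (hB : Body C K) {u v q0 : Plane} {r : ℝ} (hu : u ∈ C) (hv : v ∈ C)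
    (hui : u ∉ interior C) (hvi : v ∉ interior C) (huv : v - u ≠ 0) (hr : 0 < r)
    (hmax : MaxChord C (r • (v - u))) (hq : q0 ∈ C) (hq' : q0 + (2 : ℝ) • (r • (v - u)) ∈ C) :
    br ((1 / 2 : ℝ) • (u + v) - (q0 + r • (v - u))) (v - u) = 0 ↔
      MaxChord C ((1 / 2 : ℝ) • (v - u)) := by
  obtain ⟨d, hd⟩ : ∃ d, d = v - u := ⟨_, rfl⟩
  rw [← hd] at huv hmax hq' ⊢
  have hvd : v = u + d := by rw [hd]; abel
  constructor
  · intro h0
    obtain ⟨τ, hτ⟩ := parallel_of_br huv h0
    obtain ⟨α, hα⟩ : ∃ α : ℝ, α = r + τ - 1 / 2 := ⟨_, rfl⟩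
    have hu' : u = q0 + α • d := by
      have : u = ((1 / 2 : ℝ) • (u + v) - (q0 + r • d)) + q0 + r • d - (1 / 2 : ℝ) • d := by
        rw [hvd]; module
      rw [this, hτ, hα]; module
    have hv' : v = q0 + (α + 1) • d := by rw [hvd, hu']; module
    -- chord lengths
    have hlen : ∀ A ∈ C, ∀ B ∈ C, ∀ s : ℝ, B - A = s • d → s ≤ 2 * r := by
      intro A hA B hB1 s hs
      by_contra hcon
      push Not at hcon
      refine hmax.2 (s / (2 * r)) ((one_lt_div (by positivity)).2 hcon) A hA B hB1 ?_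
      rw [hs, smul_smul]
      congr 1
      field_simp
    have l1 : α + 1 ≤ 2 * r := hlen q0 hq v hv _ (by rw [hv']; abel)
    have l2 : 0 ≤ α := by
      have := hlen u hu _ hq' (2 * r - α) (by rw [hu']; module)
      linarith
    have hα0 : α = 0 := by
      rcases l2.eq_or_lt with h | h
      · exact h.symm
      · exfalso
        apply hui
        refine int_of_mid hB.sc hq hv (t := α / (α + 1)) (by positivity)
          (by rw [div_lt_one (by linarith)]; linarith) ?_ ?_
        · intro h2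
          have : (α + 1) • d = 0 := by
            have h3 : (α + 1) • d = v - q0 := by rw [hv']; abel
            rw [h3, ← h2, sub_self]
          rcases smul_eq_zero.1 this with h4 | h4
          · linarith
          · exact huv h4
        · have e1 : α / (α + 1) * (α + 1) = α := by field_simp
          have e2 : (1 - α / (α + 1)) • q0 + (α / (α + 1)) • v = q0 + (α / (α + 1) * (α + 1)) • d := by
            rw [hv']; module
          rw [e2, e1]; exact hu'
    rw [hα0, zero_add] at l1
    have hr1 : 2 * r ≤ 1 := by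
      by_contra hcon
      push Not at hcon
      apply hvi
      refine int_of_mid hB.sc hq hq' (t := 1 / (2 * r)) (by positivity)
        (by rw [div_lt_one (by linarith)]; linarith) ?_ ?_
      · intro h2
        have : (2 : ℝ) • (r • d) = 0 := by
          have h3 : (2 : ℝ) • (r • d) = q0 + (2 : ℝ) • (r • d) - q0 := by abel
          rw [h3, ← h2, sub_self]
        rw [smul_smul] at this
        rcases smul_eq_zero.1 this with h4 | h4
        · linarith
        · exact huv h4
      · have e1 : 1 / (2 * r) * (2 * r) = 1 := by field_simp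
        have e2 : (1 - 1 / (2 * r)) • q0 + (1 / (2 * r)) • (q0 + (2 : ℝ) • (r • d)) =
            q0 + (1 / (2 * r) * (2 * r)) • d := by module
        rw [e2, e1, hv', hα0]; module
    have : r = 1 / 2 := by linarith
    rw [← this]; exact hmax
  · intro h
    have hr2 : r = 1 / 2 := scale_unique hmax h hr (by norm_num)
    have hq0 : q0 = u := by
      refine ends_unique hB h hq ?_ hu ?_
      · rw [hr2] at hq'; exact hq'
      · have : u + (2 : ℝ) • ((1 / 2 : ℝ) • d) = v := by rw [hvd]; module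
        rw [this]; exact hv
    have : (1 / 2 : ℝ) • (u + v) - (q0 + r • d) = 0 := by
      rw [hr2, hq0, hvd]; module
    rw [this, br_zero_left]

/-- continuous choice of the direction -/
noncomputable def lift (v : Plane) (t : ℝ) : ℝ :=
  t + Real.pi / 2 - Real.arctan (inner ℝ (uv t) v / br (uv t) v)

lemma uv_add (t s : ℝ) : uv (t + s) = Real.cos s • uv t + Real.sin s • un t := by
  apply plane_ext
  · simp only [PiLp.add_apply, PiLp.smul_apply, uv0, un0, smul_eq_mul, Real.cos_add]; ring
  · simp only [PiLp.add_apply, PiLp.smul_apply, uv1, un1, smul_eq_mul, Real.sin_add]; ring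

lemma lift_spec {v : Plane} {t : ℝ} (h : 0 < br (uv t) v) :
    ∃ r : ℝ, 0 < r ∧ v = r • uv (lift v t) := by
  obtain ⟨c, hc⟩ : ∃ c, c = inner ℝ (uv t) v := ⟨_, rfl⟩
  obtain ⟨s, hs⟩ : ∃ s, s = br (uv t) v := ⟨_, rfl⟩
  have hv : v = c • uv t + s • un t := by
    have hsc := Real.sin_sq_add_cos_sq t
    rw [hc, hs, real_inner_comm, inner_uv]
    apply plane_ext
    · simp only [PiLp.add_apply, PiLp.smul_apply, uv0, un0, uv1, smul_eq_mul, br]
      linear_combination (-(v 0)) * hsc
    · simp only [PiLp.add_apply, PiLp.smul_apply, uv0, uv1, un1, smul_eq_mul, br]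
      linear_combination (-(v 1)) * hsc
  have hs0 : 0 < s := by rw [hs]; exact h
  have hq : 0 < √(1 + (c / s) ^ 2) := Real.sqrt_pos.2 (by positivity)
  refine ⟨s * √(1 + (c / s) ^ 2), by positivity, ?_⟩
  have e1 : lift v t = t + (Real.pi / 2 - Real.arctan (c / s)) := by rw [lift, hc, hs]; ring
  rw [e1, uv_add, Real.cos_pi_div_two_sub, Real.sin_pi_div_two_sub, Real.sin_arctan,
    Real.cos_arctan]
  conv_lhs => rw [hv]
  rw [smul_add, smul_smul, smul_smul]
  congr 2
  · field_simp
  · field_simp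

lemma uv_eq_of_smul {r s t u : ℝ} (hr : 0 < r) (hs : 0 < s) (h : r • uv t = s • uv u) :
    uv t = uv u := by
  have h1 := congrArg norm h
  rw [norm_smul, norm_smul, norm_uv, norm_uv, Real.norm_of_nonneg hr.le, Real.norm_of_nonneg hs.le,
    mul_one, mul_one] at h1
  rw [h1] at h
  exact smul_right_injective Plane hs.ne' h

lemma av_congr {s t : ℝ} (h : uv s = uv t) : av C s = av C t := by
  rw [av, av, rad, rad, h]

/-- the functions used in the argument -/
structure Fns (C : Set Plane) (K : ℝ) (X Y q : ℝ → Plane) : Prop where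
  hX : Continuous X
  hY : Continuous Y
  hq : Continuous q
  par : ∀ t, Par C K (av C t) (X t) (Y t)
  q1 : ∀ t, q t ∈ C
  q2 : ∀ t, q t + (2 : ℝ) • av C t ∈ C

section
variable {X Y q : ℝ → Plane}

lemma Fns.congr (hB : Body C K) (F : Fns C K X Y q) {s t : ℝ} (h : av C s = av C t) :
    X s = X t ∧ Y s = Y t ∧ q s = q t := by
  have h1 := F.par s
  rw [h] at h1
  obtain ⟨e1, e2⟩ := h1.unique hB (F.par t)
  refine ⟨e1, e2, ?_⟩
  have h2 := F.q2 s
  rw [h] at h2
  exact ends_unique hB (maxChord_av hB t) (F.q1 s) h2 (F.q1 t) (F.q2 t)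

lemma Fns.shift (hB : Body C K) (F : Fns C K X Y q) (t : ℝ) :
    X (t + Real.pi) = Y t + av C t ∧ Y (t + Real.pi) = X t + av C t ∧
      q (t + Real.pi) = q t + (2 : ℝ) • av C t := by
  have h1 := F.par (t + Real.pi)
  rw [av_add_pi hB] at h1
  obtain ⟨e1, e2⟩ := h1.unique hB (F.par t).neg
  refine ⟨e1, e2, ?_⟩
  have h2 := F.q2 (t + Real.pi)
  rw [av_add_pi hB] at h2
  refine ends_unique hB (maxChord_neg (maxChord_av hB t)) (F.q1 _) h2 (F.q2 t) ?_
  have : q t + (2 : ℝ) • av C t + (2 : ℝ) • -av C t = q t := by module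
  rw [this]; exact F.q1 t

/-- centre of the critical parallelogram -/
noncomputable def cen (C : Set Plane) (X Y : ℝ → Plane) (t : ℝ) : Plane :=
  X t + (1 / 2 : ℝ) • (av C t + (Y t - X t))

/-- centre of the longest chord -/
noncomputable def mid (C : Set Plane) (q : ℝ → Plane) (t : ℝ) : Plane := q t + av C t

/-- direction of the diagonal `a + b` -/
noncomputable def sg (C : Set Plane) (X Y : ℝ → Plane) (t : ℝ) : ℝ :=
  lift (av C t + (Y t - X t)) t

/-- direction of the diagonal `b - a` -/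
noncomputable def sg2 (C : Set Plane) (X Y : ℝ → Plane) (t : ℝ) : ℝ :=
  lift ((Y t - X t) - av C t) t

noncomputable def al (C : Set Plane) (X Y q : ℝ → Plane) (t : ℝ) : ℝ :=
  br (cen C X Y t - mid C q (sg C X Y t)) (av C t + (Y t - X t))

noncomputable def be (C : Set Plane) (X Y q : ℝ → Plane) (t : ℝ) : ℝ :=
  br ((Y t - X t) - av C t) (cen C X Y t - mid C q (sg2 C X Y t))

lemma Fns.br_b (hB : Body C K) (F : Fns C K X Y q) (t : ℝ) : 0 < br (uv t) (Y t - X t) := by
  have h := (F.par t).hbr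
  rw [av, br_smul_left] at h
  have h1 := rad_pos hB t
  have h2 := hB.pos
  by_contra hcon
  push Not at hcon
  nlinarith

lemma Fns.pos1 (hB : Body C K) (F : Fns C K X Y q) (t : ℝ) :
    0 < br (uv t) (av C t + (Y t - X t)) := by
  rw [br_add_right, av, br_smul_right, br_self, mul_zero, zero_add]
  exact F.br_b hB t

lemma Fns.pos2 (hB : Body C K) (F : Fns C K X Y q) (t : ℝ) :
    0 < br (uv t) ((Y t - X t) - av C t) := by
  rw [br_sub_right, av, br_smul_right, br_self, mul_zero, sub_zero]
  exact F.br_b hB t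

lemma continuous_lift {v : ℝ → Plane} (hv : Continuous v) (h : ∀ t, 0 < br (uv t) (v t)) :
    Continuous fun t => lift (v t) t := by
  have h1 : Continuous fun t => inner ℝ (uv t) (v t) / br (uv t) (v t) :=
    (continuous_uv.inner hv).div (continuous_br continuous_uv hv) (fun t => (h t).ne')
  unfold lift
  exact (continuous_id.add continuous_const).sub (Real.continuous_arctan.comp h1)

lemma Fns.cont_sg (hB : Body C K) (F : Fns C K X Y q) : Continuous (sg C X Y) :=
  continuous_lift ((continuous_av hB).add (F.hY.sub F.hX)) (F.pos1 hB)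

lemma Fns.cont_sg2 (hB : Body C K) (F : Fns C K X Y q) : Continuous (sg2 C X Y) :=
  continuous_lift ((F.hY.sub F.hX).sub (continuous_av hB)) (F.pos2 hB)

lemma Fns.cont_cen (hB : Body C K) (F : Fns C K X Y q) : Continuous (cen C X Y) := by
  have h1 := continuous_av hB
  have h2 := F.hX
  have h3 := F.hY
  have h4 : Continuous fun t => av C t + (Y t - X t) := h1.add (h3.sub h2)
  exact h2.add (h4.const_smul (1 / 2 : ℝ))

lemma Fns.cont_mid (hB : Body C K) (F : Fns C K X Y q) : Continuous (mid C q) :=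
  F.hq.add (continuous_av hB)

lemma Fns.cont_al (hB : Body C K) (F : Fns C K X Y q) : Continuous (al C X Y q) :=
  continuous_br ((F.cont_cen hB).sub ((F.cont_mid hB).comp (F.cont_sg hB)))
    ((continuous_av hB).add (F.hY.sub F.hX))

lemma Fns.cont_be (hB : Body C K) (F : Fns C K X Y q) : Continuous (be C X Y q) :=
  continuous_br ((F.hY.sub F.hX).sub (continuous_av hB))
    ((F.cont_cen hB).sub ((F.cont_mid hB).comp (F.cont_sg2 hB)))

lemma lift_shift (v : Plane) (t : ℝ) : lift (-v) (t + Real.pi) = lift v t + Real.pi := by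
  rw [lift, lift, uv_add_pi, inner_neg_neg, br_neg_left, br_neg_right, neg_neg]; ring

lemma Fns.b_shift (hB : Body C K) (F : Fns C K X Y q) (t : ℝ) :
    Y (t + Real.pi) - X (t + Real.pi) = -(Y t - X t) := by
  obtain ⟨h1, h2, -⟩ := F.shift hB t
  rw [h1, h2]; abel

lemma Fns.sg_shift (hB : Body C K) (F : Fns C K X Y q) (t : ℝ) :
    sg C X Y (t + Real.pi) = sg C X Y t + Real.pi := by
  have e : av C (t + Real.pi) + (Y (t + Real.pi) - X (t + Real.pi)) =
      -(av C t + (Y t - X t)) := by
    rw [F.b_shift hB, av_add_pi hB]; abel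
  rw [sg, e, lift_shift, sg]

lemma Fns.sg2_shift (hB : Body C K) (F : Fns C K X Y q) (t : ℝ) :
    sg2 C X Y (t + Real.pi) = sg2 C X Y t + Real.pi := by
  have e : (Y (t + Real.pi) - X (t + Real.pi)) - av C (t + Real.pi) =
      -((Y t - X t) - av C t) := by
    rw [F.b_shift hB, av_add_pi hB]; abel
  rw [sg2, e, lift_shift, sg2]

lemma Fns.cen_shift (hB : Body C K) (F : Fns C K X Y q) (t : ℝ) :
    cen C X Y (t + Real.pi) = cen C X Y t := by
  obtain ⟨h1, h2, -⟩ := F.shift hB t
  rw [cen, cen, F.b_shift hB, av_add_pi hB, h1]; module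

lemma Fns.mid_shift (hB : Body C K) (F : Fns C K X Y q) (t : ℝ) :
    mid C q (t + Real.pi) = mid C q t := by
  obtain ⟨-, -, h3⟩ := F.shift hB t
  rw [mid, mid, av_add_pi hB, h3]; module

lemma Fns.al_shift (hB : Body C K) (F : Fns C K X Y q) (t : ℝ) :
    al C X Y q (t + Real.pi) = -al C X Y q t := by
  have e : av C (t + Real.pi) + (Y (t + Real.pi) - X (t + Real.pi)) =
      -(av C t + (Y t - X t)) := by
    rw [F.b_shift hB, av_add_pi hB]; abel
  rw [al, al, e, F.cen_shift hB, F.sg_shift hB, F.mid_shift hB, br_neg_right]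

lemma Fns.be_shift (hB : Body C K) (F : Fns C K X Y q) (t : ℝ) :
    be C X Y q (t + Real.pi) = -be C X Y q t := by
  have e : (Y (t + Real.pi) - X (t + Real.pi)) - av C (t + Real.pi) =
      -((Y t - X t) - av C t) := by
    rw [F.b_shift hB, av_add_pi hB]; abel
  rw [be, be, e, F.cen_shift hB, F.sg2_shift hB, F.mid_shift hB, br_neg_left]

/-- the direction `sg t` -/
lemma Fns.sg_spec (hB : Body C K) (F : Fns C K X Y q) (t : ℝ) : ∃ r : ℝ, 0 < r ∧
    av C (sg C X Y t) = r • (av C t + (Y t - X t)) := by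
  obtain ⟨r, hr, h⟩ := lift_spec (F.pos1 hB t)
  refine ⟨rad C (sg C X Y t) / r, div_pos (rad_pos hB _) hr, ?_⟩
  conv_rhs => rw [h]
  rw [smul_smul, av]
  congr 1
  field_simp

lemma Fns.sg2_spec (hB : Body C K) (F : Fns C K X Y q) (t : ℝ) : ∃ r : ℝ, 0 < r ∧
    av C (sg2 C X Y t) = r • ((Y t - X t) - av C t) := by
  obtain ⟨r, hr, h⟩ := lift_spec (F.pos2 hB t)
  refine ⟨rad C (sg2 C X Y t) / r, div_pos (rad_pos hB _) hr, ?_⟩
  conv_rhs => rw [h]
  rw [smul_smul, av]
  congr 1
  field_simp

lemma Fns.al_zero (hB : Body C K) (F : Fns C K X Y q) (t : ℝ) :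
    al C X Y q t = 0 ↔ MaxChord C ((1 / 2 : ℝ) • (av C t + (Y t - X t))) := by
  obtain ⟨r, hr, hav⟩ := F.sg_spec hB t
  have hp := F.par t
  have e : (Y t + av C t) - X t = av C t + (Y t - X t) := by abel
  have h := chord_zero hB (u := X t) (v := Y t + av C t) (q0 := q (sg C X Y t)) (r := r)
    hp.hx hp.hya (hp.not_int_x hB) (hp.not_int_ya hB) (by
      rw [e]; intro h0
      have := F.pos1 hB t
      rw [h0, br_zero_right] at this
      exact lt_irrefl _ this) hr (by rw [e, ← hav]; exact maxChord_av hB _) (F.q1 _)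
    (by rw [e, ← hav]; exact F.q2 _)
  rw [e, ← hav] at h
  rw [← h, al, cen, mid]
  have e2 : X t + (1 / 2 : ℝ) • (av C t + (Y t - X t)) = (1 / 2 : ℝ) • (X t + (Y t + av C t)) := by
    module
  rw [e2]

lemma Fns.be_zero (hB : Body C K) (F : Fns C K X Y q) (t : ℝ) :
    be C X Y q t = 0 ↔ MaxChord C ((1 / 2 : ℝ) • ((Y t - X t) - av C t)) := by
  obtain ⟨r, hr, hav⟩ := F.sg2_spec hB t
  have hp := F.par t
  have e : Y t - (X t + av C t) = (Y t - X t) - av C t := by abel
  have h := chord_zero hB (u := X t + av C t) (v := Y t) (q0 := q (sg2 C X Y t)) (r := r)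
    hp.hxa hp.hy (hp.not_int_xa hB) (hp.not_int_y hB) (by
      rw [e]; intro h0
      have := F.pos2 hB t
      rw [h0, br_zero_right] at this
      exact lt_irrefl _ this) hr (by rw [e, ← hav]; exact maxChord_av hB _) (F.q1 _)
    (by rw [e, ← hav]; exact F.q2 _)
  rw [e, ← hav] at h
  rw [← h, be, cen, mid, br_swap, neg_eq_zero]
  have e2 : X t + (1 / 2 : ℝ) • (av C t + (Y t - X t)) = (1 / 2 : ℝ) • (X t + av C t + Y t) := by
    module
  rw [e2]

/-- everything depends on `uv t` only -/
lemma Fns.uv_sg_congr (hB : Body C K) (F : Fns C K X Y q) {s t : ℝ} (h : av C s = av C t) :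
    av C (sg C X Y s) = av C (sg C X Y t) ∧ av C (sg2 C X Y s) = av C (sg2 C X Y t) := by
  obtain ⟨h1, h2, h3⟩ := F.congr hB h
  constructor
  · obtain ⟨r, hr, e1⟩ := lift_spec (F.pos1 hB s)
    obtain ⟨r', hr', e2⟩ := lift_spec (F.pos1 hB t)
    rw [h, h1, h2] at e1
    apply av_congr
    have e3 := e1.symm.trans e2
    have e4 := uv_eq_of_smul hr hr' e3
    rw [← h2, ← h1, ← h] at e4
    rw [sg, sg, e4, h, h1, h2]
  · obtain ⟨r, hr, e1⟩ := lift_spec (F.pos2 hB s)
    obtain ⟨r', hr', e2⟩ := lift_spec (F.pos2 hB t)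
    rw [h, h1, h2] at e1
    apply av_congr
    have e3 := e1.symm.trans e2
    have e4 := uv_eq_of_smul hr hr' e3
    rw [← h2, ← h1, ← h] at e4
    rw [sg2, sg2, e4, h, h1, h2]

lemma Fns.al_congr (hB : Body C K) (F : Fns C K X Y q) {s t : ℝ} (h : av C s = av C t) :
    al C X Y q s = al C X Y q t ∧ be C X Y q s = be C X Y q t := by
  obtain ⟨h1, h2, h3⟩ := F.congr hB h
  obtain ⟨g1, g2⟩ := F.uv_sg_congr hB h
  obtain ⟨-, -, k1⟩ := F.congr hB g1
  obtain ⟨-, -, k2⟩ := F.congr hB g2
  constructor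
  · rw [al, al, cen, cen, mid, mid, g1, k1, h, h1, h2]
  · rw [be, be, cen, cen, mid, mid, g2, k2, h, h1, h2]

end

end FK
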