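import Pool.Agent.FK.Assembly

/-!
# There is a degenerate critical parallelogram, conclusion (MP_42fa54_co)
-/

open Set Filter Metric
open scoped Topology Pointwise

set_option linter.unusedSimpArgs false

namespace FK
open H78

variable {C : Set Plane} {K : ℝ} {X Y q : ℝ → Plane}

/-- a positive multiple of `v` which is `av` -/
lemma av_eq_of_max (hB : Body C K) {v : Plane} {r s t : ℝ} (hr : 0 < r) (hs : 0 < s)
    (h1 : av C t = r • v) (h2 : MaxChord C (s • v)) : av C t = s • v := by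
  have h3 := maxChord_av hB t
  rw [h1] at h3 ⊢
  rw [scale_unique h3 h2 hr hs]

lemma Fns.key_pos (hB : Body C K) (F : Fns C K X Y q) (t : ℝ) (h0 : al C X Y q t = 0)
    (hpos : 0 < be C X Y q t) :
    0 < al C X Y q (sg C X Y t) ∧ 0 < be C X Y q (sg C X Y (sg C X Y t)) := by
  have hP := F.par t
  have hmax := (F.al_zero hB t).1 h0
  have hne : ¬ MaxChord C ((1 / 2 : ℝ) • ((Y t - X t) - av C t)) := by
    rw [← F.be_zero hB t]; exact hpos.ne'
  obtain ⟨σ, hσ⟩ : ∃ σ, σ = sg C X Y t := ⟨_, rfl⟩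
  obtain ⟨τ, hτ⟩ : ∃ τ, τ = sg C X Y σ := ⟨_, rfl⟩
  rw [← hσ, ← hτ]
  obtain ⟨r, hr, hav⟩ := F.sg_spec hB t
  rw [← hσ] at hav
  have havσ : av C σ = (1 / 2 : ℝ) • (av C t + (Y t - X t)) :=
    av_eq_of_max hB hr (by norm_num) hav hmax
  have hf : Par C K ((1 / 2 : ℝ) • (av C t + (Y t - X t))) (X σ) (Y σ) := by
    rw [← havσ]; exact F.par σ
  have hw := pzero_b hB hP hf
  have hdiag : av C σ + (Y σ - X σ) = (Y t - X t) - av C t := by
    rw [havσ, hw]; module
  obtain ⟨r2, hr2, hav2⟩ := F.sg_spec hB σ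
  rw [← hτ, hdiag] at hav2
  have havτ : av C τ = (2 * r2) • ((1 / 2 : ℝ) • ((Y t - X t) - av C t)) := by
    rw [hav2]; module
  have hRe : Par C K ((2 * r2) • ((1 / 2 : ℝ) • ((Y t - X t) - av C t))) (X τ) (Y τ) := by
    rw [← havτ]; exact F.par τ
  have hqe : q τ + (2 : ℝ) • ((2 * r2) • ((1 / 2 : ℝ) • ((Y t - X t) - av C t))) ∈ C := by
    rw [← havτ]; exact F.q2 τ
  -- the direction `sg2 t` is that of `τ`
  have hsg2 : av C (sg2 C X Y t) = av C τ := by
    obtain ⟨r3, hr3, h3⟩ := F.sg2_spec hB t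
    rw [hav2]
    refine av_eq_of_max hB hr3 hr2 h3 ?_
    rw [← hav2]; exact maxChord_av hB τ
  have hmid : mid C q (sg2 C X Y t) = q τ + (2 * r2) • ((1 / 2 : ℝ) • ((Y t - X t) - av C t)) := by
    rw [mid, hsg2, (F.congr hB hsg2).2.2, havτ]
  obtain ⟨μ, hμ, hav3⟩ := F.sg2_spec hB τ
  obtain ⟨ρ, hρ⟩ : ∃ ρ, ρ = sg2 C X Y τ := ⟨_, rfl⟩
  rw [← hρ, havτ] at hav3
  have hd := F.par ρ
  have hqd := F.q2 ρ
  rw [hav3] at hd hqd
  have hβ := hpos
  rw [be, hmid, cen] at hβ
  have hmain := sign_relations hB hP hf hne (by positivity : 0 < 2 * r2) hRe (F.q1 τ) hqe hμ hd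
    (F.q1 ρ) hqd hβ
  obtain ⟨-, -, -, -, -, hcen⟩ := exists_PZ hB hP hf
  constructor
  · have e1 : cen C X Y σ = Y σ + av C t := by
      rw [cen, havσ]; exact hcen
    have e2 : mid C q τ = q τ + (2 * r2) • ((1 / 2 : ℝ) • ((Y t - X t) - av C t)) := by
      rw [mid, havτ]
    rw [al, ← hτ, e1, e2, hdiag]
    exact hmain.1
  · rw [be, ← hρ, mid, hav3, cen, havτ]
    exact hmain.2

lemma Fns.key (hB : Body C K) (F : Fns C K X Y q) (t : ℝ) (h0 : al C X Y q t = 0)
    (hne : be C X Y q t ≠ 0) :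
    0 < al C X Y q (sg C X Y t) * be C X Y q t ∧
      0 < be C X Y q (sg C X Y (sg C X Y t)) * be C X Y q t := by
  rcases lt_or_gt_of_ne hne with h | h
  · have h1 : al C X Y q (t + Real.pi) = 0 := by rw [F.al_shift hB, h0, neg_zero]
    have h2 : 0 < be C X Y q (t + Real.pi) := by rw [F.be_shift hB]; linarith
    obtain ⟨k1, k2⟩ := F.key_pos hB _ h1 h2
    rw [F.sg_shift hB, F.al_shift hB] at k1
    rw [F.sg_shift hB, F.sg_shift hB, F.be_shift hB] at k2
    exact ⟨mul_pos_of_neg_of_neg (by linarith) h, mul_pos_of_neg_of_neg (by linarith) h⟩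
  · obtain ⟨k1, k2⟩ := F.key_pos hB _ h0 h
    exact ⟨mul_pos k1 h, mul_pos k2 h⟩

lemma Fns.inv (hB : Body C K) (F : Fns C K X Y q) (σ : ℝ) (h0 : be C X Y q σ = 0) :
    ∃ t0, av C t0 + (Y t0 - X t0) = (2 : ℝ) • av C σ ∧ al C X Y q t0 = 0 ∧
      av C (sg C X Y t0) = av C σ := by
  have hmax := (F.be_zero hB σ).1 h0
  obtain ⟨r, hr, hav⟩ := F.sg2_spec hB σ
  obtain ⟨ρ, hρ⟩ : ∃ ρ, ρ = sg2 C X Y σ := ⟨_, rfl⟩
  rw [← hρ] at hav
  have havρ : av C ρ = (1 / 2 : ℝ) • ((Y σ - X σ) - av C σ) :=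
    av_eq_of_max hB hr (by norm_num) hav hmax
  have hf : Par C K ((1 / 2 : ℝ) • ((Y σ - X σ) - av C σ)) (X ρ) (Y ρ) := by
    rw [← havρ]; exact F.par ρ
  have hw := qzero_b hB (F.par σ) hf
  have hdiag : av C (ρ + Real.pi) + (Y (ρ + Real.pi) - X (ρ + Real.pi)) = (2 : ℝ) • av C σ := by
    rw [av_add_pi hB, F.b_shift hB, hw, havρ]; module
  have hhalf : (1 / 2 : ℝ) • ((2 : ℝ) • av C σ) = av C σ := by module
  refine ⟨ρ + Real.pi, hdiag, ?_, ?_⟩
  · rw [F.al_zero hB, hdiag, hhalf]; exact maxChord_av hB σ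
  · obtain ⟨r2, hr2, h2⟩ := F.sg_spec hB (ρ + Real.pi)
    rw [hdiag, smul_smul] at h2
    have := av_eq_of_max hB (by positivity) one_pos h2 (by rw [one_smul]; exact maxChord_av hB σ)
    rw [one_smul] at this
    exact this

lemma Fns.be_sg (hB : Body C K) (F : Fns C K X Y q) (t : ℝ) (h0 : be C X Y q (sg C X Y t) = 0) :
    al C X Y q t = 0 := by
  obtain ⟨t0, hd, hal, -⟩ := F.inv hB _ h0
  obtain ⟨r, hr, hav⟩ := F.sg_spec hB t
  have hpar : av C t0 + (Y t0 - X t0) = (2 * r) • (av C t + (Y t - X t)) := by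
    rw [hd, hav]; module
  have n1 : ¬ 0 < br (av C t) (av C t0) := by
    intro h
    have := mono hB (F.par t) (F.par t0) h
    rw [hpar, br_smul_right, br_self, mul_zero] at this
    exact lt_irrefl _ this
  have n2 : ¬ 0 < br (av C t0) (av C t) := by
    intro h
    have := mono hB (F.par t0) (F.par t) h
    rw [hpar, br_smul_left, br_self, mul_zero] at this
    exact lt_irrefl _ this
  have n3 : br (av C t0) (av C t) = 0 := by
    have := br_swap (av C t) (av C t0)
    push Not at n1 n2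
    linarith
  obtain ⟨s, hs⟩ := parallel_of_br (maxChord_ne_zero (maxChord_av hB t)) n3
  rcases lt_trichotomy s 0 with h | h | h
  · exfalso
    have e1 : av C (t + Real.pi) = (-1 : ℝ) • av C t := by rw [av_add_pi hB]; module
    have e2 : av C t0 = av C (t + Real.pi) := by
      have h1 : av C t0 = (-s) • av C (t + Real.pi) := by rw [hs, e1]; module
      have := av_eq_of_max hB (by linarith) one_pos h1
        (by rw [one_smul]; exact maxChord_av hB _)
      rwa [one_smul] at this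
    obtain ⟨e3, e4, -⟩ := F.congr hB e2
    have e5 : av C t0 + (Y t0 - X t0) = -(av C t + (Y t - X t)) := by
      rw [e2, e3, e4, F.b_shift hB, av_add_pi hB]; abel
    have e6 : (2 * r + 1) • (av C t + (Y t - X t)) = 0 := by
      rw [e5] at hpar
      have : (2 * r + 1) • (av C t + (Y t - X t)) = (2 * r) • (av C t + (Y t - X t)) +
        (av C t + (Y t - X t)) := by module
      rw [this, ← hpar]; abel
    rcases smul_eq_zero.1 e6 with h7 | h7
    · linarith
    · have := F.pos1 hB t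
      rw [h7, br_zero_right] at this
      exact lt_irrefl _ this
  · rw [h, zero_smul] at hs
    exact absurd hs (maxChord_ne_zero (maxChord_av hB t0))
  · have := av_eq_of_max hB h one_pos hs (by rw [one_smul]; exact maxChord_av hB _)
    rw [one_smul] at this
    rw [← (F.al_congr hB this).1]; exact hal

lemma Fns.be_key (hB : Body C K) (F : Fns C K X Y q)
    (hnd : ∀ t, ¬ (al C X Y q t = 0 ∧ be C X Y q t = 0)) (t : ℝ) (h0 : be C X Y q t = 0) :
    0 < be C X Y q (sg C X Y t) * al C X Y q t := by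
  obtain ⟨t0, hd, hal, hsg⟩ := F.inv hB _ h0
  have hbe : be C X Y q t0 ≠ 0 := fun h => hnd t0 ⟨hal, h⟩
  obtain ⟨k1, k2⟩ := F.key hB t0 hal hbe
  rw [(F.al_congr hB hsg).1] at k1
  have h2 := (F.uv_sg_congr hB hsg).1
  rw [(F.al_congr hB h2).2] at k2
  have h3 := mul_pos k1 k2
  have h4 : al C X Y q t * be C X Y q t0 * (be C X Y q (sg C X Y t) * be C X Y q t0) =
      (be C X Y q (sg C X Y t) * al C X Y q t) * (be C X Y q t0) ^ 2 := by ring
  rw [h4] at h3
  exact pos_of_mul_pos_left h3 (sq_nonneg _)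

lemma exists_Fns (hB : Body C K) : ∃ X Y q : ℝ → Plane, Fns C K X Y q := by
  obtain ⟨X, Y, hX, hY, hP⟩ := exists_xy hB
  obtain ⟨q, hq, hq'⟩ := exists_q hB
  exact ⟨X, Y, q, hX, hY, hq, hP, fun t => (hq' t).1, fun t => (hq' t).2⟩

/-- There is a critical parallelogram whose two diagonals are both longest chords. -/
theorem exists_degenerate (hB : Body C K) : ∃ a x y, Par C K a x y ∧
    MaxChord C ((1 / 2 : ℝ) • (a + (y - x))) ∧ MaxChord C ((1 / 2 : ℝ) • ((y - x) - a)) := by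
  obtain ⟨X, Y, q, F⟩ := exists_Fns hB
  by_contra hcon
  push Not at hcon
  have hnd : ∀ t, ¬ (al C X Y q t = 0 ∧ be C X Y q t = 0) := by
    rintro t ⟨h1, h2⟩
    exact hcon _ _ _ (F.par t) ((F.al_zero hB t).1 h1) ((F.be_zero hB t).1 h2)
  obtain ⟨z, hz⟩ : ∃ z : ℝ → ℂ, z = fun t => ⟨al C X Y q t, be C X Y q t⟩ := ⟨_, rfl⟩
  have hre : ∀ t, (z t).re = al C X Y q t := fun t => by rw [hz]
  have him : ∀ t, (z t).im = be C X Y q t := fun t => by rw [hz]
  have hzc : Continuous z := by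
    have : z = fun t => (al C X Y q t : ℂ) + (be C X Y q t : ℂ) * Complex.I := by
      funext t
      apply Complex.ext <;> simp [hre, him]
    rw [this]
    exact (Complex.continuous_ofReal.comp (F.cont_al hB)).add
      ((Complex.continuous_ofReal.comp (F.cont_be hB)).mul continuous_const)
  refine parity_contradiction (T := Real.pi) (σ := sg C X Y) hzc ?_ ?_ (F.cont_sg hB)
    (F.sg_shift hB) ?_ ?_ ?_
  · intro t h
    exact hnd t ⟨by rw [← hre, h]; rfl, by rw [← him, h]; rfl⟩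
  · intro t
    apply Complex.ext
    · rw [hre, Complex.neg_re, hre, F.al_shift hB]
    · rw [him, Complex.neg_im, him, F.be_shift hB]
  · intro t h
    rw [hre] at h
    rw [hre, him]
    exact (F.key hB t h (fun h' => hnd t ⟨h, h'⟩)).1
  · intro t h
    rw [him] at h
    rw [hre]
    exact F.be_sg hB t h
  · intro t h
    rw [him] at h
    rw [him, hre]
    exact F.be_key hB hnd t h

end FK
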