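import Pool.Agent.H78.ConstWidth2

/-!
# Basic facts on critical parallelograms (MP_42fa54_co)
-/

open Set Filter Metric
open scoped Topology Pointwise

namespace FK
open H78

/-- The standing assumptions. -/
structure Body (C : Set Plane) (K : ℝ) : Prop where
  comp : IsCompact C
  sc : StrictConvex ℝ C
  int : (interior C).Nonempty
  crit : Crit C K

/-- A critical parallelogram `x, x + a, y, y + a`, where `2a` is a longest chord. -/
structure Par (C : Set Plane) (K : ℝ) (a x y : Plane) : Prop where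
  max : MaxChord C a
  hx : x ∈ C
  hxa : x + a ∈ C
  hy : y ∈ C
  hya : y + a ∈ C
  hbr : br a (y - x) = K

variable {C : Set Plane} {K : ℝ} {a x y : Plane}

lemma Body.pos (hB : Body C K) : 0 < K := hB.crit.pos

lemma Body.convex (hB : Body C K) : Convex ℝ C := hB.sc.convex

lemma exists_br_pos {n : Plane} (hn : n ≠ 0) : ∃ d : Plane, 0 < br d n := by
  by_cases h0 : n 0 = 0
  · have h1 : n 1 ≠ 0 := fun h1 => hn (plane_ext (by simpa using h0) (by simpa using h1))
    refine ⟨WithLp.toLp 2 ![n 1, 0], ?_⟩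
    simp only [br, h0]; simp
    positivity
  · refine ⟨WithLp.toLp 2 ![0, -(n 0)], ?_⟩
    simp only [br]; simp
    positivity

/-- A linear functional is not maximal at an interior point. -/
lemma not_max_of_int {z n : Plane} (hz : z ∈ interior C) (hn : n ≠ 0) :
    ∃ w ∈ C, br z n < br w n := by
  obtain ⟨d, hd⟩ := exists_br_pos hn
  obtain ⟨ε, hε, -, h⟩ := exists_eps hz d
  refine ⟨z + ε • d, h ε hε.le le_rfl, ?_⟩
  rw [br_add_left, br_smul_left]
  have : 0 < ε * br d n := by positivity
  linarith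

lemma int_of_between (hsc : StrictConvex ℝ C) {u v : Plane} (hu : u ∈ C) (hv : v ∈ C) (huv : u ≠ v)
    {t : ℝ} (h0 : 0 < t) (h1 : t < 1) : (1 - t) • u + t • v ∈ interior C :=
  hsc hu hv huv (by linarith) h0 (by ring)

lemma strict_max (hsc : StrictConvex ℝ C) {z0 n z : Plane} (hz0 : z0 ∈ C) (hn : n ≠ 0)
    (h : ∀ w ∈ C, br w n ≤ br z0 n) (hz : z ∈ C) (hne : z ≠ z0) : br z n < br z0 n := by
  refine lt_of_le_of_ne (h z hz) ?_
  intro heq
  have hint := int_of_between hsc hz hz0 hne (t := 1 / 2) (by norm_num) (by norm_num)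
  obtain ⟨w, hw, hlt⟩ := not_max_of_int hint hn
  have h1 := h w hw
  rw [br_add_left, br_smul_left, br_smul_left, heq] at hlt
  linarith

lemma maxChord_ne_zero (h : MaxChord C a) : a ≠ 0 := by
  rintro rfl
  obtain ⟨⟨A, hA, B, hB, -⟩, hmax⟩ := h
  exact hmax 2 (by norm_num) A hA A hA (by simp)

lemma maxChord_neg (h : MaxChord C a) : MaxChord C (-a) := by
  obtain ⟨⟨A, hA, B, hB, hAB⟩, hmax⟩ := h
  refine ⟨⟨B, hB, A, hA, by rw [smul_neg, ← hAB]; abel⟩, ?_⟩
  intro t ht P hP Q hQ hPQ
  refine hmax t ht Q hQ P hP ?_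
  rw [← neg_sub, hPQ]; module

lemma Par.ne_b (hB : Body C K) (h : Par C K a x y) : y - x ≠ 0 := by
  intro h0
  have := h.hbr
  rw [h0, br_zero_right] at this
  exact hB.pos.ne this

lemma Body.exists_par (hB : Body C K) (ha : MaxChord C a) : ∃ x y, Par C K a x y := by
  obtain ⟨x, hx, hxa, y, hy, hya, hbr⟩ := hB.crit.hex a ha
  exact ⟨x, y, ha, hx, hxa, hy, hya, hbr⟩

lemma Par.neg (h : Par C K a x y) : Par C K (-a) (y + a) (x + a) where
  max := maxChord_neg h.max
  hx := h.hya
  hxa := by rw [add_neg_cancel_right]; exact h.hy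
  hy := h.hxa
  hya := by rw [add_neg_cancel_right]; exact h.hx
  hbr := by
    have e : x + a - (y + a) = -(y - x) := by abel
    rw [e, br_neg_left, br_neg_right, neg_neg, h.hbr]

lemma Par.width (hB : Body C K) (h : Par C K a x y) {A B : Plane} (hA : A ∈ C) (hB' : B ∈ C) :
    br (B - A) (y - x) ≤ 2 * K := by
  have := hB.crit.ub2 x h.hx y h.hy a h.hxa h.hya A hA B hB'
  rw [br_add_left, h.hbr] at this
  linarith

/-- uniqueness of the endpoints of a longest chord -/
lemma ends_unique (hB : Body C K) (ha : MaxChord C a) {q q' : Plane} (hq : q ∈ C)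
    (hqa : q + (2 : ℝ) • a ∈ C) (hq' : q' ∈ C) (hqa' : q' + (2 : ℝ) • a ∈ C) : q = q' := by
  by_contra hne
  have h1 := int_of_between hB.sc hq hq' hne (t := 1 / 2) (by norm_num) (by norm_num)
  have h2 := int_of_between hB.sc hqa hqa' (fun h => hne (add_right_cancel h)) (t := 1 / 2)
    (by norm_num) (by norm_num)
  obtain ⟨ε, hε, -, h3⟩ := exists_eps h2 a
  refine ha.2 (1 + ε / 2) (by linarith) _ (interior_subset h1) _ (h3 ε hε.le le_rfl) ?_
  module

/-- the corners of a critical parallelogram are boundary points -/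
lemma Par.not_int_x (hB : Body C K) (h : Par C K a x y) : x ∉ interior C := by
  intro hint
  obtain ⟨x', hx', hxa', ε, hε, he⟩ :=
    move_chord hB.convex h.hx h.hxa (m := 0) (by simpa using hint) (-(y - x))
  have := hB.crit.ub1 _ h.max x' hx' hxa' _ h.hy h.hya
  rw [br_sub_right, he, br_neg_right, h.hbr] at this
  have h2 := h.hbr
  rw [br_sub_right] at h2
  have := mul_pos hε hB.pos
  linarith

lemma Par.not_int_xa (hB : Body C K) (h : Par C K a x y) : x + a ∉ interior C := by
  intro hint
  obtain ⟨x', hx', hxa', ε, hε, he⟩ :=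
    move_chord hB.convex h.hx h.hxa (m := 1) (by simpa using hint) (-(y - x))
  have := hB.crit.ub1 _ h.max x' hx' hxa' _ h.hy h.hya
  rw [br_sub_right, he, br_neg_right, h.hbr] at this
  have h2 := h.hbr
  rw [br_sub_right] at h2
  have := mul_pos hε hB.pos
  linarith

lemma Par.not_int_y (hB : Body C K) (h : Par C K a x y) : y ∉ interior C := by
  have := h.neg.not_int_xa hB
  rwa [add_neg_cancel_right] at this

lemma Par.not_int_ya (hB : Body C K) (h : Par C K a x y) : y + a ∉ interior C :=
  h.neg.not_int_x hB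

lemma Par.unique (hB : Body C K) {x' y' : Plane} (h : Par C K a x y) (h' : Par C K a x' y') :
    x = x' ∧ y = y' := by
  have hm : Par C K a ((1 / 2 : ℝ) • x + (1 / 2 : ℝ) • x') ((1 / 2 : ℝ) • y + (1 / 2 : ℝ) • y') := by
    have cv := hB.convex
    refine ⟨h.max, cv h.hx h'.hx (by norm_num) (by norm_num) (by norm_num), ?_,
      cv h.hy h'.hy (by norm_num) (by norm_num) (by norm_num), ?_, ?_⟩
    · convert cv h.hxa h'.hxa (a := 1 / 2) (b := 1 / 2) (by norm_num) (by norm_num) (by norm_num)
        using 1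
      module
    · convert cv h.hya h'.hya (a := 1 / 2) (b := 1 / 2) (by norm_num) (by norm_num) (by norm_num)
        using 1
      module
    · have e : (1 / 2 : ℝ) • y + (1 / 2 : ℝ) • y' - ((1 / 2 : ℝ) • x + (1 / 2 : ℝ) • x') =
        (1 / 2 : ℝ) • (y - x) + (1 / 2 : ℝ) • (y' - x') := by module
      rw [e, br_add_right, br_smul_right, br_smul_right, h.hbr, h'.hbr]; ring
  constructor
  · by_contra hne
    have := int_of_between hB.sc h.hx h'.hx hne (t := 1 / 2) (by norm_num) (by norm_num)
    apply hm.not_int_x hB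
    convert this using 2
    norm_num
  · by_contra hne
    have := int_of_between hB.sc h.hy h'.hy hne (t := 1 / 2) (by norm_num) (by norm_num)
    apply hm.not_int_y hB
    convert this using 2
    norm_num

lemma scale_unique {d : Plane} {s t : ℝ} (hs : MaxChord C (s • d)) (ht : MaxChord C (t • d))
    (hs0 : 0 < s) (ht0 : 0 < t) : s = t := by
  have key : ∀ {s t : ℝ}, MaxChord C (s • d) → MaxChord C (t • d) → 0 < s → ¬ s < t := by
    intro s t hs ht hs0 hlt
    obtain ⟨⟨A, hA, B, hB, hAB⟩, -⟩ := ht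
    refine hs.2 (t / s) ((one_lt_div hs0).2 hlt) A hA B hB ?_
    rw [hAB, smul_smul, smul_smul]
    congr 1
    field_simp
  exact le_antisymm (not_lt.1 (key ht hs ht0)) (not_lt.1 (key hs ht hs0))

/-- vectors are determined by their brackets with a basis -/
lemma eq_of_br {u v : Plane} (h : br u v ≠ 0) {p q : Plane} (h1 : br u p = br u q)
    (h2 : br v p = br v q) : p = q := by
  have hp := coords h p
  have hq := coords h q
  have e1 : br p v = br q v := by rw [br_swap p v, br_swap q v, h2]
  rw [hp, hq, e1, h1]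

end FK
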