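import Mathlib

/-!
# A clique from Turan's theorem, inside a finite set of vertices

If a finite set S of vertices spans more than (1 - 1/r) |S|^2 ordered pairs of adjacent vertices, then it contains
a clique with `r + 1` vertices.
-/

set_option autoImplicit false

namespace Pool.Agent.FK

open SimpleGraph Finset

/-- Turan's bound, in a form without divisions -/
theorem turan_bound {W : Type*} [Fintype W] [DecidableEq W] (H : SimpleGraph W) [DecidableRel H.Adj]
    (r : ℕ) (cf : H.CliqueFree (r + 1)) :
    2 * r * H.edgeFinset.card ≤ (r - 1) * Fintype.card W ^ 2 := by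
  have h1 := CliqueFree.card_edgeFinset_le cf
  have h2 := @mul_card_edgeFinset_turanGraph_le (Fintype.card W) r
  rw [card_edgeFinset_turanGraph] at h2
  calc 2 * r * H.edgeFinset.card ≤ 2 * r * _ := Nat.mul_le_mul_left _ h1
    _ ≤ _ := h2

/-- Turan's theorem inside a finite set of vertices. -/
theorem turan_clique {V : Type*} [DecidableEq V] (G : SimpleGraph V) [DecidableRel G.Adj]
    (r : ℕ) (S : Finset V)
    (h : (r - 1) * S.card ^ 2 < r * ((S ×ˢ S).filter (fun p => G.Adj p.1 p.2)).card) :
    ∃ Q : Finset V, Q ⊆ S ∧ Q.card = r + 1 ∧ ∀ u ∈ Q, ∀ v ∈ Q, u ≠ v → G.Adj u v := by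
  classical
  by_contra hno
  let H : SimpleGraph S := G.comap (fun x : S => (x : V))
  have cf : H.CliqueFree (r + 1) := by
    intro t ht
    apply hno
    refine ⟨t.map (Function.Embedding.subtype _), ?_, ?_, ?_⟩
    · intro v hv
      rw [Finset.mem_map] at hv
      obtain ⟨w, _, rfl⟩ := hv
      exact w.2
    · rw [Finset.card_map]
      exact ht.card_eq
    · intro u hu v hv huv
      rw [Finset.mem_map] at hu hv
      obtain ⟨a, ha, rfl⟩ := hu
      obtain ⟨b, hb, rfl⟩ := hv
      have hab : a ≠ b := fun hh => huv (by rw [hh])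
      exact ht.isClique ha hb hab
  have h1 := turan_bound H r cf
  have h2 : 2 * H.edgeFinset.card = ((S ×ˢ S).filter (fun p => G.Adj p.1 p.2)).card := by
    rw [← H.sum_degrees_eq_twice_card_edges]
    rw [Finset.card_filter, Finset.sum_product]
    rw [← Finset.sum_coe_sort S (fun x => ∑ y ∈ S, if G.Adj x y then 1 else 0)]
    refine Finset.sum_congr rfl (fun x _ => ?_)
    rw [← H.card_neighborFinset_eq_degree, ← Finset.sum_coe_sort S (fun y => if G.Adj x y then 1 else 0)]
    rw [← Finset.card_filter]
    congr 1
    ext y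
    simp [H]
  have h3 : Fintype.card S = S.card := Fintype.card_coe S
  rw [h3] at h1
  have h4 : 2 * r * H.edgeFinset.card = r * (2 * H.edgeFinset.card) := by ring
  rw [h4, h2] at h1
  omega

end Pool.Agent.FK
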