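import Pool.Agent.FK.Var

/-!
# The geometry at a p-zero (MP_42fa54_co)
-/

open Set Filter Metric
open scoped Topology Pointwise

set_option linter.unusedSimpArgs false

namespace FK
open H78

variable {C : Set Plane} {K : ℝ} {a x y : Plane}

/-- point with coordinates `(s, h)` -/
def pt (m f e : Plane) (s h : ℝ) : Plane := m + s • f + h • e

lemma pt_conv (hC : Convex ℝ C) {m f e : Plane} {s1 h1 s2 h2 : ℝ} (p1 : pt m f e s1 h1 ∈ C)
    (p2 : pt m f e s2 h2 ∈ C) {α β : ℝ} (hα : 0 ≤ α) (hβ : 0 ≤ β) (hαβ : 0 < α + β) :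
    pt m f e ((α * s1 + β * s2) / (α + β)) ((α * h1 + β * h2) / (α + β)) ∈ C := by
  have := hC p1 p2 (a := α / (α + β)) (b := β / (α + β)) (by positivity) (by positivity)
    (by field_simp)
  convert this using 1
  have e1 : α / (α + β) + β / (α + β) = 1 := by field_simp
  have e2 : (α / (α + β)) • pt m f e s1 h1 + (β / (α + β)) • pt m f e s2 h2 =
      (α / (α + β) + β / (α + β)) • m + (α / (α + β) * s1 + β / (α + β) * s2) • f +
        (α / (α + β) * h1 + β / (α + β) * h2) • e := by
    simp only [pt]; module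
  rw [e2, e1, one_smul, pt]
  congr 3 <;> ring

/-- the data at a p-zero -/
structure PZ (C : Set Plane) (m f e : Plane) (sp w : ℝ) : Prop where
  T0 : pt m f e 0 1 ∈ C
  B1 : pt m f e 0 (-1) ∈ C
  T1 : pt m f e 1 0 ∈ C
  B0 : pt m f e (-1) 0 ∈ C
  P : pt m f e (1 + sp) (-1 - w) ∈ C
  Q : pt m f e (sp - 1) (1 - w) ∈ C
  S : pt m f e sp (1 - w) ∈ C
  S' : pt m f e sp (-1 - w) ∈ C
  up1 : ∀ s h, pt m f e s h ∈ C → 2 * s + h ≤ 2
  up2 : ∀ s h, pt m f e s h ∈ C → -2 ≤ 2 * s + h
  ob1 : ∀ s h, pt m f e s h ∈ C → s - h ≤ 2 + sp + w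
  ob2 : ∀ s h, pt m f e s h ∈ C → -2 + sp + w ≤ s - h
  l01 : ∀ h, pt m f e 0 h ∈ C → h ≤ 1
  l02 : ∀ h, pt m f e 0 h ∈ C → -1 ≤ h
  lp1 : ∀ h, pt m f e sp h ∈ C → h ≤ 1 - w
  lp2 : ∀ h, pt m f e sp h ∈ C → -1 - w ≤ h
  strict : 2 * sp < 1 + w

/-- if three collinear points of `C` are given, the middle one is interior -/
lemma int_of_mid (hsc : StrictConvex ℝ C) {u v z : Plane} (hu : u ∈ C) (hv : v ∈ C) {t : ℝ}
    (h0 : 0 < t) (h1 : t < 1) (huv : u ≠ v) (hz : z = (1 - t) • u + t • v) : z ∈ interior C := by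
  rw [hz]; exact int_of_between hsc hu hv huv h0 h1

lemma height_le (hsc : StrictConvex ℝ C) {m f e : Plane} (he : e ≠ 0) {s h0 h1 h : ℝ}
    (hlt : h0 < h1) (p0 : pt m f e s h0 ∈ C) (p1 : pt m f e s h1 ∉ interior C)
    (hp : pt m f e s h ∈ C) : h ≤ h1 := by
  by_contra hcon
  push Not at hcon
  apply p1
  have hne : pt m f e s h0 ≠ pt m f e s h := by
    intro h2
    have : (h - h0) • e = 0 := by
      have h3 : pt m f e s h - pt m f e s h0 = (h - h0) • e := by simp only [pt]; module
      rw [← h3, h2, sub_self]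
    rcases smul_eq_zero.1 this with h4 | h4
    · linarith
    · exact he h4
  have hpos : 0 < h - h0 := by linarith
  refine int_of_mid hsc p0 hp (t := (h1 - h0) / (h - h0)) (by apply div_pos <;> linarith)
    (by rw [div_lt_one hpos]; linarith) hne ?_
  have e1 : (h1 - h0) / (h - h0) * (h - h0) = h1 - h0 := by field_simp
  have e2 : (1 - (h1 - h0) / (h - h0)) • pt m f e s h0 + ((h1 - h0) / (h - h0)) • pt m f e s h =
      m + s • f + (h0 + (h1 - h0) / (h - h0) * (h - h0)) • e := by
    simp only [pt]; module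
  rw [e2, e1, pt]
  congr 2; ring

lemma height_ge (hsc : StrictConvex ℝ C) {m f e : Plane} (he : e ≠ 0) {s h0 h1 h : ℝ}
    (hlt : h1 < h0) (p0 : pt m f e s h0 ∈ C) (p1 : pt m f e s h1 ∉ interior C)
    (hp : pt m f e s h ∈ C) : h1 ≤ h := by
  have key : ∀ s h, pt m f e s h = pt m f (-e) s (-h) := by
    intro s h; simp only [pt]; module
  rw [key] at p0 p1 hp
  have := height_le hsc (neg_ne_zero.2 he) (by linarith) p0 p1 hp
  linarith

/-- construction of the data -/
lemma exists_PZ (hB : Body C K) (hP : Par C K a x y) {x1 y1 : Plane}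
    (hf : Par C K ((1 / 2 : ℝ) • (a + (y - x))) x1 y1) :
    ∃ sp w : ℝ, PZ C (x + (1 / 2 : ℝ) • (a + (y - x))) ((1 / 2 : ℝ) • (a + (y - x)))
      ((1 / 2 : ℝ) • ((y - x) - a)) sp w ∧
      y1 + a = pt (x + (1 / 2 : ℝ) • (a + (y - x))) ((1 / 2 : ℝ) • (a + (y - x)))
        ((1 / 2 : ℝ) • ((y - x) - a)) sp (-w) ∧ y1 + (2 : ℝ) • a ∈ C ∧
      x1 + (1 / 2 : ℝ) • ((1 / 2 : ℝ) • (a + (y - x)) + (y1 - x1)) = y1 + a := by
  have hK := hB.pos
  have hw := pzero_b hB hP hf
  obtain ⟨b, hb⟩ : ∃ b, b = y - x := ⟨_, rfl⟩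
  rw [← hb] at hw hf ⊢
  obtain ⟨f, hfd⟩ : ∃ f, f = (1 / 2 : ℝ) • (a + b) := ⟨_, rfl⟩
  obtain ⟨e, hed⟩ : ∃ e, e = (1 / 2 : ℝ) • (b - a) := ⟨_, rfl⟩
  rw [← hfd] at hf ⊢
  rw [← hed]
  obtain ⟨m, hm⟩ : ∃ m, m = x + f := ⟨_, rfl⟩
  rw [← hm]
  have ha : a = f - e := by rw [hfd, hed]; module
  have hb' : b = f + e := by rw [hfd, hed]; module
  have hab : br a b = K := by rw [hb]; exact hP.hbr
  have hfe : br f e = K / 2 := by
    rw [hfd, hed]
    simp only [br_add_left, br_add_right, br_smul_left, br_smul_right, br_sub_left, br_sub_right,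
      br_self]
    rw [br_swap b a, hab]; ring
  have he0 : e ≠ 0 := by
    rintro h0; rw [h0, br_zero_right] at hfe; linarith
  have hwfe : y1 - x1 = (2 : ℝ) • e - f := by rw [hw, hb', ha]; module
  have hx : x = m - f := by rw [hm]; abel
  have hy : y = m + e := by
    have : y = x + b := by rw [hb]; abel
    rw [this, hx, hb']; module
  -- coordinates of the centre
  set p := y1 + a with hp
  obtain ⟨sp, w, hpc⟩ : ∃ sp w : ℝ, p = pt m f e sp (-w) := by
    refine ⟨br (p - m) e / br f e, -(br f (p - m) / br f e), ?_⟩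
    have := coords (by rw [hfe]; positivity : br f e ≠ 0) (p - m)
    rw [pt, neg_neg, add_assoc, ← this]; abel
  have hy1 : y1 = p - a := by rw [hp]; abel
  have hx1 : x1 = p - e := by
    have : x1 = y1 - ((2 : ℝ) • e - f) := by rw [← hwfe]; abel
    rw [this, hy1, ha]; module
  -- memberships
  have mT0 : pt m f e 0 1 ∈ C := by
    have : pt m f e 0 1 = y := by rw [hy, pt]; module
    rw [this]; exact hP.hy
  have mB1 : pt m f e 0 (-1) ∈ C := by
    have : pt m f e 0 (-1) = x + a := by rw [hx, ha, pt]; module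
    rw [this]; exact hP.hxa
  have mT1 : pt m f e 1 0 ∈ C := by
    have : pt m f e 1 0 = y + a := by rw [hy, ha, pt]; module
    rw [this]; exact hP.hya
  have mB0 : pt m f e (-1) 0 ∈ C := by
    have : pt m f e (-1) 0 = x := by rw [hx, pt]; module
    rw [this]; exact hP.hx
  have eP : pt m f e (1 + sp) (-1 - w) = x1 + f := by
    rw [hx1, hpc, pt, pt]; module
  have mP : pt m f e (1 + sp) (-1 - w) ∈ C := by rw [eP]; exact hf.hxa
  have eQ : pt m f e (sp - 1) (1 - w) = y1 := by
    rw [hy1, hpc, ha, pt, pt]; module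
  have mQ : pt m f e (sp - 1) (1 - w) ∈ C := by rw [eQ]; exact hf.hy
  have eS : pt m f e sp (1 - w) = y1 + f := by
    rw [hy1, hpc, ha, pt, pt]; module
  have mS : pt m f e sp (1 - w) ∈ C := by rw [eS]; exact hf.hya
  have eS' : pt m f e sp (-1 - w) = x1 := by
    rw [hx1, hpc, pt, pt]; module
  have mS' : pt m f e sp (-1 - w) ∈ C := by rw [eS']; exact hf.hx
  -- functionals
  have brpt : ∀ (s h s' h' : ℝ) (α β : ℝ), br (pt m f e s h - pt m f e s' h') (α • f + β • e) =
      K / 2 * ((s - s') * β - (h - h') * α) := by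
    intro s h s' h' α β
    have e1 : pt m f e s h - pt m f e s' h' = (s - s') • f + (h - h') • e := by
      simp only [pt]; module
    rw [e1]
    simp only [br_add_left, br_add_right, br_smul_left, br_smul_right, br_self]
    rw [br_swap e f, hfe]; ring
  have wf : y1 - x1 = (-1 : ℝ) • f + (2 : ℝ) • e := by rw [hwfe]; module
  have wb : y - x = (1 : ℝ) • f + (1 : ℝ) • e := by rw [← hb, hb']; module
  have up1 : ∀ s h, pt m f e s h ∈ C → 2 * s + h ≤ 2 := by
    intro s h hz
    have := hf.width hB mB0 hz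
    rw [wf, brpt] at this
    nlinarith
  have up2 : ∀ s h, pt m f e s h ∈ C → -2 ≤ 2 * s + h := by
    intro s h hz
    have := hf.width hB hz mT1
    rw [wf, brpt] at this
    nlinarith
  have ob1 : ∀ s h, pt m f e s h ∈ C → s - h ≤ 2 + sp + w := by
    intro s h hz
    have := hP.width hB mQ hz
    rw [wb, brpt] at this
    nlinarith
  have ob2 : ∀ s h, pt m f e s h ∈ C → -2 + sp + w ≤ s - h := by
    intro s h hz
    have := hP.width hB hz mP
    rw [wb, brpt] at this
    nlinarith
  have nT0 : pt m f e 0 1 ∉ interior C := by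
    have : pt m f e 0 1 = y := by rw [hy, pt]; module
    rw [this]; exact hP.not_int_y hB
  have nB1 : pt m f e 0 (-1) ∉ interior C := by
    have : pt m f e 0 (-1) = x + a := by rw [hx, ha, pt]; module
    rw [this]; exact hP.not_int_xa hB
  have nS : pt m f e sp (1 - w) ∉ interior C := by rw [eS]; exact hf.not_int_ya hB
  have nS' : pt m f e sp (-1 - w) ∉ interior C := by rw [eS']; exact hf.not_int_x hB
  refine ⟨sp, w, ⟨mT0, mB1, mT1, mB0, mP, mQ, mS, mS', up1, up2, ob1, ob2,
    fun h hz => height_le hB.sc he0 (by norm_num) mB1 nT0 hz,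
    fun h hz => height_ge hB.sc he0 (by norm_num) mT0 nB1 hz,
    fun h hz => height_le hB.sc he0 (by linarith) mS' nS hz,
    fun h hz => height_ge hB.sc he0 (by linarith) mS nS' hz, ?_⟩, hpc, ?_, ?_⟩
  · -- strictness
    have hn0 : (y1 - x1) ≠ 0 := hf.ne_b hB
    have hmax : ∀ z ∈ C, br z (y1 - x1) ≤ br (pt m f e 1 0) (y1 - x1) := by
      intro z hz
      have h1 := hf.width hB mB0 hz
      have h2 : br (pt m f e 1 0 - pt m f e (-1) 0) (y1 - x1) = 2 * K := by
        rw [wf, brpt]; ring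
      rw [br_sub_left] at h1 h2
      linarith
    have h3 := ob2 0 1 mT0
    have hne : pt m f e sp (1 - w) ≠ pt m f e 1 0 := by
      intro h0
      have h4 := brpt sp (1 - w) 1 0 0 1
      have h5 := brpt sp (1 - w) 1 0 1 0
      rw [h0, sub_self, br_zero_left] at h4 h5
      have h6 : sp = 1 := by
        have : K / 2 * (sp - 1) = 0 := by linarith
        rcases mul_eq_zero.1 this with h | h <;> linarith
      have h7 : w = 1 := by
        have : K / 2 * (1 - w) = 0 := by linarith
        rcases mul_eq_zero.1 this with h | h <;> linarith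
      linarith
    have h4 := strict_max hB.sc mT1 hn0 hmax mS hne
    have h5 := brpt 1 0 sp (1 - w) (-1) 2
    rw [← wf, br_sub_left] at h5
    have h6 : 0 < K / 2 * ((1 - sp) * 2 - (0 - (1 - w)) * -1) := by rw [← h5]; linarith
    have h7 : 0 < (1 - sp) * 2 - (0 - (1 - w)) * -1 := by
      by_contra hcon
      push Not at hcon
      nlinarith
    linarith
  · have : y1 + (2 : ℝ) • a = x1 + f := by
      rw [hx1, hy1, ha]; module
    rw [this]; exact hf.hxa
  · rw [hx1, hy1, ha]; module

section pz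
variable {m f e : Plane} {sp w R ss hs : ℝ}

/-- (S): the longest chord parallel to `e` lies strictly between the two chords of vector `2e`. -/
lemma PZ.between (hC : Convex ℝ C) (Z : PZ C m f e sp w) (hsp : sp ≠ 0) (hR : 1 < R)
    (hs0 : 0 < ss) (hu : pt m f e ss (hs + R) ∈ C) (hl : pt m f e ss (hs - R) ∈ C) : ss < sp := by
  by_contra hcon
  push Not at hcon
  rcases lt_trichotomy sp 0 with h0 | h0 | h0
  · have hd : 0 < ss + -sp := by linarith
    have p1 := pt_conv hC Z.S hu (α := ss) (β := -sp) hs0.le (by linarith) hd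
    have p2 := pt_conv hC Z.S' hl (α := ss) (β := -sp) hs0.le (by linarith) hd
    have e0 : (ss * sp + -sp * ss) / (ss + -sp) = 0 := by
      rw [show ss * sp + -sp * ss = 0 by ring, zero_div]
    rw [e0] at p1 p2
    have q1 := Z.l01 _ p1
    have q2 := Z.l02 _ p2
    rw [div_le_one hd] at q1
    rw [le_div_iff₀ hd] at q2
    nlinarith
  · exact hsp h0
  · rcases hcon.eq_or_lt with h1 | h1
    · rw [← h1] at hu hl
      have q1 := Z.lp1 _ hu
      have q2 := Z.lp2 _ hl
      linarith
    · have hd : 0 < ss - sp + sp := by linarith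
      have p1 := pt_conv hC Z.T0 hu (α := ss - sp) (β := sp) (by linarith) h0.le hd
      have p2 := pt_conv hC Z.B1 hl (α := ss - sp) (β := sp) (by linarith) h0.le hd
      have e0 : ((ss - sp) * 0 + sp * ss) / (ss - sp + sp) = sp := by
        rw [div_eq_iff hd.ne']; ring
      rw [e0] at p1 p2
      have q1 := Z.lp1 _ p1
      have q2 := Z.lp2 _ p2
      rw [div_le_iff₀ hd] at q1
      rw [le_div_iff₀ hd] at q2
      nlinarith

lemma PZ.basic (hC : Convex ℝ C) (Z : PZ C m f e sp w) (h0 : 0 < sp) :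
    0 ≤ w ∧ sp + w ≤ 1 ∧ sp < 1 := by
  have h1 := Z.ob2 0 1 Z.T0
  have h2 := Z.strict
  refine ⟨?_, by linarith, by linarith⟩
  have hd : 0 < 1 + sp := by linarith
  have p := pt_conv hC Z.B1 Z.P (α := 1) (β := sp) (by norm_num) h0.le hd
  have e0 : (1 * 0 + sp * (1 + sp)) / (1 + sp) = sp := by
    rw [div_eq_iff hd.ne']; ring
  rw [e0] at p
  have q := Z.lp2 _ p
  rw [le_div_iff₀ hd] at q
  nlinarith

/-- (Zβ): the chord of direction `e` through `T1` is longer than half of the longest one. -/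
lemma PZ.long (hC : Convex ℝ C) (Z : PZ C m f e sp w) (h0 : 0 < ss) (h1 : ss < sp) (hR : 1 < R)
    (hu : pt m f e ss (hs + R) ∈ C) (hl : pt m f e ss (hs - R) ∈ C) : R < 1 + w := by
  by_contra hcon
  push Not at hcon
  have hsp : 0 < sp := h0.trans h1
  obtain ⟨hw, hsw, hsp1⟩ := Z.basic hC hsp
  -- (B1)
  have b1 : (1 - sp) * (hs + R) ≤ 1 - sp + ss * w := by
    have hd : 0 < ss + (1 - sp) := by linarith
    have p := pt_conv hC Z.Q hu (α := ss) (β := 1 - sp) h0.le (by linarith) hd
    have e0 : (ss * (sp - 1) + (1 - sp) * ss) / (ss + (1 - sp)) = 0 := by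
      rw [show ss * (sp - 1) + (1 - sp) * ss = 0 by ring, zero_div]
    rw [e0] at p
    have q := Z.l01 _ p
    rw [div_le_one hd] at q
    linarith
  -- (B2)
  have b2 : -1 - w ≤ hs - R := by
    have hd : 0 < 1 + (sp - ss) := by linarith
    have p := pt_conv hC hl Z.P (α := 1) (β := sp - ss) (by norm_num) (by linarith) hd
    have e0 : (1 * ss + (sp - ss) * (1 + sp)) / (1 + (sp - ss)) = sp := by
      rw [div_eq_iff hd.ne']; ring
    rw [e0] at p
    have q := Z.lp2 _ p
    rw [le_div_iff₀ hd] at q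
    linarith
  -- (B3)
  have b3 : (1 - sp) * (hs + R) ≤ (1 - w) * (1 - ss) := by
    have hd : 0 < (1 - sp) + (sp - ss) := by linarith
    have p := pt_conv hC hu Z.T1 (α := 1 - sp) (β := sp - ss) (by linarith) (by linarith) hd
    have e0 : ((1 - sp) * ss + (sp - ss) * 1) / ((1 - sp) + (sp - ss)) = sp := by
      rw [div_eq_iff hd.ne']; ring
    rw [e0] at p
    have q := Z.lp1 _ p
    rw [div_le_iff₀ hd] at q
    linarith
  have hst := Z.strict
  have hu2 : 2 * R - 1 - w ≤ hs + R := by linarith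
  have hu3 : 1 + w ≤ hs + R := by linarith
  rcases hw.eq_or_lt with h | h
  · rw [← h] at b1 hu2
    have : (1 - sp) * 1 < (1 - sp) * (hs + R) :=
      mul_lt_mul_of_pos_left (by linarith) (by linarith)
    linarith
  · have c1 : (1 - sp) * (1 + w) ≤ (1 - sp) * (hs + R) :=
      mul_le_mul_of_nonneg_left hu3 (by linarith)
    have c2 : (1 - sp) * w ≤ ss * w := by linarith
    have c3 : 1 - sp ≤ ss := le_of_mul_le_mul_right c2 h
    have c4 : (1 - w) * (1 - ss) ≤ (1 - w) * sp :=
      mul_le_mul_of_nonneg_left (by linarith) (by linarith)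
    linarith

end pz

/-- Two longest chords cross. -/
lemma crossing (hB : Body C K) {a' x' y' f x1 y1 q' B0 : Plane} (h' : Par C K a' x' y')
    (hf : Par C K f x1 y1) (hq : q' ∈ C) (hqa : q' + (2 : ℝ) • a' ∈ C) (hB0 : B0 ∈ C)
    (hT1 : B0 + (2 : ℝ) • f ∈ C) :
    ¬ (0 < br a' (B0 + (2 : ℝ) • f - q') ∧ 0 < br a' (B0 - q')) := by
  rintro ⟨hα1, hα0⟩
  have hK := hB.pos
  set T1 := B0 + (2 : ℝ) • f with hT1d
  set P := q' + (2 : ℝ) • a' with hPd
  set G := y' - x' with hG
  set w := y1 - x1 with hw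
  have hG0 : G ≠ 0 := h'.ne_b hB
  have hw0 : w ≠ 0 := hf.ne_b hB
  have hwf : br f w = K := hf.hbr
  have hGa : br a' G = K := h'.hbr
  -- support properties
  have g1 : ∀ z ∈ C, br z G ≤ br P G := by
    intro z hz
    have := h'.width hB hq hz
    rw [← hG, br_sub_left] at this
    rw [hPd, br_add_left, br_smul_left, hGa]; linarith
  have g2 : ∀ z ∈ C, br q' G ≤ br z G := by
    intro z hz
    have := h'.width hB hz hqa
    rw [← hG, br_sub_left, hPd, br_add_left, br_smul_left, hGa] at this; linarith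
  have w1 : ∀ z ∈ C, br z w ≤ br T1 w := by
    intro z hz
    have := hf.width hB hB0 hz
    rw [← hw, br_sub_left] at this
    rw [hT1d, br_add_left, br_smul_left, hwf]; linarith
  have w2 : ∀ z ∈ C, br B0 w ≤ br z w := by
    intro z hz
    have := hf.width hB hz hT1
    rw [← hw, br_sub_left, hT1d, br_add_left, br_smul_left, hwf] at this; linarith
  -- decomposition of `br v w`
  have dec : ∀ v, K * br v w = br v G * br a' w + br a' v * br G w := by
    intro v
    have := plucker v a' G w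
    have h2 := plucker a' v G w
    have h3 := br_swap v a'
    rw [hGa] at this
    have h4 := br_swap G w
    -- br v a' * br G w = br v G * br a' w - br v w * br a' G
    rw [h3] at this
    linarith
  have hne : ¬ (br a' w = 0 ∧ br G w = 0) := by
    rintro ⟨h1, h2⟩
    apply hw0
    apply eq_of_br (u := a') (v := G) (by rw [hGa]; exact hK.ne')
    · rw [h1, br_zero_right]
    · rw [h2, br_zero_right]
  have eP : ∀ z, br a' (z - P) = br a' (z - q') := by
    intro z
    rw [hPd, br_sub_right, br_add_right, br_smul_right, br_self, br_sub_right]; ring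
  rcases le_total 0 (br a' w) with hs | hs
  · have d1 := dec (T1 - P)
    have d0 := dec (B0 - q')
    have i1 : br (T1 - P) G ≤ 0 := by rw [br_sub_left]; linarith [g1 _ hT1]
    have i0 : 0 ≤ br (B0 - q') G := by rw [br_sub_left]; linarith [g2 _ hB0]
    have j1 : 0 ≤ br (T1 - P) w := by rw [br_sub_left]; linarith [w1 _ hqa]
    have j0 : br (B0 - q') w ≤ 0 := by rw [br_sub_left]; linarith [w2 _ hq]
    rw [eP] at d1
    have k1 : br (T1 - P) G * br a' w ≤ 0 := mul_nonpos_of_nonpos_of_nonneg i1 hs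
    have k0 : 0 ≤ br (B0 - q') G * br a' w := mul_nonneg i0 hs
    have l1 : 0 ≤ K * br (T1 - P) w := mul_nonneg hK.le j1
    have l0 : K * br (B0 - q') w ≤ 0 := mul_nonpos_of_nonneg_of_nonpos hK.le j0
    have n1 : 0 ≤ br G w := by
      by_contra hcon; push Not at hcon
      have := mul_neg_of_pos_of_neg hα1 hcon
      linarith
    have n2 : br G w ≤ 0 := by
      by_contra hcon; push Not at hcon
      have := mul_pos hα0 hcon
      linarith
    have n3 : br G w = 0 := le_antisymm n2 n1
    rw [n3, mul_zero, add_zero] at d1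
    have n4 : br (T1 - P) G * br a' w = 0 := le_antisymm k1 (by linarith)
    have n5 : br (T1 - P) G = 0 := by
      rcases mul_eq_zero.1 n4 with h | h
      · exact h
      · exact absurd ⟨h, n3⟩ hne
    have n6 : T1 = P := by
      by_contra hne'
      have := strict_max hB.sc hqa hG0 g1 hT1 hne'
      rw [br_sub_left] at n5; linarith
    rw [n6, hPd, add_sub_cancel_left, br_smul_right, br_self] at hα1
    simp at hα1
  · have d1 := dec (T1 - q')
    have d0 := dec (B0 - P)
    have i1 : 0 ≤ br (T1 - q') G := by rw [br_sub_left]; linarith [g2 _ hT1]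
    have i0 : br (B0 - P) G ≤ 0 := by rw [br_sub_left]; linarith [g1 _ hB0]
    have j1 : 0 ≤ br (T1 - q') w := by rw [br_sub_left]; linarith [w1 _ hq]
    have j0 : br (B0 - P) w ≤ 0 := by rw [br_sub_left]; linarith [w2 _ hqa]
    rw [eP] at d0
    have k1 : br (T1 - q') G * br a' w ≤ 0 := mul_nonpos_of_nonneg_of_nonpos i1 hs
    have k0 : 0 ≤ br (B0 - P) G * br a' w := mul_nonneg_of_nonpos_of_nonpos i0 hs
    have l1 : 0 ≤ K * br (T1 - q') w := mul_nonneg hK.le j1
    have l0 : K * br (B0 - P) w ≤ 0 := mul_nonpos_of_nonneg_of_nonpos hK.le j0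
    have n1 : 0 ≤ br G w := by
      by_contra hcon; push Not at hcon
      have := mul_neg_of_pos_of_neg hα1 hcon
      linarith
    have n2 : br G w ≤ 0 := by
      by_contra hcon; push Not at hcon
      have := mul_pos hα0 hcon
      linarith
    have n3 : br G w = 0 := le_antisymm n2 n1
    rw [n3, mul_zero, add_zero] at d1
    have n4 : br (T1 - q') G * br a' w = 0 := le_antisymm k1 (by linarith)
    have n5 : br (T1 - q') G = 0 := by
      rcases mul_eq_zero.1 n4 with h | h
      · exact h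
      · exact absurd ⟨h, n3⟩ hne
    have n6 : T1 = q' := by
      by_contra hne'
      have := strict_max hB.sc hq (neg_ne_zero.2 hG0) (fun z hz => by
        rw [br_neg_right, br_neg_right]; linarith [g2 z hz]) hT1 hne'
      rw [br_neg_right, br_neg_right] at this
      rw [br_sub_left] at n5; linarith
    rw [n6, sub_self, br_zero_right] at hα1
    exact lt_irrefl _ hα1

end FK
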