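import Pool.Agent.FK.Core

/-!
# The sign relations at a p-zero (MP_42fa54_co)
-/

open Set Filter Metric
open scoped Topology Pointwise

set_option linter.unusedSimpArgs false

namespace FK
open H78

variable {C : Set Plane} {K : ℝ} {a x y : Plane}

lemma br_pt (m f e : Plane) (s h s' h' α β : ℝ) :
    br (pt m f e s h - pt m f e s' h') (α • f + β • e) =
      br f e * ((s - s') * β - (h - h') * α) := by
  have e1 : pt m f e s h - pt m f e s' h' = (s - s') • f + (h - h') • e := by
    simp only [pt]; module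
  rw [e1]
  simp only [br_add_left, br_add_right, br_smul_left, br_smul_right, br_self]
  rw [br_swap e f]; ring

lemma exists_coords {m f e : Plane} (h : br f e ≠ 0) (z : Plane) : ∃ s h, z = pt m f e s h := by
  refine ⟨br (z - m) e / br f e, br f (z - m) / br f e, ?_⟩
  have := coords h (z - m)
  rw [pt, add_assoc, ← this]; abel

lemma int_vert (hsc : StrictConvex ℝ C) {m f e : Plane} (he : e ≠ 0) {s h0 h h1 : ℝ}
    (p0 : pt m f e s h0 ∈ C) (p1 : pt m f e s h1 ∈ C) (l0 : h0 < h) (l1 : h < h1) :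
    pt m f e s h ∈ interior C := by
  by_contra hcon
  have := height_le hsc he l0 p0 hcon p1
  linarith

theorem sign_relations (hB : Body C K) (hP : Par C K a x y) {x1 y1 : Plane}
    (hf : Par C K ((1 / 2 : ℝ) • (a + (y - x))) x1 y1)
    (hne : ¬ MaxChord C ((1 / 2 : ℝ) • ((y - x) - a)))
    {R : ℝ} (hR : 0 < R) {x2 y2 qe : Plane}
    (hRe : Par C K (R • ((1 / 2 : ℝ) • ((y - x) - a))) x2 y2)
    (hqe : qe ∈ C) (hqe' : qe + (2 : ℝ) • (R • ((1 / 2 : ℝ) • ((y - x) - a))) ∈ C)
    {μ : ℝ} (hμ : 0 < μ) {x3 y3 qd : Plane}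
    (hd : Par C K (μ • ((y2 - x2) - R • ((1 / 2 : ℝ) • ((y - x) - a)))) x3 y3)
    (hqd : qd ∈ C)
    (hqd' : qd + (2 : ℝ) • (μ • ((y2 - x2) - R • ((1 / 2 : ℝ) • ((y - x) - a)))) ∈ C)
    (hβ : 0 < br ((y - x) - a) (x + (1 / 2 : ℝ) • (a + (y - x)) -
      (qe + R • ((1 / 2 : ℝ) • ((y - x) - a))))) :
    0 < br (y1 + a - (qe + R • ((1 / 2 : ℝ) • ((y - x) - a)))) ((y - x) - a) ∧
    0 < br ((y2 - x2) - R • ((1 / 2 : ℝ) • ((y - x) - a)))
      (x2 + (1 / 2 : ℝ) • (R • ((1 / 2 : ℝ) • ((y - x) - a)) + (y2 - x2)) -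
        (qd + μ • ((y2 - x2) - R • ((1 / 2 : ℝ) • ((y - x) - a))))) := by
  have hK := hB.pos
  obtain ⟨sp, w, Z, hpc, -, -⟩ := exists_PZ hB hP hf
  have hb := hP.hbr
  have hxm : y = x + (y - x) := by abel
  obtain ⟨b, hbd⟩ : ∃ b, b = y - x := ⟨_, rfl⟩
  rw [← hbd] at hf hne hRe hqe' hd hqd' hβ Z hpc hb ⊢
  obtain ⟨f, hfd⟩ : ∃ f, f = (1 / 2 : ℝ) • (a + b) := ⟨_, rfl⟩
  obtain ⟨e, hed⟩ : ∃ e, e = (1 / 2 : ℝ) • (b - a) := ⟨_, rfl⟩
  rw [← hfd] at hf hβ Z hpc
  rw [← hed] at hne hRe hqe' hd hqd' hβ Z hpc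
  rw [← hed]
  obtain ⟨m, hm⟩ : ∃ m, m = x + f := ⟨_, rfl⟩
  rw [← hm] at Z hpc hβ
  have hba : b - a = (2 : ℝ) • e := by rw [hed]; module
  rw [hba] at hβ ⊢
  have hfe : br f e = K / 2 := by
    rw [hfd, hed]
    simp only [br_add_left, br_add_right, br_smul_left, br_smul_right, br_sub_left, br_sub_right,
      br_self]
    rw [br_swap b a, hb]; ring
  have hfe0 : br f e ≠ 0 := by rw [hfe]; positivity
  have he0 : e ≠ 0 := by
    rintro h0; rw [h0, br_zero_right] at hfe; linarith
  have hsc := hB.sc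
  have hcv := hB.convex
  -- R > 1
  have hR1 : 1 < R := by
    by_contra hcon
    push Not at hcon
    rcases hcon.eq_or_lt with h | h
    · apply hne
      have := hRe.max
      rwa [h, one_smul] at this
    · refine hRe.max.2 (1 / R) ((one_lt_div hR).2 h) _ Z.B1 _ Z.T0 ?_
      have : pt m f e 0 1 - pt m f e 0 (-1) = (2 : ℝ) • e := by simp only [pt]; module
      rw [this, smul_smul]
      congr 1
      field_simp
  -- coordinates of the centre of the longest chord
  obtain ⟨ss, hs, hpe⟩ := exists_coords (m := m) hfe0 (qe + R • e)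
  have hu : pt m f e ss (hs + R) ∈ C := by
    have : pt m f e ss (hs + R) = qe + (2 : ℝ) • (R • e) := by
      have h1 : pt m f e ss (hs + R) = pt m f e ss hs + R • e := by simp only [pt]; module
      rw [h1, ← hpe]; module
    rw [this]; exact hqe'
  have hl : pt m f e ss (hs - R) ∈ C := by
    have : pt m f e ss (hs - R) = qe := by
      have h1 : pt m f e ss (hs - R) = pt m f e ss hs - R • e := by simp only [pt]; module
      rw [h1, ← hpe]; abel
    rw [this]; exact hqe
  have hm0 : m = pt m f e 0 0 := by simp [pt]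
  have hs0 : 0 < ss := by
    rw [hpe, br_swap, br_smul_right] at hβ
    nth_rewrite 1 [hm0] at hβ
    have h1 := br_pt m f e 0 0 ss hs 0 1
    rw [zero_smul, zero_add, one_smul, hfe] at h1
    rw [h1] at hβ
    by_contra hcon
    push Not at hcon
    nlinarith
  -- sp ≠ 0
  have hsp0 : sp ≠ 0 := by
    rintro rfl
    have h1 := Z.l01 _ Z.S
    have h2 := Z.l02 _ Z.S'
    have hw : w = 0 := by linarith
    subst hw
    have m1 : pt m f e 1 (-1) ∈ C := by
      have := Z.P; norm_num at this; exact this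
    have m2 : pt m f e (-1) 1 ∈ C := by
      have := Z.Q; norm_num at this; exact this
    have m3 : pt m f e 1 (-1) + e ∈ C := by
      have : pt m f e 1 (-1) + e = pt m f e 1 0 := by simp only [pt]; module
      rw [this]; exact Z.T1
    have m4 : pt m f e (-1) 0 + e ∈ C := by
      have : pt m f e (-1) 0 + e = pt m f e (-1) 1 := by simp only [pt]; module
      rw [this]; exact m2
    have := hB.crit.ub2 _ m1 _ Z.B0 e m3 m4 _ hqe _ hqe'
    have e1 : pt m f e (-1) 0 - pt m f e 1 (-1) = (-2 : ℝ) • f + e := by simp only [pt]; module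
    rw [add_sub_cancel_left, e1, br_add_left, br_smul_left, br_smul_left, br_add_right,
      br_smul_right, br_self, br_swap e f, hfe] at this
    nlinarith
  have hss : ss < sp := Z.between hcv hsp0 hR1 hs0 hu hl
  have hsp : 0 < sp := hs0.trans hss
  have hlong := Z.long hcv hs0 hss hR1 hu hl
  obtain ⟨hw0, hsw, hsp1⟩ := Z.basic hcv hsp
  constructor
  · rw [hpc, hpe, br_smul_right]
    have h1 := br_pt m f e sp (-w) ss hs 0 1
    rw [zero_smul, zero_add, one_smul, hfe] at h1
    rw [h1]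
    have : 0 < sp - ss := by linarith
    nlinarith
  -- the second relation
  obtain ⟨s1, h1, hx2⟩ := exists_coords (m := m) hfe0 x2
  obtain ⟨s2, h2, hy2⟩ := exists_coords (m := m) hfe0 y2
  have hbr2 := hRe.hbr
  have hbrR : ∀ s h s' h', br (R • e) (pt m f e s h - pt m f e s' h') = R * (K / 2) * (s' - s) := by
    intro s h s' h'
    have h3 := br_pt m f e s h s' h' 0 1
    rw [zero_smul, zero_add, one_smul, hfe] at h3
    rw [br_smul_left, br_swap, h3]; ring
  rw [hx2, hy2, hbrR] at hbr2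
  have hs12 : R * (s1 - s2) = 2 := by
    have : K / 2 * (R * (s1 - s2)) = K / 2 * 2 := by linarith
    exact mul_left_cancel₀ (by positivity) this
  -- (C)
  have mC0 : pt m f e 1 (-1 - w) ∈ C := by
    have p := pt_conv hcv Z.S' Z.P (α := sp) (β := 1 - sp) hsp.le (by linarith) (by linarith)
    have e1 : (sp * sp + (1 - sp) * (1 + sp)) / (sp + (1 - sp)) = 1 := by
      rw [show sp + (1 - sp) = 1 by ring, div_one]; ring
    have e2 : (sp * (-1 - w) + (1 - sp) * (-1 - w)) / (sp + (1 - sp)) = -1 - w := by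
      rw [show sp + (1 - sp) = 1 by ring, div_one]; ring
    rwa [e1, e2] at p
  have hs1 : 1 < s1 := by
    set δ := (1 + w - R) / 2 with hδ
    have hδ0 : 0 < δ := by rw [hδ]; linarith
    have i1 : pt m f e 1 (-1 - w + δ) ∈ interior C :=
      int_vert hsc he0 mC0 Z.T1 (by linarith) (by rw [hδ]; linarith)
    have i2 : pt m f e 1 (-1 - w + δ + R) ∈ interior C :=
      int_vert hsc he0 mC0 Z.T1 (by linarith) (by rw [hδ]; linarith)
    obtain ⟨ε1, hε1, -, k1⟩ := exists_eps i1 f
    obtain ⟨ε2, hε2, -, k2⟩ := exists_eps i2 f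
    have hε : 0 < min ε1 ε2 := lt_min hε1 hε2
    have n1 := k1 (min ε1 ε2) hε.le (min_le_left _ _)
    have n2 := k2 (min ε1 ε2) hε.le (min_le_right _ _)
    have en1 : pt m f e 1 (-1 - w + δ) + (min ε1 ε2) • f =
        pt m f e (1 + min ε1 ε2) (-1 - w + δ) := by simp only [pt]; module
    have en2 : pt m f e 1 (-1 - w + δ + R) + (min ε1 ε2) • f =
        pt m f e (1 + min ε1 ε2) (-1 - w + δ) + R • e := by simp only [pt]; module
    rw [en1] at n1
    rw [en2] at n2
    have := hB.crit.ub1 _ hRe.max _ n1 n2 _ hRe.hy hRe.hya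
    rw [hy2, hbrR] at this
    have h5 : K / 2 * (R * (1 + min ε1 ε2 - s2)) ≤ K / 2 * (R * (s1 - s2)) := by
      rw [hs12]; linarith
    have h6 := le_of_mul_le_mul_left h5 (by positivity)
    have h7 := le_of_mul_le_mul_left h6 hR
    linarith
  -- (D)
  have mY2 : pt m f e s2 h2 ∈ C := by rw [← hy2]; exact hRe.hy
  have mY2' : pt m f e s2 (h2 + R) ∈ C := by
    have : pt m f e s2 (h2 + R) = y2 + R • e := by rw [hy2]; simp only [pt]; module
    rw [this]; exact hRe.hya
  have hs2 : -1 < s2 := by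
    by_contra hcon
    push Not at hcon
    have hα : 0 < ss + 1 := by linarith
    have hβ' : 0 ≤ -1 - s2 := by linarith
    have hd' : 0 < (ss + 1) + (-1 - s2) := by linarith
    have p1 := pt_conv hcv mY2' hu (α := ss + 1) (β := -1 - s2) hα.le hβ' hd'
    have p2 := pt_conv hcv mY2 hl (α := ss + 1) (β := -1 - s2) hα.le hβ' hd'
    have e0 : ((ss + 1) * s2 + (-1 - s2) * ss) / ((ss + 1) + (-1 - s2)) = -1 := by
      rw [div_eq_iff hd'.ne']; ring
    rw [e0] at p1 p2
    have q1 := Z.ob2 _ _ p1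
    have q2 := Z.up2 _ _ p2
    have q3 : ((ss + 1) * (h2 + R) + (-1 - s2) * (hs + R)) / ((ss + 1) + (-1 - s2)) -
        ((ss + 1) * h2 + (-1 - s2) * (hs - R)) / ((ss + 1) + (-1 - s2)) =
        ((ss + 1) * R + (-1 - s2) * (2 * R)) / ((ss + 1) + (-1 - s2)) := by
      rw [← sub_div]; congr 1; ring
    have q4 : R ≤ ((ss + 1) * R + (-1 - s2) * (2 * R)) / ((ss + 1) + (-1 - s2)) := by
      rw [le_div_iff₀ hd']
      nlinarith
    linarith
  -- the direction
  obtain ⟨d, hdd⟩ : ∃ d, d = (y2 - x2) - R • e := ⟨_, rfl⟩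
  rw [← hdd] at hd hqd' ⊢
  have hs21 : s2 < s1 := by
    by_contra hcon; push Not at hcon; nlinarith
  have hs2ss : s2 ≤ ss := by
    have m1 : pt m f e ss hs ∈ C := by
      rw [← hpe]
      have := hcv hqe hqe' (a := 1 / 2) (b := 1 / 2) (by norm_num) (by norm_num) (by norm_num)
      convert this using 1
      module
    have e1 : pt m f e ss (hs - R) + R • e = pt m f e ss hs := by simp only [pt]; module
    have := hB.crit.ub1 _ hRe.max _ hRe.hx hRe.hxa _ hl (by rw [e1]; exact m1)
    rw [hx2, hbrR] at this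
    have h5 : K / 2 * (R * (s1 - ss)) ≤ K / 2 * (R * (s1 - s2)) := by
      rw [hs12]; linarith
    have h6 := le_of_mul_le_mul_left h5 (by positivity)
    have h7 := le_of_mul_le_mul_left h6 hR
    linarith
  have hs21' : s2 < 1 := by linarith
  have mX1 : pt m f e s1 (h1 + R) ∈ C := by
    have : pt m f e s1 (h1 + R) = x2 + R • e := by rw [hx2]; simp only [pt]; module
    rw [this]; exact hRe.hxa
  have hdc : d = (s2 - s1) • f + (h2 - (h1 + R)) • e := by
    rw [hdd, hx2, hy2]; simp only [pt]; module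
  have brd : ∀ s h s' h', br d (pt m f e s h - pt m f e s' h') =
      K / 2 * ((h - h') * (s2 - s1) - (s - s') * (h2 - (h1 + R))) := by
    intro s h s' h'
    rw [br_swap, hdc, br_pt, hfe]; ring
  -- (E) `T1` is strictly on the side of the longest chord
  have hT1 : br d (pt m f e 1 0 - y2) < 0 := by
    set t := (1 - s2) / (s1 - s2) with ht
    have h12 : 0 < s1 - s2 := by linarith
    have ht0 : 0 < t := by apply div_pos <;> linarith
    have ht1 : t < 1 := by rw [ht, div_lt_one h12]; linarith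
    have hts : t * (s1 - s2) = 1 - s2 := by rw [ht]; field_simp
    have hzi : pt m f e 1 ((1 - t) * h2 + t * (h1 + R)) ∈ interior C := by
      refine int_of_mid hsc mY2 mX1 ht0 ht1 ?_ ?_
      · intro h0
        have h5 := br_pt m f e s1 (h1 + R) s2 h2 0 1
        rw [← h0, sub_self, br_zero_left, hfe] at h5
        nlinarith
      · have e1 : (1 - t) • pt m f e s2 h2 + t • pt m f e s1 (h1 + R) =
          m + (s2 + t * (s1 - s2)) • f + ((1 - t) * h2 + t * (h1 + R)) • e := by
          simp only [pt]; module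
        rw [e1, hts, pt]
        congr 3; ring
    obtain ⟨ε, hε, -, k⟩ := exists_eps hzi e
    have k1 := k ε hε.le le_rfl
    have e1 : pt m f e 1 ((1 - t) * h2 + t * (h1 + R)) + ε • e =
        pt m f e 1 ((1 - t) * h2 + t * (h1 + R) + ε) := by simp only [pt]; module
    rw [e1] at k1
    have k2 := Z.up1 _ _ k1
    rw [hy2, brd]
    have k3 : (1 - t) * h2 + t * (h1 + R) < 0 := by linarith
    -- multiply by (s1 - s2)
    have k4 : (s1 - s2) * ((1 - t) * h2 + t * (h1 + R)) < 0 := mul_neg_of_pos_of_neg h12 k3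
    have k5 : (s1 - s2) * ((1 - t) * h2 + t * (h1 + R)) =
        (s1 - s2) * h2 + (t * (s1 - s2)) * (h1 + R - h2) := by ring
    rw [k5, hts] at k4
    have k6 : (0 - h2) * (s2 - s1) - (1 - s2) * (h2 - (h1 + R)) =
      (s1 - s2) * h2 + (1 - s2) * (h1 + R - h2) := by ring
    rw [k6]
    nlinarith
  have hB0 : br d (pt m f e (-1) 0 - y2) < 0 := by
    by_contra hcon
    push Not at hcon
    set t := (s2 + 1) / (s1 + 1) with ht
    have h12 : 0 < s1 + 1 := by linarith
    have ht0 : 0 < t := by apply div_pos <;> linarith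
    have ht1 : t < 1 := by rw [ht, div_lt_one h12]; linarith
    have hts : t * (s1 + 1) = s2 + 1 := by rw [ht]; field_simp
    have hzi : pt m f e s2 (t * (h1 + R)) ∈ interior C := by
      refine int_of_mid hsc Z.B0 mX1 ht0 ht1 ?_ ?_
      · intro h0
        have h5 := br_pt m f e s1 (h1 + R) (-1) 0 0 1
        rw [← h0, sub_self, br_zero_left, hfe] at h5
        nlinarith
      · have e1 : (1 - t) • pt m f e (-1) 0 + t • pt m f e s1 (h1 + R) =
          m + (t * (s1 + 1) - 1) • f + (t * (h1 + R)) • e := by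
          simp only [pt]; module
        rw [e1, hts, pt]
        congr 3; ring
    rw [hy2, brd] at hcon
    have k1 : t * (h1 + R) ≤ h2 := by
      have k2 : 0 ≤ (0 - h2) * (s2 - s1) - (-1 - s2) * (h2 - (h1 + R)) := by
        by_contra hc; push Not at hc; nlinarith
      have k3 : (s1 + 1) * (t * (h1 + R)) ≤ (s1 + 1) * h2 := by
        have : (s1 + 1) * (t * (h1 + R)) = (t * (s1 + 1)) * (h1 + R) := by ring
        rw [this, hts]; linarith
      exact le_of_mul_le_mul_left k3 h12
    have hni : y2 ∉ interior C := hRe.not_int_y hB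
    apply hni
    rw [hy2]
    rcases k1.eq_or_lt with h | h
    · rw [← h]; exact hzi
    · exact int_vert hsc he0 (interior_subset hzi) mY2' h (by linarith)
  -- (F)
  by_contra hcon
  push Not at hcon
  have hmid : x2 + (1 / 2 : ℝ) • (R • e + (y2 - x2)) = y2 - (1 / 2 : ℝ) • d := by
    rw [hdd]; module
  rw [hmid] at hcon
  -- `br d (qd - y2) ≥ 0`
  have hq : 0 ≤ br d (qd - y2) := by
    have : y2 - (1 / 2 : ℝ) • d - (qd + μ • d) = -(qd - y2) - (1 / 2 + μ) • d := by module
    rw [this, br_sub_right, br_neg_right, br_smul_right, br_self] at hcon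
    linarith
  have hcr := crossing hB hd.neg hf (q' := qd + (2 : ℝ) • (μ • d)) (B0 := pt m f e (-1) 0) hqd'
    (by
      have : qd + (2 : ℝ) • (μ • d) + (2 : ℝ) • -(μ • d) = qd := by module
      rw [this]; exact hqd) Z.B0 (by
      have : pt m f e (-1) 0 + (2 : ℝ) • f = pt m f e 1 0 := by simp only [pt]; module
      rw [this]; exact Z.T1)
  apply hcr
  have eT1 : pt m f e (-1) 0 + (2 : ℝ) • f = pt m f e 1 0 := by simp only [pt]; module
  have key : ∀ z, br d (z - y2) < 0 → 0 < br (-(μ • d)) (z - (qd + (2 : ℝ) • (μ • d))) := by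
    intro z hz
    have : z - (qd + (2 : ℝ) • (μ • d)) = (z - y2) - (qd - y2) - (2 * μ) • d := by module
    rw [this, br_neg_left, br_smul_left, br_sub_right, br_sub_right, br_smul_right, br_self]
    have : 0 < μ * (br d (qd - y2) - br d (z - y2)) := mul_pos hμ (by linarith)
    linarith
  rw [eT1]
  exact ⟨key _ hT1, key _ hB0⟩

end FK
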