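import Pool.Agent.FK.Var

/-!
# The degenerate case (MP_42fa54_co)
-/

open Set Filter Metric
open scoped Topology Pointwise

set_option linter.unusedSimpArgs false

namespace FK
open H78

variable {C : Set Plane} {K : ℝ}

/-- `U t = cos t u + sin t v` -/
noncomputable def Uf (u v : Plane) (t : ℝ) : Plane := Real.cos t • u + Real.sin t • v

/-- `N t = -sin t u + cos t v` -/
noncomputable def Nf (u v : Plane) (t : ℝ) : Plane := -Real.sin t • u + Real.cos t • v

section
variable {u v : Plane} {κ : ℝ}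

lemma br_UN (h : br u v = κ) (s t : ℝ) : br (Uf u v s) (Nf u v t) = κ * Real.cos (t - s) := by
  rw [Uf, Nf, Real.cos_sub]
  simp only [br_add_left, br_add_right, br_smul_left, br_smul_right, br_self]
  rw [br_swap v u, h]; ring

lemma br_NN (h : br u v = κ) (s t : ℝ) : br (Nf u v s) (Nf u v t) = κ * Real.sin (t - s) := by
  rw [Nf, Nf, Real.sin_sub]
  simp only [br_add_left, br_add_right, br_smul_left, br_smul_right, br_self]
  rw [br_swap v u, h]; ring

lemma br_UU (h : br u v = κ) (s t : ℝ) : br (Uf u v s) (Uf u v t) = κ * Real.sin (t - s) := by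
  rw [Uf, Uf, Real.sin_sub]
  simp only [br_add_left, br_add_right, br_smul_left, br_smul_right, br_self]
  rw [br_swap v u, h]; ring

lemma Nf_add (s t : ℝ) : Nf u v (t + s) = Real.cos s • Nf u v t + (-Real.sin s) • Uf u v t := by
  rw [Nf, Nf, Uf, Real.cos_add, Real.sin_add]; module

lemma Nf_add_pi (t : ℝ) : Nf u v (t + Real.pi) = -Nf u v t := by
  rw [Nf_add, Real.cos_pi, Real.sin_pi]; module

lemma Nf_ne (hκ : 0 < κ) (h : br u v = κ) (t : ℝ) : Nf u v t ≠ 0 := by
  intro h0
  have := br_UN h t t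
  rw [h0, br_zero_right, sub_self, Real.cos_zero] at this
  linarith

lemma continuous_Nf : Continuous (Nf u v) := by
  unfold Nf
  exact (Real.continuous_sin.neg.smul continuous_const).add
    (Real.continuous_cos.smul continuous_const)

lemma hasDerivAt_Nf (t : ℝ) : HasDerivAt (Nf u v) (-Uf u v t) t := by
  have h1 : HasDerivAt (fun t : ℝ => (-Real.sin t) • u) ((-Real.cos t) • u) t :=
    ((Real.hasDerivAt_sin t).neg).smul_const u
  have h2 : HasDerivAt (fun t : ℝ => Real.cos t • v) ((-Real.sin t) • v) t :=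
    (Real.hasDerivAt_cos t).smul_const v
  have h3 := h1.add h2
  have e : (-Real.cos t) • u + (-Real.sin t) • v = -Uf u v t := by rw [Uf]; module
  rw [e] at h3
  exact h3

/-- support points of `C` in the normal directions `N t` -/
lemma exists_E (hB : Body C K) (hκ : 0 < κ) (h : br u v = κ) : ∃ E : ℝ → Plane, Continuous E ∧
    (∀ t, E t ∈ C) ∧ ∀ t, ∀ w ∈ C, br w (Nf u v t) ≤ br (E t) (Nf u v t) := by
  have hne : C.Nonempty := by obtain ⟨z, hz⟩ := hB.int; exact ⟨z, interior_subset hz⟩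
  have hex : ∀ t, ∃ z ∈ C, ∀ w ∈ C, br w (Nf u v t) ≤ br z (Nf u v t) := by
    intro t
    obtain ⟨z, hz, hmax⟩ := hB.comp.exists_isMaxOn hne (continuous_br_left (Nf u v t)).continuousOn
    exact ⟨z, hz, fun w hw => hmax hw⟩
  choose E hE hmax using hex
  refine ⟨E, ?_, hE, hmax⟩
  refine continuous_of_closed_unique hB.comp
    (R := {p : ℝ × Plane | ∀ w ∈ C, br w (Nf u v p.1) ≤ br p.2 (Nf u v p.1)}) ?_ hE
    (fun t w hw => hmax t w hw) ?_
  · have hN := continuous_Nf (u := u) (v := v)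
    have : {p : ℝ × Plane | ∀ w ∈ C, br w (Nf u v p.1) ≤ br p.2 (Nf u v p.1)} =
        ⋂ w ∈ C, {p | br w (Nf u v p.1) ≤ br p.2 (Nf u v p.1)} := by
      ext z; simp
    rw [this]
    exact isClosed_biInter fun w _ => isClosed_le
      (continuous_br continuous_const (hN.comp continuous_fst))
      (continuous_br continuous_snd (hN.comp continuous_fst))
  · intro t z hz hz'
    by_contra hne'
    have h1 := strict_max hB.sc (hE t) (Nf_ne hκ h t) (hmax t) hz hne'
    have h2 := hz' (E t) (hE t)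
    linarith

end

/-- The properties of the support function used in the degenerate case. -/
theorem width_one (hB : Body C K) {u v : Plane} {κ : ℝ} (hκ : 0 < κ) (huv : br u v = κ)
    (hKκ : K = √3 * κ) 
    (h0 : ∀ A ∈ C, ∀ B ∈ C, br (B - A) (Nf u v 0) ≤ 2 * κ)
    (h1 : ∀ A ∈ C, ∀ B ∈ C, br (B - A) (Nf u v (Real.pi / 3)) ≤ 2 * κ)
    (h2 : ∀ A ∈ C, ∀ B ∈ C, br (B - A) (Nf u v (2 * Real.pi / 3)) ≤ 2 * κ)
    (g0 : MaxChord C (Uf u v 0)) (g1 : MaxChord C (Uf u v (Real.pi / 3)))
    (g2 : MaxChord C (Uf u v (2 * Real.pi / 3))) :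
    ∀ t, (∀ A ∈ C, ∀ B ∈ C, br (B - A) (Nf u v t) ≤ 2 * κ) ∧
      ∃ A ∈ C, ∃ B ∈ C, B - A = (2 : ℝ) • Uf u v t := by
  have hK := hB.pos
  obtain ⟨E, hEc, hE, hmax⟩ := exists_E hB hκ huv
  obtain ⟨z, hz⟩ : ∃ z : ℝ → Plane, z = fun t => (1 / 2 : ℝ) • (E t - E (t + Real.pi)) := ⟨_, rfl⟩
  obtain ⟨H, hH⟩ : ∃ H : ℝ → ℝ, H = fun t => br (z t) (Nf u v t) / κ := ⟨_, rfl⟩
  obtain ⟨H', hH'⟩ : ∃ H' : ℝ → ℝ, H' = fun t => -br (z t) (Uf u v t) / κ := ⟨_, rfl⟩
  have hmin : ∀ t, ∀ w ∈ C, br (E (t + Real.pi)) (Nf u v t) ≤ br w (Nf u v t) := by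
    intro t w hw
    have := hmax (t + Real.pi) w hw
    rw [Nf_add_pi, br_neg_right, br_neg_right] at this
    linarith
  have hzE : ∀ t, (2 : ℝ) • z t = E t - E (t + Real.pi) := by intro t; rw [hz]; module
  have hκH : ∀ t, κ * H t = br (z t) (Nf u v t) := by intro t; rw [hH]; field_simp
  have hκH' : ∀ t, κ * H' t = -br (z t) (Uf u v t) := by intro t; rw [hH']; field_simp
  -- width
  have hwid : ∀ t, ∀ A ∈ C, ∀ B ∈ C, br (B - A) (Nf u v t) ≤ 2 * (κ * H t) := by
    intro t A hA B hB'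
    have e1 := hmax t B hB'
    have e2 := hmin t A hA
    have e3 : 2 * (κ * H t) = br (E t) (Nf u v t) - br (E (t + Real.pi)) (Nf u v t) := by
      rw [hκH, ← br_sub_left, ← hzE, br_smul_left]
    rw [e3, br_sub_left]; linarith
  have hHpos : ∀ t, 0 < H t := by
    intro t
    obtain ⟨z0, hz0⟩ := hB.int
    obtain ⟨w, hw, hlt⟩ := not_max_of_int hz0 (Nf_ne hκ huv t)
    have := hwid t z0 (interior_subset hz0) w hw
    rw [br_sub_left] at this
    by_contra hcon
    push Not at hcon
    nlinarith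
  have hzmax : ∀ t, MaxChord C (z t) := by
    intro t
    refine ⟨⟨_, hE (t + Real.pi), _, hE t, (hzE t).symm⟩, ?_⟩
    intro s hs P hP Q hQ hPQ
    have := hwid t P hP Q hQ
    rw [hPQ, br_smul_left, ← hκH] at this
    have h3 := mul_pos hκ (hHpos t)
    nlinarith
  -- the displacement
  have hb : ∀ t, ∃ x y, Par C K (z t) x y ∧ y - x = (√3 / H t) • Nf u v t := by
    intro t
    obtain ⟨x, y, hxy⟩ := hB.exists_par (hzmax t)
    refine ⟨x, y, hxy, ?_⟩
    symm
    have hHt := hHpos t
    apply smoothD hB hxy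
    · rw [br_smul_right, ← hκH, hKκ]; field_simp
    · intro A hA B hB'
      rw [br_smul_right]
      have h3 := hwid t A hA B hB'
      have h4 : √3 / H t * br (B - A) (Nf u v t) ≤ √3 / H t * (2 * (κ * H t)) :=
        mul_le_mul_of_nonneg_left h3 (by positivity)
      refine h4.trans (le_of_eq ?_)
      rw [hKκ]; field_simp
  have h33 : √3 * √3 = 3 := Real.mul_self_sqrt (by norm_num)
  have h3pos : 0 < √3 := by positivity
  have hcos2 : Real.cos (2 * Real.pi / 3) = -1 / 2 := by
    rw [show 2 * Real.pi / 3 = Real.pi - Real.pi / 3 by ring, Real.cos_pi_sub,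
      Real.cos_pi_div_three]; ring
  have hsin2 : Real.sin (2 * Real.pi / 3) = √3 / 2 := by
    rw [show 2 * Real.pi / 3 = Real.pi - Real.pi / 3 by ring, Real.sin_pi_sub,
      Real.sin_pi_div_three]
  -- the differential inequalities
  have hinv : ∀ t, 2 - H t ≤ 1 / H t := by
    intro t
    rw [le_div_iff₀ (hHpos t)]; nlinarith [sq_nonneg (H t - 1)]
  have hi1 : ∀ t, √3 / 2 * H' t ≤ 2 * (H (t + Real.pi / 3) - 1) + (H t - 1) := by
    intro t
    obtain ⟨x, y, hxy, hbt⟩ := hb t
    have h3 := hwid (t + Real.pi / 3) x hxy.hx (y + z t) hxy.hya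
    have e1 : y + z t - x = z t + (√3 / H t) • Nf u v t := by rw [← hbt]; abel
    rw [e1, br_add_left, br_smul_left, br_NN huv, Nf_add, br_add_right, br_smul_right,
      br_smul_right, add_sub_cancel_left, Real.cos_pi_div_three, Real.sin_pi_div_three,
      ← hκH] at h3
    have e2 : br (z t) (Uf u v t) = -(κ * H' t) := by rw [hκH']; ring
    rw [e2] at h3
    have e3 : √3 / H t * (κ * (√3 / 2)) = κ * (3 / 2 * (1 / H t)) := by
      rw [show √3 / H t * (κ * (√3 / 2)) = κ * ((√3 * √3) / 2 * (1 / H t)) by ring, h33]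
    rw [e3] at h3
    have h4 : κ * (H t / 2 + √3 / 2 * H' t + 3 / 2 * (1 / H t)) ≤ κ * (2 * H (t + Real.pi / 3)) := by
      linarith
    have h5 := le_of_mul_le_mul_left h4 hκ
    have h6 := hinv t
    linarith
  have hi2 : ∀ t, -(√3 / 2 * H' t) ≤ 2 * (H (t + 2 * Real.pi / 3) - 1) + (H t - 1) := by
    intro t
    obtain ⟨x, y, hxy, hbt⟩ := hb t
    have h3 := hwid (t + 2 * Real.pi / 3) (x + z t) hxy.hxa y hxy.hy
    have e1 : y - (x + z t) = (√3 / H t) • Nf u v t - z t := by rw [← hbt]; abel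
    rw [e1, br_sub_left, br_smul_left, br_NN huv, Nf_add, br_add_right, br_smul_right,
      br_smul_right, add_sub_cancel_left, hcos2, hsin2, ← hκH] at h3
    have e2 : br (z t) (Uf u v t) = -(κ * H' t) := by rw [hκH']; ring
    rw [e2] at h3
    have e3 : √3 / H t * (κ * (√3 / 2)) = κ * (3 / 2 * (1 / H t)) := by
      rw [show √3 / H t * (κ * (√3 / 2)) = κ * ((√3 * √3) / 2 * (1 / H t)) by ring, h33]
    rw [e3] at h3
    have h4 : κ * (3 / 2 * (1 / H t) + H t / 2 - √3 / 2 * H' t) ≤
        κ * (2 * H (t + 2 * Real.pi / 3)) := by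
      linarith
    have h5 := le_of_mul_le_mul_left h4 hκ
    have h6 := hinv t
    linarith
  -- periodicity
  have hEper : ∀ t, E (t + Real.pi + Real.pi) = E t := by
    intro t
    by_contra hne
    have hN : Nf u v (t + Real.pi + Real.pi) = Nf u v t := by rw [Nf_add_pi, Nf_add_pi, neg_neg]
    have h3 := strict_max hB.sc (hE t) (Nf_ne hκ huv t) (hmax t) (hE _) hne
    have h4 := hmax (t + Real.pi + Real.pi) (E t) (hE t)
    rw [hN] at h4
    linarith
  have hzper : ∀ t, z (t + Real.pi) = -z t := by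
    intro t
    rw [hz]; simp only
    rw [hEper]; module
  have hHper : ∀ t, H (t + Real.pi) = H t := by
    intro t
    rw [hH]; simp only
    rw [hzper, Nf_add_pi, br_neg_left, br_neg_right, neg_neg]
  -- derivative
  have hzc : Continuous z := by
    rw [hz]
    exact (hEc.sub (hEc.comp (continuous_id.add continuous_const))).const_smul (1 / 2 : ℝ)
  have hder : ∀ t, HasDerivAt H (H' t) t := by
    intro t
    have hg : HasDerivAt (fun s => br (z t) (Nf u v s)) (κ * H' t) t := by
      have hNi : ∀ i, HasDerivAt (fun s => (Nf u v s) i) ((-Uf u v t) i) t := by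
        intro i
        have e1 : (fun s => (Nf u v s) i) = fun s => -Real.sin s * u i + Real.cos s * v i := by
          funext s
          simp only [Nf, PiLp.add_apply, PiLp.smul_apply, smul_eq_mul]
        have e2 : (-Uf u v t) i = -Real.cos t * u i + -Real.sin t * v i := by
          simp only [Uf, PiLp.neg_apply, PiLp.add_apply, PiLp.smul_apply, smul_eq_mul]; ring
        rw [e1, e2]
        exact (((Real.hasDerivAt_sin t).neg).mul_const (u i)).add
          ((Real.hasDerivAt_cos t).mul_const (v i))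
      have hN0 := hNi 0
      have hN1 := hNi 1
      have h3 := (hN1.const_mul (z t 0)).sub (hN0.const_mul (z t 1))
      have e : z t 0 * (-Uf u v t) 1 - z t 1 * (-Uf u v t) 0 = κ * H' t := by
        rw [hκH']; simp only [br, PiLp.neg_apply]; ring
      rw [e] at h3
      exact h3
    have hrem : (fun s => κ * H s - br (z t) (Nf u v s)) =o[𝓝 t] fun s => s - t := by
      have hO : (fun s => Nf u v s - Nf u v t) =O[𝓝 t] fun s => s - t :=
        (hasDerivAt_Nf (u := u) (v := v) t).isBigO_sub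
      have ho : (fun s => z s - z t) =o[𝓝 t] fun _ => (1 : ℝ) := by
        rw [Asymptotics.isLittleO_one_iff]
        have := (hzc.tendsto t).sub_const (z t)
        simpa using this
      have hmul : (fun s => ‖z s - z t‖ * ‖Nf u v s - Nf u v t‖) =o[𝓝 t] fun s => (1 : ℝ) * (s - t) :=
        ho.norm_left.mul_isBigO hO.norm_left
      simp only [one_mul] at hmul
      refine Asymptotics.IsBigO.trans_isLittleO (Asymptotics.IsBigO.of_bound 1 ?_) hmul
      refine Eventually.of_forall fun s => ?_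
      rw [one_mul, Real.norm_eq_abs, Real.norm_eq_abs, abs_of_nonneg (a := ‖_‖ * ‖_‖) (by positivity)]
      have hmaxz : ∀ s t : ℝ, br (z s) (Nf u v t) ≤ br (z t) (Nf u v t) := by
        intro s t
        have := hwid t _ (hE (s + Real.pi)) _ (hE s)
        rw [← hzE, br_smul_left, hκH] at this
        linarith
      have l1 : 0 ≤ κ * H s - br (z t) (Nf u v s) := by
        rw [hκH]; linarith [hmaxz t s]
      have l2 : κ * H s - br (z t) (Nf u v s) ≤ br (z s - z t) (Nf u v s - Nf u v t) := by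
        rw [hκH, br_sub_left, br_sub_right, br_sub_right]
        linarith [hmaxz s t]
      rw [abs_of_nonneg l1]
      exact l2.trans ((le_abs_self _).trans (abs_br_le _ _))
    have h3 : HasDerivAt (fun s => κ * H s) (κ * H' t) t := by
      rw [hasDerivAt_iff_isLittleO] at hg ⊢
      have h4 := hg.add hrem
      refine h4.congr_left ?_
      intro s
      rw [hκH t]; ring
    have h4 := h3.const_mul (1 / κ)
    have e1 : (1 / κ) * (κ * H' t) = H' t := by field_simp
    have e2 : (fun s => (1 / κ) * (κ * H s)) = H := by funext s; field_simp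
    rw [e1, e2] at h4
    exact h4
  -- initial values
  have hinit : ∀ t, (∀ A ∈ C, ∀ B ∈ C, br (B - A) (Nf u v t) ≤ 2 * κ) → MaxChord C (Uf u v t) →
      H t = 1 := by
    intro t hw hm
    apply le_antisymm
    · have := hw _ (hE (t + Real.pi)) _ (hE t)
      rw [← hzE, br_smul_left, ← hκH] at this
      nlinarith
    · obtain ⟨⟨A, hA, B, hB', hAB⟩, -⟩ := hm
      have := hwid t A hA B hB'
      rw [hAB, br_smul_left, br_UN huv, sub_self, Real.cos_zero] at this
      nlinarith
  have i0 := hinit 0 h0 g0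
  have i1 := hinit _ h1 g1
  have i2 := hinit _ h2 g2
  -- Gronwall
  obtain ⟨F, hF⟩ : ∃ F : ℝ → ℝ × ℝ × ℝ,
      F = fun t => (H t - 1, H (t + Real.pi / 3) - 1, H (t + 2 * Real.pi / 3) - 1) := ⟨_, rfl⟩
  obtain ⟨F', hF'⟩ : ∃ F' : ℝ → ℝ × ℝ × ℝ,
      F' = fun t => (H' t, H' (t + Real.pi / 3), H' (t + 2 * Real.pi / 3)) := ⟨_, rfl⟩
  have hFd : ∀ t, HasDerivAt F (F' t) t := by
    intro t
    rw [hF, hF']
    have d0 := (hder t).sub_const 1
    have d1 := ((hder (t + Real.pi / 3)).comp_add_const t (Real.pi / 3)).sub_const 1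
    have d2 := ((hder (t + 2 * Real.pi / 3)).comp_add_const t (2 * Real.pi / 3)).sub_const 1
    exact d0.prodMk (d1.prodMk d2)
  have hbound : ∀ t, ‖F' t‖ ≤ 2 * √3 * ‖F t‖ + 0 := by
    intro t
    have n0 : |H t - 1| ≤ ‖F t‖ := by rw [hF]; exact norm_fst_le (H t - 1, _)
    have n12 : ‖(F t).2‖ ≤ ‖F t‖ := norm_snd_le _
    have n1 : |H (t + Real.pi / 3) - 1| ≤ ‖F t‖ := by
      refine le_trans ?_ n12
      rw [hF]; exact norm_fst_le (H (t + Real.pi / 3) - 1, H (t + 2 * Real.pi / 3) - 1)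
    have n2 : |H (t + 2 * Real.pi / 3) - 1| ≤ ‖F t‖ := by
      refine le_trans ?_ n12
      rw [hF]; exact norm_snd_le (H (t + Real.pi / 3) - 1, H (t + 2 * Real.pi / 3) - 1)
    have key : ∀ s α β γ : ℝ, √3 / 2 * H' s ≤ 2 * β + α → -(√3 / 2 * H' s) ≤ 2 * γ + α →
        |α| ≤ ‖F t‖ → |β| ≤ ‖F t‖ → |γ| ≤ ‖F t‖ → |H' s| ≤ 2 * √3 * ‖F t‖ := by
      intro s α β γ k1 k2 k3 k4 k5
      have m1 := (abs_le.1 k3).2
      have m2 := (abs_le.1 k4).2
      have m3 := (abs_le.1 k5).2
      rw [abs_le]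
      constructor
      · have : -(√3 / 2 * H' s) ≤ 3 * ‖F t‖ := by linarith
        have h4 : √3 * (-(√3 / 2 * H' s)) ≤ √3 * (3 * ‖F t‖) :=
          mul_le_mul_of_nonneg_left this h3pos.le
        have h5 : √3 * (-(√3 / 2 * H' s)) = -(3 / 2 * H' s) := by
          rw [show √3 * (-(√3 / 2 * H' s)) = -((√3 * √3) / 2 * H' s) by ring, h33]
        linarith
      · have : √3 / 2 * H' s ≤ 3 * ‖F t‖ := by linarith
        have h4 : √3 * (√3 / 2 * H' s) ≤ √3 * (3 * ‖F t‖) :=
          mul_le_mul_of_nonneg_left this h3pos.le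
        have h5 : √3 * (√3 / 2 * H' s) = 3 / 2 * H' s := by
          rw [show √3 * (√3 / 2 * H' s) = (√3 * √3) / 2 * H' s by ring, h33]
        linarith
    have q0 : |H' t| ≤ 2 * √3 * ‖F t‖ := key t _ _ _ (hi1 t) (hi2 t) n0 n1 n2
    have q1 : |H' (t + Real.pi / 3)| ≤ 2 * √3 * ‖F t‖ := by
      have a1 := hi1 (t + Real.pi / 3)
      have a2 := hi2 (t + Real.pi / 3)
      rw [show t + Real.pi / 3 + Real.pi / 3 = t + 2 * Real.pi / 3 by ring] at a1
      rw [show t + Real.pi / 3 + 2 * Real.pi / 3 = t + Real.pi by ring, hHper] at a2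
      exact key _ _ _ _ a1 a2 n1 n2 n0
    have q2 : |H' (t + 2 * Real.pi / 3)| ≤ 2 * √3 * ‖F t‖ := by
      have a1 := hi1 (t + 2 * Real.pi / 3)
      have a2 := hi2 (t + 2 * Real.pi / 3)
      rw [show t + 2 * Real.pi / 3 + Real.pi / 3 = t + Real.pi by ring, hHper] at a1
      rw [show t + 2 * Real.pi / 3 + 2 * Real.pi / 3 = (t + Real.pi / 3) + Real.pi by ring,
        hHper] at a2
      exact key _ _ _ _ a1 a2 n2 n0 n1
    rw [add_zero, hF']
    simp only [Prod.norm_def, Real.norm_eq_abs]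
    exact max_le q0 (max_le q1 q2)
  have hF0 : F 0 = 0 := by
    rw [hF]; simp only [zero_add]
    rw [i0, i1, i2]; simp
  have hH1 : ∀ t, 0 ≤ t → H t = 1 := by
    intro t ht
    have hcont : Continuous F := continuous_iff_continuousAt.2 fun s => (hFd s).continuousAt
    have := norm_le_gronwallBound_of_norm_deriv_right_le (f := F) (f' := F') (δ := 0)
      (K := 2 * √3) (ε := 0) (a := 0) (b := t) hcont.continuousOn
      (fun s _ => (hFd s).hasDerivWithinAt) (by rw [hF0, norm_zero]) (fun s _ => hbound s) t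
      ⟨ht, le_rfl⟩
    rw [gronwallBound_ε0_δ0] at this
    have h3 : F t = 0 := norm_le_zero_iff.1 this
    have h4 : (F t).1 = 0 := by rw [h3]; rfl
    rw [hF] at h4
    simp only at h4
    linarith
  have hHall : ∀ t, H t = 1 := by
    intro t
    have hn : ∀ (n : ℕ) (s : ℝ), H (s + n * Real.pi) = H s := by
      intro n
      induction n with
      | zero => intro s; simp
      | succ n ih =>
        intro s
        have : s + ((n + 1 : ℕ) : ℝ) * Real.pi = (s + n * Real.pi) + Real.pi := by push_cast; ring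
        rw [this, hHper, ih]
    obtain ⟨n, hn1⟩ := exists_nat_ge (-t / Real.pi)
    rw [← hn n t]
    apply hH1
    have hpi := Real.pi_pos
    rw [div_le_iff₀ hpi] at hn1
    linarith
  intro t
  constructor
  · intro A hA B hB'
    have := hwid t A hA B hB'
    rw [hHall, mul_one] at this
    exact this
  · refine ⟨_, hE (t + Real.pi), _, hE t, ?_⟩
    rw [← hzE]
    congr 1
    have hHeq : H = fun _ => 1 := funext hHall
    have hd0 : H' t = 0 := by
      have h3 := hder t
      rw [hHeq] at h3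
      exact h3.unique (hasDerivAt_const t 1)
    have hne : br (Uf u v t) (Nf u v t) ≠ 0 := by
      rw [br_UN huv, sub_self, Real.cos_zero, mul_one]; exact hκ.ne'
    apply eq_of_br hne
    · have h3 := hκH' t
      rw [hd0, mul_zero] at h3
      rw [br_self, br_swap]; linarith
    · rw [br_swap, ← hκH, hHall, br_swap (Nf u v t), br_UN huv, sub_self, Real.cos_zero]

end FK
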