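import Pool.Agent.FK.Assembly2
import Pool.Agent.FK.Degen

/-!
# Equality in `θ ≤ (4/3) δ` characterises ellipses (MP_42fa54_co)
-/

open Set Filter Metric MeasureTheory
open scoped Topology Pointwise ENNReal

set_option linter.unusedSimpArgs false

namespace FK
open H78

variable {C : Set Plane} {K : ℝ} {a x y : Plane}

lemma elliptic_of_width {u v : Plane} {κ : ℝ} (hB : Body C K) (hκ : 0 < κ) (huv : br u v = κ)
    (h : ∀ t, (∀ A ∈ C, ∀ B ∈ C, br (B - A) (Nf u v t) ≤ 2 * κ) ∧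
      ∃ A ∈ C, ∃ B ∈ C, B - A = (2 : ℝ) • Uf u v t) :
    ∃ L : Plane ≃ₗ[ℝ] Plane, C - C = L '' closedBall (0 : Plane) 1 := by
  have hdet : LinearMap.det (mat2 (2 * u 0) (2 * v 0) (2 * u 1) (2 * v 1)) ≠ 0 := by
    rw [det_mat2]
    have : 2 * u 0 * (2 * v 1) - 2 * v 0 * (2 * u 1) = 4 * br u v := by rw [br]; ring
    rw [this, huv]; positivity
  set L := (mat2 (2 * u 0) (2 * v 0) (2 * u 1) (2 * v 1)).equivOfDetNeZero hdet with hL
  have hLv : ∀ w, L w = mat2 (2 * u 0) (2 * v 0) (2 * u 1) (2 * v 1) w := fun w => rfl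
  have hLuv : ∀ t, L (uv t) = (2 : ℝ) • Uf u v t := by
    intro t
    rw [hLv]
    apply plane_ext
    · rw [mat2_apply0, uv0, uv1]
      simp only [Uf, PiLp.smul_apply, PiLp.add_apply, smul_eq_mul]; ring
    · rw [mat2_apply1, uv0, uv1]
      simp only [Uf, PiLp.smul_apply, PiLp.add_apply, smul_eq_mul]; ring
  have hpol : ∀ w : Plane, ∃ t, w = ‖w‖ • uv t ∧ L w = (2 * ‖w‖) • Uf u v t := by
    intro w
    obtain ⟨t, ht⟩ := exists_polar w
    refine ⟨t, ht, ?_⟩
    conv_lhs => rw [ht]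
    rw [map_smul, hLuv, smul_smul]; ring_nf
  refine ⟨L, ?_⟩
  ext z
  constructor
  · intro hz
    obtain ⟨B, hB', A, hA, hBA⟩ := Set.mem_sub.1 hz
    obtain ⟨t, ht, hLt⟩ := hpol (L.symm z)
    rw [L.apply_symm_apply] at hLt
    refine ⟨L.symm z, ?_, L.apply_symm_apply z⟩
    rw [mem_closedBall_zero_iff]
    have := (h t).1 A hA B hB'
    rw [hBA, hLt, br_smul_left, br_UN huv, sub_self, Real.cos_zero, mul_one] at this
    have h2 : κ * ‖L.symm z‖ ≤ κ * 1 := by linarith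
    exact le_of_mul_le_mul_left h2 hκ
  · rintro ⟨w, hw, rfl⟩
    rw [mem_closedBall_zero_iff] at hw
    obtain ⟨t, -, hLt⟩ := hpol w
    obtain ⟨A, hA, B, hB', hAB⟩ := (h t).2
    rw [hLt, Set.mem_sub]
    refine ⟨(1 - ‖w‖) • A + ‖w‖ • B, hB.convex hA hB' (by linarith) (norm_nonneg _) (by ring),
      A, hA, ?_⟩
    have e : (1 - ‖w‖) • A + ‖w‖ • B - A = ‖w‖ • (B - A) := by module
    rw [e, hAB, smul_smul]; ring_nf

/-- The difference body of a strictly convex body satisfying the critical conditions is an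
ellipse. -/
theorem elliptic_difference (hB : Body C K) :
    ∃ L : Plane ≃ₗ[ℝ] Plane, C - C = L '' closedBall (0 : Plane) 1 := by
  have hK := hB.pos
  obtain ⟨a, x, y, hP, hp, hq⟩ := exists_degenerate hB
  obtain ⟨x1, y1, hP1⟩ := hB.exists_par hp
  obtain ⟨x2, y2, hP2⟩ := hB.exists_par hq
  have w1 := pzero_b hB hP hP1
  have w2 := qzero_b hB hP hP2
  have h33 : √3 * √3 = 3 := Real.mul_self_sqrt (by norm_num)
  have h3pos : 0 < √3 := by positivity
  have hcos2 : Real.cos (2 * Real.pi / 3) = -1 / 2 := by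
    rw [show 2 * Real.pi / 3 = Real.pi - Real.pi / 3 by ring, Real.cos_pi_sub,
      Real.cos_pi_div_three]; ring
  have hsin2 : Real.sin (2 * Real.pi / 3) = √3 / 2 := by
    rw [show 2 * Real.pi / 3 = Real.pi - Real.pi / 3 by ring, Real.sin_pi_sub,
      Real.sin_pi_div_three]
  obtain ⟨b, hb⟩ : ∃ b, b = y - x := ⟨_, rfl⟩
  have hab : br a b = K := by rw [hb]; exact hP.hbr
  obtain ⟨v, hv⟩ : ∃ v, v = (1 / √3) • b := ⟨_, rfl⟩
  obtain ⟨κ, hκd⟩ : ∃ κ, κ = K / √3 := ⟨_, rfl⟩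
  have hκ : 0 < κ := by rw [hκd]; positivity
  have huv : br a v = κ := by rw [hv, br_smul_right, hab, hκd]; ring
  have hbv : b = √3 • v := by rw [hv, smul_smul]; field_simp; simp
  have hKκ : K = √3 * κ := by rw [hκd]; field_simp
  have wid : ∀ (n : Plane) {a' x' y' : Plane}, Par C K a' x' y' → y' - x' = √3 • n →
      ∀ A ∈ C, ∀ B ∈ C, br (B - A) n ≤ 2 * κ := by
    intro n a' x' y' h' hn A hA B hB'
    have := h'.width hB hA hB'
    rw [hn, br_smul_right, hKκ] at this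
    have h2 : √3 * br (B - A) n ≤ √3 * (2 * κ) := by linarith
    exact le_of_mul_le_mul_left h2 h3pos
  have e3 : (3 : ℝ) • a = (√3 * √3) • a := by rw [h33]
  refine elliptic_of_width hB hκ huv (width_one hB hκ huv hKκ ?_ ?_ ?_ ?_ ?_ ?_)
  · refine wid _ hP ?_
    rw [← hb, hbv, Nf, Real.sin_zero, Real.cos_zero]; module
  · refine wid _ hP1 ?_
    rw [w1, ← hb, hbv, Nf, Real.sin_pi_div_three, Real.cos_pi_div_three, e3]
    module
  · refine wid _ hP2 ?_
    rw [w2, ← hb, hbv, Nf, hsin2, hcos2, e3]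
    module
  · have : Uf a v 0 = a := by rw [Uf, Real.sin_zero, Real.cos_zero]; module
    rw [this]; exact hP.max
  · have : Uf a v (Real.pi / 3) = (1 / 2 : ℝ) • (a + (y - x)) := by
      rw [← hb, hbv, Uf, Real.sin_pi_div_three, Real.cos_pi_div_three]
      module
    rw [this]; exact hp
  · have : Uf a v (2 * Real.pi / 3) = (1 / 2 : ℝ) • ((y - x) - a) := by
      rw [← hb, hbv, Uf, hsin2, hcos2]
      module
    rw [this]; exact hq

/-- **Equality case of the planar bound `θ ≤ (4/3) δ`.** -/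
theorem equality_case (hC : IsConvexBody C)
    (heq : coveringDensity C = 4 / 3 * packingDensity C) :
    IsEllipse C ∧ packingDensity C = ENNReal.ofReal (Real.pi / (2 * √3)) ∧
      coveringDensity C = ENNReal.ofReal (2 * Real.pi / (3 * √3)) := by
  obtain ⟨K, hK, -, -, hex, hub1, hub2⟩ := equality_structure hC heq
  have hB : Body C K := ⟨hC.1, strictConvex_of_eq hC heq, hC.2.2, ⟨hK, hex, hub1, hub2⟩⟩
  obtain ⟨L, hL⟩ := elliptic_difference hB
  exact elliptic_difference_case hC L hL heq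

end FK
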