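import Mathlib

/-!
# Dense critical graphs: the linear algebra lemma

Let `G` be a graph which is not `q`-colourable but becomes `q`-colourable when any edge is deleted. Let `Q0` be a
clique with `q - 4` vertices and `X`, `Y` disjoint sets of vertices, complete to `Q0`, such that every vertex of `X`
has at most `|Y| / 5` non-neighbours in `Y` and conversely. Then the number of edges between `X` and `Y` is at most
`|X| |Z_Y| + |Z_X| |Y|`, where `Z_X` contains every vertex with a neighbour in `X` and at least `|X| / 4`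
non-neighbours in `X`.
-/

set_option autoImplicit false

namespace Pool.Agent.FK

open SimpleGraph Finset

section Lemmas

variable {V : Type*}

/-- colourings of `G - xy` as functions -/
theorem exists_fun {G : SimpleGraph V} {q : ℕ} {x y : V}
    (h : (G.deleteEdges {s(x, y)}).Colorable q) :
    ∃ φ : V → Fin q, ∀ u v, G.Adj u v → φ u = φ v → (u = x ∧ v = y) ∨ (u = y ∧ v = x) := by
  obtain ⟨c⟩ := h
  refine ⟨c, fun u v huv he => ?_⟩
  by_contra hne
  refine c.valid (v := u) (w := v) ?_ he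
  rw [deleteEdges_adj]
  refine ⟨huv, ?_⟩
  simp only [Set.mem_singleton_iff, Sym2.eq_iff]
  tauto

/-- the two ends of the deleted edge have the same colour -/
theorem same_col {G : SimpleGraph V} {q : ℕ} {x y : V} (hG : ¬ G.Colorable q)
    (φ : V → Fin q)
    (hφ : ∀ u v, G.Adj u v → φ u = φ v → (u = x ∧ v = y) ∨ (u = y ∧ v = x)) :
    φ x = φ y := by
  by_contra hne
  apply hG
  refine ⟨Coloring.mk φ ?_⟩
  intro u v huv he
  rcases hφ u v huv he with ⟨rfl, rfl⟩ | ⟨rfl, rfl⟩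
  · exact hne he
  · exact hne he.symm

/-- every colour different from `φ x` occurs at a neighbour of `x` -/
theorem exists_nbr [DecidableEq V] {G : SimpleGraph V} {q : ℕ} {x y : V} (hG : ¬ G.Colorable q)
    (φ : V → Fin q)
    (hφ : ∀ u v, G.Adj u v → φ u = φ v → (u = x ∧ v = y) ∨ (u = y ∧ v = x))
    (a : Fin q) (ha : a ≠ φ x) : ∃ z, G.Adj x z ∧ z ≠ y ∧ φ z = a := by
  by_contra hno
  push Not at hno
  have hxy := same_col hG φ hφ
  apply hG
  refine ⟨Coloring.mk (fun v => if v = x then a else φ v) ?_⟩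
  intro u v huv he
  by_cases hu : u = x
  · subst hu
    have hv : v ≠ u := huv.ne'
    simp only [if_true, if_neg hv] at he
    by_cases hvy : v = y
    · subst hvy
      exact ha (he.trans hxy.symm)
    · exact hno v huv hvy he.symm
  · by_cases hv : v = x
    · subst hv
      simp only [if_true, if_neg hu] at he
      by_cases huy : u = y
      · subst huy
        exact ha (he.symm.trans hxy.symm)
      · exact hno u huv.symm huy he
    · simp only [if_neg hu, if_neg hv] at he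
      rcases hφ u v huv he with ⟨h1, -⟩ | ⟨-, h1⟩
      · exact hu h1
      · exact hv h1

/-- the colours not used on the clique -/
theorem free_card [DecidableEq V] {G : SimpleGraph V} {q : ℕ} {x y : V} (φ : V → Fin q)
    (hφ : ∀ u v, G.Adj u v → φ u = φ v → (u = x ∧ v = y) ∨ (u = y ∧ v = x))
    (Q0 : Finset V) (hQ : ∀ u ∈ Q0, ∀ v ∈ Q0, u ≠ v → G.Adj u v) (hQc : Q0.card + 4 = q)
    (hxQ : ∀ v ∈ Q0, G.Adj x v) :
    (univ \ Q0.image φ).card = 4 := by
  have hx : x ∉ Q0 := fun h => (hxQ x h).ne rfl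
  have hinj : Set.InjOn φ (Q0 : Set V) := by
    intro u hu v hv huv
    by_contra hne
    rcases hφ u v (hQ u hu v hv hne) huv with ⟨rfl, -⟩ | ⟨-, rfl⟩
    · exact hx hu
    · exact hx hv
  have h1 : (Q0.image φ).card = Q0.card := card_image_of_injOn hinj
  rw [card_sdiff_of_subset (subset_univ _), h1, card_univ, Fintype.card_fin]
  omega

/-- a vertex complete to the clique gets a free colour -/
theorem free_of_complete [DecidableEq V] {G : SimpleGraph V} {q : ℕ} {x y : V} (φ : V → Fin q)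
    (hφ : ∀ u v, G.Adj u v → φ u = φ v → (u = x ∧ v = y) ∨ (u = y ∧ v = x))
    (Q0 : Finset V) (hxQ : ∀ v ∈ Q0, G.Adj x v) (hyQ : ∀ v ∈ Q0, G.Adj y v)
    (v : V) (hv : ∀ t ∈ Q0, G.Adj v t) : φ v ∈ univ \ Q0.image φ := by
  rw [mem_sdiff]
  refine ⟨mem_univ _, fun h => ?_⟩
  obtain ⟨t, ht, he⟩ := mem_image.1 h
  rcases hφ v t (hv t ht) he.symm with ⟨-, rfl⟩ | ⟨-, rfl⟩
  · exact (hyQ _ ht).ne rfl
  · exact (hxQ _ ht).ne rfl

/-- the most popular colour on the neighbours of `y` in `X` -/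
theorem popular [DecidableEq V] {G : SimpleGraph V} [DecidableRel G.Adj] {q : ℕ} {x y : V}
    (hG : ¬ G.Colorable q) (φ : V → Fin q)
    (hφ : ∀ u v, G.Adj u v → φ u = φ v → (u = x ∧ v = y) ∨ (u = y ∧ v = x))
    (Q0 X : Finset V) (hQ : ∀ u ∈ Q0, ∀ v ∈ Q0, u ≠ v → G.Adj u v) (hQc : Q0.card + 4 = q)
    (hxQ : ∀ v ∈ Q0, G.Adj x v) (hyQ : ∀ v ∈ Q0, G.Adj y v)
    (hX : ∀ v ∈ X, ∀ t ∈ Q0, G.Adj v t) (hX20 : 20 ≤ X.card)
    (hy : 5 * (X.filter (fun v => ¬ G.Adj y v)).card ≤ X.card) :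
    ∃ a : Fin q, a ∈ univ \ Q0.image φ ∧ a ≠ φ x ∧
      X.card ≤ 4 * (X.filter (fun v => (G.Adj y v ∧ v ≠ x) ∧ φ v = a)).card := by
  have hxy := same_col hG φ hφ
  have h4 := free_card φ hφ Q0 hQ hQc hxQ
  set R0 := univ \ Q0.image φ with hR0
  have hcR : φ x ∈ R0 := free_of_complete φ hφ Q0 hxQ hyQ x hxQ
  have hR : (R0.erase (φ x)).card = 3 := by rw [card_erase_of_mem hcR, h4]
  set S := X.filter (fun v => G.Adj y v ∧ v ≠ x) with hS
  have hSX : X.card ≤ S.card + (X.filter (fun v => ¬ G.Adj y v)).card + 1 := by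
    have h1 : X ⊆ (S ∪ X.filter (fun v => ¬ G.Adj y v)) ∪ {x} := by
      intro v hv
      rw [mem_union, mem_union, mem_singleton, hS, mem_filter, mem_filter]
      tauto
    refine (card_le_card h1).trans ((card_union_le _ _).trans ?_)
    rw [card_singleton]
    exact Nat.add_le_add_right (card_union_le _ _) 1
  have hmaps : ∀ v ∈ S, φ v ∈ R0.erase (φ x) := by
    intro v hv
    rw [hS, mem_filter] at hv
    obtain ⟨hvX, hyv, hvx⟩ := hv
    refine mem_erase.2 ⟨fun he => ?_, free_of_complete φ hφ Q0 hxQ hyQ v (hX v hvX)⟩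
    rcases hφ y v hyv (hxy.symm.trans he.symm) with ⟨-, h1⟩ | ⟨-, h1⟩
    · exact hyv.ne h1.symm
    · exact hvx h1
  have hfib : ∃ a ∈ R0.erase (φ x), S.card ≤ 3 * (S.filter (fun v => φ v = a)).card := by
    by_contra hno
    push Not at hno
    have h1 := card_eq_sum_card_fiberwise (f := φ) (s := S) (t := R0.erase (φ x)) hmaps
    have hne : (R0.erase (φ x)).Nonempty := by
      rw [← card_pos, hR]
      norm_num
    have h2 : ∑ a ∈ R0.erase (φ x), 3 * (S.filter (fun v => φ v = a)).card <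
        ∑ a ∈ R0.erase (φ x), S.card := sum_lt_sum_of_nonempty hne hno
    rw [← mul_sum, ← h1, sum_const, hR, smul_eq_mul] at h2
    exact lt_irrefl _ h2
  obtain ⟨a, haR, ha⟩ := hfib
  refine ⟨a, (mem_erase.1 haR).2, (mem_erase.1 haR).1, ?_⟩
  have h3 : S.filter (fun v => φ v = a) = X.filter (fun v => (G.Adj y v ∧ v ≠ x) ∧ φ v = a) := by
    rw [hS, filter_filter]
  rw [← h3]
  omega

end Lemmas

section Main

variable {V : Type*} [DecidableEq V]

/-- The combinatorial part: the colouring of `G - xy` gives vertices `z`, `w` and sets `A ⊆ X`, `A' ⊆ Y`. -/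
theorem local_structure {G : SimpleGraph V} [DecidableRel G.Adj] {q : ℕ} {x y : V}
    (hG : ¬ G.Colorable q) (φ : V → Fin q)
    (hφ : ∀ u v, G.Adj u v → φ u = φ v → (u = x ∧ v = y) ∨ (u = y ∧ v = x))
    (Q0 X Y : Finset V) (hQ : ∀ u ∈ Q0, ∀ v ∈ Q0, u ≠ v → G.Adj u v) (hQc : Q0.card + 4 = q)
    (hXY : Disjoint X Y) (hxX : x ∈ X) (hyY : y ∈ Y)
    (hX : ∀ v ∈ X, ∀ t ∈ Q0, G.Adj v t) (hY : ∀ v ∈ Y, ∀ t ∈ Q0, G.Adj v t)
    (hX20 : 20 ≤ X.card) (hY20 : 20 ≤ Y.card)
    (hmX : ∀ v ∈ X, 5 * (Y.filter (fun w => ¬ G.Adj v w)).card ≤ Y.card)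
    (hmY : ∀ w ∈ Y, 5 * (X.filter (fun v => ¬ G.Adj w v)).card ≤ X.card) :
    ∃ z w : V, G.Adj z x ∧ G.Adj w y ∧
      X.card ≤ 4 * (X.filter (fun v => ¬ G.Adj z v)).card ∧
      Y.card ≤ 4 * (Y.filter (fun v => ¬ G.Adj w v)).card ∧
      ∃ d : Fin q, φ x ≠ d ∧ (∀ v ∈ X, G.Adj z v → φ v = φ x ∨ φ v = d) ∧
        (∀ v ∈ Y, G.Adj w v → φ v = φ x ∨ φ v = d) := by
  have hxy := same_col hG φ hφ
  have hxQ := hX x hxX
  have hyQ := hY y hyY
  have hxY : x ∉ Y := fun h => (disjoint_left.1 hXY hxX) h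
  have hyX : y ∉ X := fun h => (disjoint_left.1 hXY h) hyY
  have hφ' : ∀ u v, G.Adj u v → φ u = φ v → (u = y ∧ v = x) ∨ (u = x ∧ v = y) :=
    fun u v h1 h2 => (hφ u v h1 h2).symm
  obtain ⟨a, haR, hac, hacard⟩ :=
    popular hG φ hφ Q0 X hQ hQc hxQ hyQ hX hX20 (hmY y hyY)
  obtain ⟨b, hbR, hbc, hbcard⟩ :=
    popular hG φ hφ' Q0 Y hQ hQc hyQ hxQ hY hY20 (hmX x hxX)
  rw [← hxy] at hbc
  obtain ⟨z, hz1, hz2, hz3⟩ := exists_nbr hG φ hφ a hac
  obtain ⟨w, hw1, hw2, hw3⟩ := exists_nbr hG φ hφ' b (by rw [← hxy]; exact hbc)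
  -- a vertex of `X` of colour `b` misses all `b`-coloured vertices
  have missX : ∀ v ∈ X, φ v ≠ b := by
    intro v hv hvb
    have h1 : Y.filter (fun v' => (G.Adj x v' ∧ v' ≠ y) ∧ φ v' = b) ⊆
        Y.filter (fun w => ¬ G.Adj v w) := by
      intro v' hv'
      rw [mem_filter] at hv' ⊢
      obtain ⟨hv'Y, ⟨-, hv'y⟩, hv'b⟩ := hv'
      refine ⟨hv'Y, fun hadj' => ?_⟩
      rcases hφ v v' hadj' (hvb.trans hv'b.symm) with ⟨-, h2⟩ | ⟨-, h2⟩
      · exact hv'y h2
      · exact hxY (h2 ▸ hv'Y)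
    have h2 := card_le_card h1
    have h3 := hmX v hv
    omega
  have missY : ∀ v ∈ Y, φ v ≠ a := by
    intro v hv hva
    have h1 : X.filter (fun v' => (G.Adj y v' ∧ v' ≠ x) ∧ φ v' = a) ⊆
        X.filter (fun w => ¬ G.Adj v w) := by
      intro v' hv'
      rw [mem_filter] at hv' ⊢
      obtain ⟨hv'X, ⟨-, hv'x⟩, hv'a⟩ := hv'
      refine ⟨hv'X, fun hadj' => ?_⟩
      rcases hφ v v' hadj' (hva.trans hv'a.symm) with ⟨-, h2⟩ | ⟨-, h2⟩
      · exact hyX (h2 ▸ hv'X)
      · exact hv'x h2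
    have h2 := card_le_card h1
    have h3 := hmY v hv
    omega
  have hab : a ≠ b := by
    intro hab
    have h1 : 0 < (X.filter (fun v => (G.Adj y v ∧ v ≠ x) ∧ φ v = a)).card := by omega
    obtain ⟨v, hv⟩ := card_pos.1 h1
    rw [mem_filter] at hv
    exact missX v hv.1 (hv.2.2.trans hab)
  -- the fourth free colour
  have h4 := free_card φ hφ Q0 hQ hQc hxQ
  have hcR : φ x ∈ univ \ Q0.image φ := free_of_complete φ hφ Q0 hxQ hyQ x hxQ
  have hd : ((((univ \ Q0.image φ).erase (φ x)).erase a).erase b).card = 1 := by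
    rw [card_erase_of_mem, card_erase_of_mem, card_erase_of_mem hcR, h4]
    · exact mem_erase.2 ⟨hac, haR⟩
    · exact mem_erase.2 ⟨hab.symm, mem_erase.2 ⟨hbc, hbR⟩⟩
  obtain ⟨d, hd⟩ := card_eq_one.1 hd
  have hd' : ∀ e, e ∈ univ \ Q0.image φ → e ≠ a → e ≠ b → e = φ x ∨ e = d := by
    intro e he hea heb
    by_cases hec : e = φ x
    · exact Or.inl hec
    · right
      have : e ∈ (((univ \ Q0.image φ).erase (φ x)).erase a).erase b :=
        mem_erase.2 ⟨heb, mem_erase.2 ⟨hea, mem_erase.2 ⟨hec, he⟩⟩⟩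
      rw [hd] at this
      exact mem_singleton.1 this
  have hdc : φ x ≠ d := by
    intro h
    have : d ∈ (((univ \ Q0.image φ).erase (φ x)).erase a).erase b := by
      rw [hd]
      exact mem_singleton_self _
    exact (mem_erase.1 (mem_erase.1 (mem_erase.1 this).2).2).1 h.symm
  refine ⟨z, w, hz1.symm, hw1.symm, ?_, ?_, d, hdc, ?_, ?_⟩
  · refine hacard.trans (Nat.mul_le_mul_left 4 (card_le_card ?_))
    intro v hv
    rw [mem_filter] at hv ⊢
    obtain ⟨hvX, ⟨-, hvx⟩, hva⟩ := hv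
    refine ⟨hvX, fun h => ?_⟩
    rcases hφ z v h (hz3.trans hva.symm) with ⟨h1, -⟩ | ⟨h1, -⟩
    · exact hz1.ne h1.symm
    · exact hz2 h1
  · refine hbcard.trans (Nat.mul_le_mul_left 4 (card_le_card ?_))
    intro v hv
    rw [mem_filter] at hv ⊢
    obtain ⟨hvX, ⟨-, hvx⟩, hva⟩ := hv
    refine ⟨hvX, fun h => ?_⟩
    rcases hφ w v h (hw3.trans hva.symm) with ⟨h1, -⟩ | ⟨h1, -⟩
    · exact hw2 h1
    · exact hw1.ne h1.symm
  · intro v hv hzv
    refine hd' _ (free_of_complete φ hφ Q0 hxQ hyQ v (hX v hv)) ?_ (missX v hv)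
    intro hva
    rcases hφ z v hzv (hz3.trans hva.symm) with ⟨h1, -⟩ | ⟨h1, -⟩
    · exact hz1.ne h1.symm
    · exact hz2 h1
  · intro v hv hwv
    refine hd' _ (free_of_complete φ hφ Q0 hxQ hyQ v (hY v hv)) (missY v hv) ?_
    intro hvb
    rcases hφ w v hwv (hw3.trans hvb.symm) with ⟨h1, -⟩ | ⟨h1, -⟩
    · exact hw2 h1
    · exact hw1.ne h1.symm

/-- **The linear algebra lemma.** -/
theorem lemP (G : SimpleGraph V) [DecidableRel G.Adj] (q : ℕ) (hG : ¬ G.Colorable q)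
    (hcrit : ∀ e ∈ G.edgeSet, (G.deleteEdges {e}).Colorable q)
    (Q0 X Y : Finset V) (hQ : ∀ u ∈ Q0, ∀ v ∈ Q0, u ≠ v → G.Adj u v) (hQc : Q0.card + 4 = q)
    (hXY : Disjoint X Y)
    (hX : ∀ v ∈ X, ∀ t ∈ Q0, G.Adj v t) (hY : ∀ v ∈ Y, ∀ t ∈ Q0, G.Adj v t)
    (hX20 : 20 ≤ X.card) (hY20 : 20 ≤ Y.card)
    (hmX : ∀ v ∈ X, 5 * (Y.filter (fun w => ¬ G.Adj v w)).card ≤ Y.card)
    (hmY : ∀ w ∈ Y, 5 * (X.filter (fun v => ¬ G.Adj w v)).card ≤ X.card)
    (ZX ZY : Finset V)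
    (hZX : ∀ z, ∀ x ∈ X, G.Adj z x → X.card ≤ 4 * (X.filter (fun v => ¬ G.Adj z v)).card → z ∈ ZX)
    (hZY : ∀ w, ∀ y ∈ Y, G.Adj w y → Y.card ≤ 4 * (Y.filter (fun v => ¬ G.Adj w v)).card → w ∈ ZY) :
    ((X ×ˢ Y).filter (fun p => G.Adj p.1 p.2)).card ≤ X.card * ZY.card + ZX.card * Y.card := by
  classical
  set E := (X ×ˢ Y).filter (fun p => G.Adj p.1 p.2) with hE
  let f : (X × ZY) ⊕ (ZX × Y) → (E → ℚ) := fun i =>
    match i with
    | Sum.inl u => fun p => if p.1.1 = u.1.1 ∧ G.Adj u.2.1 p.1.2 then 1 else 0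
    | Sum.inr u => fun p => if G.Adj u.1.1 p.1.1 ∧ p.1.2 = u.2.1 then 1 else 0
  have hspan : Submodule.span ℚ (Set.range f) = ⊤ := by
    rw [eq_top_iff, ← (Pi.basisFun ℚ E).span_eq, Submodule.span_le]
    rintro _ ⟨e, rfl⟩
    rw [Pi.basisFun_apply]
    obtain ⟨⟨x, y⟩, he⟩ := e
    have he' := he
    rw [hE, mem_filter, mem_product] at he'
    obtain ⟨⟨hxX, hyY⟩, hadj⟩ := he'
    obtain ⟨φ, hφ⟩ := exists_fun (hcrit s(x, y) hadj)
    obtain ⟨z, w, hzx, hwy, hzc, hwc, d, hcd, hBz, hBw⟩ := local_structure hG φ hφ Q0 X Y hQ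
      hQc hXY hxX hyY hX hY hX20 hY20 hmX hmY
    have hz : z ∈ ZX := hZX z x hxX hzx hzc
    have hw : w ∈ ZY := hZY w y hyY hwy hwc
    have hxy := same_col hG φ hφ
    have hsum : (Pi.single (⟨(x, y), he⟩ : E) (1 : ℚ) : E → ℚ) =
        (∑ u : X, if (G.Adj z u.1 ∧ φ u.1 = φ x) then f (Sum.inl (u, ⟨w, hw⟩)) else 0) -
        ∑ u : Y, if (G.Adj w u.1 ∧ φ u.1 = d) then f (Sum.inr (⟨z, hz⟩, u)) else 0 := by
      funext p
      obtain ⟨⟨v, v'⟩, hp⟩ := p
      have hp' := hp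
      rw [hE, mem_filter, mem_product] at hp'
      obtain ⟨⟨hv, hv'⟩, hvv⟩ := hp'
      have h1 : (∑ u : X, if (G.Adj z u.1 ∧ φ u.1 = φ x) then f (Sum.inl (u, ⟨w, hw⟩)) else 0)
          ⟨(v, v'), hp⟩ = if (G.Adj z v ∧ φ v = φ x) ∧ G.Adj w v' then 1 else 0 := by
        rw [Finset.sum_apply, Finset.sum_eq_single (⟨v, hv⟩ : X)]
        · by_cases h : G.Adj z v ∧ φ v = φ x
          · simp [f, h]
          · simp [h]
        · intro u _ hu
          have : v ≠ u.1 := fun h => hu (Subtype.ext h.symm)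
          by_cases h : G.Adj z u.1 ∧ φ u.1 = φ x
          · simp [f, h, this]
          · simp [h]
        · intro h
          exact absurd (mem_univ _) h
      have h2 : (∑ u : Y, if (G.Adj w u.1 ∧ φ u.1 = d) then f (Sum.inr (⟨z, hz⟩, u)) else 0)
          ⟨(v, v'), hp⟩ = if (G.Adj w v' ∧ φ v' = d) ∧ G.Adj z v then 1 else 0 := by
        rw [Finset.sum_apply, Finset.sum_eq_single (⟨v', hv'⟩ : Y)]
        · by_cases h : G.Adj w v' ∧ φ v' = d
          · simp [f, h]
          · simp [h]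
        · intro u _ hu
          have : v' ≠ u.1 := fun h => hu (Subtype.ext h.symm)
          by_cases h : G.Adj w u.1 ∧ φ u.1 = d
          · simp [f, h, this]
          · simp [h]
        · intro h
          exact absurd (mem_univ _) h
      rw [Pi.sub_apply, h1, h2]
      have hneY : ∀ v ∈ X, ∀ v' ∈ Y, ¬ (v = y ∧ v' = x) := by
        rintro v hv v' hv' ⟨rfl, rfl⟩
        exact disjoint_left.1 hXY hv hyY
      by_cases heq : v = x ∧ v' = y
      · obtain ⟨rfl, rfl⟩ := heq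
        rw [Pi.single_eq_same, if_pos ⟨⟨hzx, rfl⟩, hwy⟩, if_neg]
        · ring
        · rintro ⟨⟨-, h⟩, -⟩
          exact hcd (hxy.trans h)
      · have hne : (⟨(v, v'), hp⟩ : E) ≠ ⟨(x, y), he⟩ := by
          intro h
          apply heq
          have := congrArg Subtype.val h
          exact ⟨congrArg Prod.fst this, congrArg Prod.snd this⟩
        rw [Pi.single_eq_of_ne hne]
        have hcol : φ v ≠ φ v' := by
          intro h
          rcases hφ v v' hvv h with h3 | h3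
          · exact heq h3
          · exact hneY v hv v' hv' h3
        by_cases hzv : G.Adj z v
        · by_cases hwv : G.Adj w v'
          · rcases hBz v hv hzv with h5 | h5 <;> rcases hBw v' hv' hwv with h6 | h6
            · exact absurd (h5.trans h6.symm) hcol
            · rw [if_pos ⟨⟨hzv, h5⟩, hwv⟩, if_pos ⟨⟨hwv, h6⟩, hzv⟩]
              ring
            · rw [if_neg, if_neg]
              · ring
              · rintro ⟨⟨-, h⟩, -⟩
                exact hcd (h6.symm.trans h)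
              · rintro ⟨⟨-, h⟩, -⟩
                exact hcd (h.symm.trans h5)
            · exact absurd (h5.trans h6.symm) hcol
          · rw [if_neg (fun h => hwv h.2), if_neg (fun h => hwv h.1.1)]
            ring
        · rw [if_neg (fun h => hzv h.1.1), if_neg (fun h => hzv h.2)]
          ring
    rw [hsum]
    refine Submodule.sub_mem _ (Submodule.sum_mem _ fun u _ => ?_) (Submodule.sum_mem _ fun u _ => ?_)
    · split_ifs
      · exact Submodule.subset_span ⟨Sum.inl (u, ⟨w, hw⟩), rfl⟩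
      · exact Submodule.zero_mem _
    · split_ifs
      · exact Submodule.subset_span ⟨Sum.inr (⟨z, hz⟩, u), rfl⟩
      · exact Submodule.zero_mem _
  have h1 : Module.finrank ℚ (E → ℚ) ≤ Fintype.card ((X × ZY) ⊕ (ZX × Y)) := by
    have h2 := finrank_range_le_card (R := ℚ) f
    unfold Set.finrank at h2
    rw [hspan, finrank_top] at h2
    exact h2
  rw [Module.finrank_fintype_fun_eq_card, Fintype.card_coe, Fintype.card_sum, Fintype.card_prod,
    Fintype.card_prod, Fintype.card_coe, Fintype.card_coe, Fintype.card_coe, Fintype.card_coe] at h1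
  exact h1

end Main

end Pool.Agent.FK
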