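import Pool.Agent.FK.LemP

/-!
# Dense critical graphs: the linear algebra lemma, sharper form

The same statement as in `lemP`, but only the vertices which miss at least `3 |X| / 5 - 1` vertices of `X` count.
-/

set_option autoImplicit false

namespace Pool.Agent.FK

open SimpleGraph Finset

section Main35

variable {V : Type*} [DecidableEq V]

/-- the neighbours of `y` in `X` -/
theorem slice_card {G : SimpleGraph V} [DecidableRel G.Adj] (x y : V) (X : Finset V)
    (hy : 5 * (X.filter (fun v => ¬ G.Adj y v)).card ≤ X.card) :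
    4 * X.card ≤ 5 * (X.filter (fun v => G.Adj y v ∧ v ≠ x)).card + 5 := by
  have hSX : X.card ≤ (X.filter (fun v => G.Adj y v ∧ v ≠ x)).card +
      (X.filter (fun v => ¬ G.Adj y v)).card + 1 := by
    have h1 : X ⊆ (X.filter (fun v => G.Adj y v ∧ v ≠ x) ∪ X.filter (fun v => ¬ G.Adj y v)) ∪ {x} := by
      intro v hv
      rw [mem_union, mem_union, mem_singleton, mem_filter, mem_filter]
      tauto
    refine (card_le_card h1).trans ((card_union_le _ _).trans ?_)
    rw [card_singleton]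
    exact Nat.add_le_add_right (card_union_le _ _) 1
  omega

/-- The combinatorial part with three cases. -/
theorem local_structure35 {G : SimpleGraph V} [DecidableRel G.Adj] {q : ℕ} {x y : V}
    (hG : ¬ G.Colorable q) (φ : V → Fin q)
    (hφ : ∀ u v, G.Adj u v → φ u = φ v → (u = x ∧ v = y) ∨ (u = y ∧ v = x))
    (Q0 X Y : Finset V) (hQ : ∀ u ∈ Q0, ∀ v ∈ Q0, u ≠ v → G.Adj u v) (hQc : Q0.card + 4 = q)
    (hXY : Disjoint X Y) (hxX : x ∈ X) (hyY : y ∈ Y)
    (hX : ∀ v ∈ X, ∀ t ∈ Q0, G.Adj v t) (hY : ∀ v ∈ Y, ∀ t ∈ Q0, G.Adj v t)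
    (hX20 : 20 ≤ X.card) (hY20 : 20 ≤ Y.card)
    (hmX : ∀ v ∈ X, 5 * (Y.filter (fun w => ¬ G.Adj v w)).card ≤ Y.card)
    (hmY : ∀ w ∈ Y, 5 * (X.filter (fun v => ¬ G.Adj w v)).card ≤ X.card) :
    (∃ w : V, G.Adj w y ∧ 3 * Y.card ≤ 5 * (Y.filter (fun v => ¬ G.Adj w v)).card + 5 ∧
      ∀ v ∈ Y, G.Adj x v → G.Adj w v → v = y) ∨
    (∃ z : V, G.Adj z x ∧ 3 * X.card ≤ 5 * (X.filter (fun v => ¬ G.Adj z v)).card + 5 ∧
      ∀ v ∈ X, G.Adj y v → G.Adj z v → v = x) ∨
    (∃ z w : V, G.Adj z x ∧ G.Adj w y ∧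
      3 * X.card ≤ 5 * (X.filter (fun v => ¬ G.Adj z v)).card + 5 ∧
      3 * Y.card ≤ 5 * (Y.filter (fun v => ¬ G.Adj w v)).card + 5 ∧
      ∃ d : Fin q, φ x ≠ d ∧ (∀ v ∈ X, G.Adj z v → φ v = φ x ∨ φ v = d) ∧
        (∀ v ∈ Y, G.Adj w v → φ v = φ x ∨ φ v = d)) := by
  have hxy := same_col hG φ hφ
  have hxQ := hX x hxX
  have hyQ := hY y hyY
  have hxY : x ∉ Y := fun h => (disjoint_left.1 hXY hxX) h
  have hyX : y ∉ X := fun h => (disjoint_left.1 hXY h) hyY
  have hφ' : ∀ u v, G.Adj u v → φ u = φ v → (u = y ∧ v = x) ∨ (u = x ∧ v = y) :=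
    fun u v h1 h2 => (hφ u v h1 h2).symm
  obtain ⟨a, haR, hac, hacard⟩ :=
    popular hG φ hφ Q0 X hQ hQc hxQ hyQ hX hX20 (hmY y hyY)
  obtain ⟨b, hbR, hbc, hbcard⟩ :=
    popular hG φ hφ' Q0 Y hQ hQc hyQ hxQ hY hY20 (hmX x hxX)
  rw [← hxy] at hbc
  obtain ⟨z, hz1, hz2, hz3⟩ := exists_nbr hG φ hφ a hac
  obtain ⟨w, hw1, hw2, hw3⟩ := exists_nbr hG φ hφ' b (by rw [← hxy]; exact hbc)
  -- a colour with many vertices in the slice of `Y` does not occur in `X`
  have missX : ∀ e : Fin q, Y.card < 5 * (Y.filter (fun v' => (G.Adj x v' ∧ v' ≠ y) ∧ φ v' = e)).card →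
      ∀ v ∈ X, φ v ≠ e := by
    intro e he v hv hvb
    have h1 : Y.filter (fun v' => (G.Adj x v' ∧ v' ≠ y) ∧ φ v' = e) ⊆
        Y.filter (fun w => ¬ G.Adj v w) := by
      intro v' hv'
      rw [mem_filter] at hv' ⊢
      obtain ⟨hv'Y, ⟨-, hv'y⟩, hv'b⟩ := hv'
      refine ⟨hv'Y, fun hadj' => ?_⟩
      rcases hφ v v' hadj' (hvb.trans hv'b.symm) with ⟨-, h2⟩ | ⟨-, h2⟩
      · exact hv'y h2
      · exact hxY (h2 ▸ hv'Y)
    have h2 := card_le_card h1
    have h3 := hmX v hv
    omega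
  have missY : ∀ e : Fin q, X.card < 5 * (X.filter (fun v' => (G.Adj y v' ∧ v' ≠ x) ∧ φ v' = e)).card →
      ∀ v ∈ Y, φ v ≠ e := by
    intro e he v hv hva
    have h1 : X.filter (fun v' => (G.Adj y v' ∧ v' ≠ x) ∧ φ v' = e) ⊆
        X.filter (fun w => ¬ G.Adj v w) := by
      intro v' hv'
      rw [mem_filter] at hv' ⊢
      obtain ⟨hv'X, ⟨-, hv'x⟩, hv'a⟩ := hv'
      refine ⟨hv'X, fun hadj' => ?_⟩
      rcases hφ v v' hadj' (hva.trans hv'a.symm) with ⟨-, h2⟩ | ⟨-, h2⟩
      · exact hyX (h2 ▸ hv'X)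
      · exact hv'x h2
    have h2 := card_le_card h1
    have h3 := hmY v hv
    omega
  have missb : ∀ v ∈ X, φ v ≠ b := missX b (by omega)
  have missa : ∀ v ∈ Y, φ v ≠ a := missY a (by omega)
  have hab : a ≠ b := by
    intro hab
    have h1 : 0 < (X.filter (fun v => (G.Adj y v ∧ v ≠ x) ∧ φ v = a)).card := by omega
    obtain ⟨v, hv⟩ := card_pos.1 h1
    rw [mem_filter] at hv
    exact missb v hv.1 (hv.2.2.trans hab)
  -- the fourth free colour
  have h4 := free_card φ hφ Q0 hQ hQc hxQ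
  have hcR : φ x ∈ univ \ Q0.image φ := free_of_complete φ hφ Q0 hxQ hyQ x hxQ
  have hd : ((((univ \ Q0.image φ).erase (φ x)).erase a).erase b).card = 1 := by
    rw [card_erase_of_mem, card_erase_of_mem, card_erase_of_mem hcR, h4]
    · exact mem_erase.2 ⟨hac, haR⟩
    · exact mem_erase.2 ⟨hab.symm, mem_erase.2 ⟨hbc, hbR⟩⟩
  obtain ⟨d, hd⟩ := card_eq_one.1 hd
  have hd' : ∀ e, e ∈ univ \ Q0.image φ → e ≠ a → e ≠ b → e = φ x ∨ e = d := by
    intro e he hea heb
    by_cases hec : e = φ x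
    · exact Or.inl hec
    · right
      have : e ∈ (((univ \ Q0.image φ).erase (φ x)).erase a).erase b :=
        mem_erase.2 ⟨heb, mem_erase.2 ⟨hea, mem_erase.2 ⟨hec, he⟩⟩⟩
      rw [hd] at this
      exact mem_singleton.1 this
  have hdmem : d ∈ (((univ \ Q0.image φ).erase (φ x)).erase a).erase b := by
    rw [hd]
    exact mem_singleton_self _
  have hdc : φ x ≠ d := fun h => (mem_erase.1 (mem_erase.1 (mem_erase.1 hdmem).2).2).1 h.symm
  have hda : d ≠ a := (mem_erase.1 (mem_erase.1 hdmem).2).1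
  have hdb : d ≠ b := (mem_erase.1 hdmem).1
  -- vertices in the slices do not have the colour of `x`
  have sliceX : ∀ v, G.Adj y v → v ≠ x → φ v ≠ φ x := by
    intro v hyv hvx he
    rcases hφ y v hyv (hxy.symm.trans he.symm) with ⟨-, h1⟩ | ⟨-, h1⟩
    · exact hyv.ne h1.symm
    · exact hvx h1
  have sliceY : ∀ v, G.Adj x v → v ≠ y → φ v ≠ φ x := by
    intro v hxv hvy he
    rcases hφ x v hxv he.symm with ⟨-, h1⟩ | ⟨-, h1⟩
    · exact hvy h1
    · exact hxv.ne h1.symm
  have colX : ∀ v ∈ X, G.Adj y v → v ≠ x → φ v = a ∨ φ v = d := by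
    intro v hv h1 h2
    by_cases hva : φ v = a
    · exact Or.inl hva
    · rcases hd' _ (free_of_complete φ hφ Q0 hxQ hyQ v (hX v hv)) hva (missb v hv) with h | h
      · exact absurd h (sliceX v h1 h2)
      · exact Or.inr h
  have colY : ∀ v ∈ Y, G.Adj x v → v ≠ y → φ v = b ∨ φ v = d := by
    intro v hv h1 h2
    by_cases hvb : φ v = b
    · exact Or.inl hvb
    · rcases hd' _ (free_of_complete φ hφ Q0 hxQ hyQ v (hY v hv)) (missa v hv) hvb with h | h
      · exact absurd h (sliceY v h1 h2)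
      · exact Or.inr h
  have hsX := slice_card (G := G) x y X (hmY y hyY)
  have hsY := slice_card (G := G) y x Y (hmX x hxX)
  -- `z` is not adjacent to the vertices of colour `a`, `w` not to those of colour `b`
  have hza : ∀ v, φ v = a → ¬ G.Adj z v := by
    intro v hva h
    rcases hφ z v h (hz3.trans hva.symm) with ⟨h1, -⟩ | ⟨h1, -⟩
    · exact hz1.ne h1.symm
    · exact hz2 h1
  have hwb : ∀ v, φ v = b → ¬ G.Adj w v := by
    intro v hvb h
    rcases hφ w v h (hw3.trans hvb.symm) with ⟨h1, -⟩ | ⟨h1, -⟩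
    · exact hw2 h1
    · exact hw1.ne h1.symm
  by_cases hdX : X.card < 5 * (X.filter (fun v' => (G.Adj y v' ∧ v' ≠ x) ∧ φ v' = d)).card
  · -- case I: the slice of `Y` has only the colour `b`
    left
    have hYb : ∀ v ∈ Y, G.Adj x v → v ≠ y → φ v = b := by
      intro v hv h1 h2
      rcases colY v hv h1 h2 with h | h
      · exact h
      · exact absurd h (missY d hdX v hv)
    refine ⟨w, hw1.symm, ?_, ?_⟩
    · have h1 : Y.filter (fun v => G.Adj x v ∧ v ≠ y) ⊆ Y.filter (fun v => ¬ G.Adj w v) := by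
        intro v hv
        rw [mem_filter] at hv ⊢
        exact ⟨hv.1, hwb v (hYb v hv.1 hv.2.1 hv.2.2)⟩
      have h2 := card_le_card h1
      omega
    · intro v hv h1 h2
      by_contra hne
      exact hwb v (hYb v hv h1 hne) h2
  · by_cases hdY : Y.card < 5 * (Y.filter (fun v' => (G.Adj x v' ∧ v' ≠ y) ∧ φ v' = d)).card
    · -- case II
      right; left
      have hXa : ∀ v ∈ X, G.Adj y v → v ≠ x → φ v = a := by
        intro v hv h1 h2
        rcases colX v hv h1 h2 with h | h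
        · exact h
        · exact absurd h (missX d hdY v hv)
      refine ⟨z, hz1.symm, ?_, ?_⟩
      · have h1 : X.filter (fun v => G.Adj y v ∧ v ≠ x) ⊆ X.filter (fun v => ¬ G.Adj z v) := by
          intro v hv
          rw [mem_filter] at hv ⊢
          exact ⟨hv.1, hza v (hXa v hv.1 hv.2.1 hv.2.2)⟩
        have h2 := card_le_card h1
        omega
      · intro v hv h1 h2
        by_contra hne
        exact hza v (hXa v hv h1 hne) h2
    · -- case III
      right; right
      refine ⟨z, w, hz1.symm, hw1.symm, ?_, ?_, d, hdc, ?_, ?_⟩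
      · have h1 : X.filter (fun v => G.Adj y v ∧ v ≠ x) ⊆
            X.filter (fun v => ¬ G.Adj z v) ∪ X.filter (fun v' => (G.Adj y v' ∧ v' ≠ x) ∧ φ v' = d) := by
          intro v hv
          rw [mem_filter] at hv
          rw [mem_union, mem_filter, mem_filter]
          rcases colX v hv.1 hv.2.1 hv.2.2 with h | h
          · exact Or.inl ⟨hv.1, hza v h⟩
          · exact Or.inr ⟨hv.1, hv.2, h⟩
        have h2 := (card_le_card h1).trans (card_union_le _ _)
        omega
      · have h1 : Y.filter (fun v => G.Adj x v ∧ v ≠ y) ⊆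
            Y.filter (fun v => ¬ G.Adj w v) ∪ Y.filter (fun v' => (G.Adj x v' ∧ v' ≠ y) ∧ φ v' = d) := by
          intro v hv
          rw [mem_filter] at hv
          rw [mem_union, mem_filter, mem_filter]
          rcases colY v hv.1 hv.2.1 hv.2.2 with h | h
          · exact Or.inl ⟨hv.1, hwb v h⟩
          · exact Or.inr ⟨hv.1, hv.2, h⟩
        have h2 := (card_le_card h1).trans (card_union_le _ _)
        omega
      · intro v hv hzv
        exact hd' _ (free_of_complete φ hφ Q0 hxQ hyQ v (hX v hv)) (fun h => hza v h hzv) (missb v hv)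
      · intro v hv hwv
        exact hd' _ (free_of_complete φ hφ Q0 hxQ hyQ v (hY v hv)) (missa v hv) (fun h => hwb v h hwv)

/-- **The linear algebra lemma, sharper form.** -/
theorem lemP35 (G : SimpleGraph V) [DecidableRel G.Adj] (q : ℕ) (hG : ¬ G.Colorable q)
    (hcrit : ∀ e ∈ G.edgeSet, (G.deleteEdges {e}).Colorable q)
    (Q0 X Y : Finset V) (hQ : ∀ u ∈ Q0, ∀ v ∈ Q0, u ≠ v → G.Adj u v) (hQc : Q0.card + 4 = q)
    (hXY : Disjoint X Y)
    (hX : ∀ v ∈ X, ∀ t ∈ Q0, G.Adj v t) (hY : ∀ v ∈ Y, ∀ t ∈ Q0, G.Adj v t)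
    (hX20 : 20 ≤ X.card) (hY20 : 20 ≤ Y.card)
    (hmX : ∀ v ∈ X, 5 * (Y.filter (fun w => ¬ G.Adj v w)).card ≤ Y.card)
    (hmY : ∀ w ∈ Y, 5 * (X.filter (fun v => ¬ G.Adj w v)).card ≤ X.card)
    (ZX ZY : Finset V)
    (hZX : ∀ z, ∀ x ∈ X, G.Adj z x →
      3 * X.card ≤ 5 * (X.filter (fun v => ¬ G.Adj z v)).card + 5 → z ∈ ZX)
    (hZY : ∀ w, ∀ y ∈ Y, G.Adj w y →
      3 * Y.card ≤ 5 * (Y.filter (fun v => ¬ G.Adj w v)).card + 5 → w ∈ ZY) :
    ((X ×ˢ Y).filter (fun p => G.Adj p.1 p.2)).card ≤ X.card * ZY.card + ZX.card * Y.card := by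
  classical
  set E := (X ×ˢ Y).filter (fun p => G.Adj p.1 p.2) with hE
  let f : (X × ZY) ⊕ (ZX × Y) → (E → ℚ) := fun i =>
    match i with
    | Sum.inl u => fun p => if p.1.1 = u.1.1 ∧ G.Adj u.2.1 p.1.2 then 1 else 0
    | Sum.inr u => fun p => if G.Adj u.1.1 p.1.1 ∧ p.1.2 = u.2.1 then 1 else 0
  have hspan : Submodule.span ℚ (Set.range f) = ⊤ := by
    rw [eq_top_iff, ← (Pi.basisFun ℚ E).span_eq, Submodule.span_le]
    rintro _ ⟨e, rfl⟩
    rw [Pi.basisFun_apply]
    obtain ⟨⟨x, y⟩, he⟩ := e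
    have he' := he
    rw [hE, mem_filter, mem_product] at he'
    obtain ⟨⟨hxX, hyY⟩, hadj⟩ := he'
    obtain ⟨φ, hφ⟩ := exists_fun (hcrit s(x, y) hadj)
    rcases local_structure35 hG φ hφ Q0 X Y hQ hQc hXY hxX hyY hX hY hX20 hY20 hmX hmY with
      ⟨w, hwy, hwc, hw0⟩ | ⟨z, hzx, hzc, hz0⟩ | ⟨z, w, hzx, hwy, hzc, hwc, d, hcd, hBz, hBw⟩
    · -- case I
      have hw : w ∈ ZY := hZY w y hyY hwy hwc
      have hval : (Pi.single (⟨(x, y), he⟩ : E) (1 : ℚ) : E → ℚ) =
          f (Sum.inl (⟨x, hxX⟩, ⟨w, hw⟩)) := by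
        funext p
        obtain ⟨⟨v, v'⟩, hp⟩ := p
        have hp' := hp
        rw [hE, mem_filter, mem_product] at hp'
        obtain ⟨⟨hv, hv'⟩, hvv⟩ := hp'
        by_cases heq : v = x ∧ v' = y
        · obtain ⟨rfl, rfl⟩ := heq
          rw [Pi.single_eq_same]
          exact (if_pos ⟨rfl, hwy⟩).symm
        · have hne : (⟨(v, v'), hp⟩ : E) ≠ ⟨(x, y), he⟩ := by
            intro h
            apply heq
            have := congrArg Subtype.val h
            exact ⟨congrArg Prod.fst this, congrArg Prod.snd this⟩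
          rw [Pi.single_eq_of_ne hne]
          refine (if_neg ?_).symm
          rintro ⟨h1, h2⟩
          have h1' : v = x := h1
          subst h1'
          exact heq ⟨rfl, hw0 v' hv' hvv h2⟩
      rw [hval]
      exact Submodule.subset_span ⟨Sum.inl (⟨x, hxX⟩, ⟨w, hw⟩), rfl⟩
    · -- case II
      have hz : z ∈ ZX := hZX z x hxX hzx hzc
      have hval : (Pi.single (⟨(x, y), he⟩ : E) (1 : ℚ) : E → ℚ) =
          f (Sum.inr (⟨z, hz⟩, ⟨y, hyY⟩)) := by
        funext p
        obtain ⟨⟨v, v'⟩, hp⟩ := p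
        have hp' := hp
        rw [hE, mem_filter, mem_product] at hp'
        obtain ⟨⟨hv, hv'⟩, hvv⟩ := hp'
        by_cases heq : v = x ∧ v' = y
        · obtain ⟨rfl, rfl⟩ := heq
          rw [Pi.single_eq_same]
          exact (if_pos ⟨hzx, rfl⟩).symm
        · have hne : (⟨(v, v'), hp⟩ : E) ≠ ⟨(x, y), he⟩ := by
            intro h
            apply heq
            have := congrArg Subtype.val h
            exact ⟨congrArg Prod.fst this, congrArg Prod.snd this⟩
          rw [Pi.single_eq_of_ne hne]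
          refine (if_neg ?_).symm
          rintro ⟨h1, h2⟩
          have h2' : v' = y := h2
          subst h2'
          exact heq ⟨hz0 v hv hvv.symm h1, rfl⟩
      rw [hval]
      exact Submodule.subset_span ⟨Sum.inr (⟨z, hz⟩, ⟨y, hyY⟩), rfl⟩
    · have hz : z ∈ ZX := hZX z x hxX hzx hzc
      have hw : w ∈ ZY := hZY w y hyY hwy hwc
      have hxy := same_col hG φ hφ
      have hsum : (Pi.single (⟨(x, y), he⟩ : E) (1 : ℚ) : E → ℚ) =
          (∑ u : X, if (G.Adj z u.1 ∧ φ u.1 = φ x) then f (Sum.inl (u, ⟨w, hw⟩)) else 0) -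
          ∑ u : Y, if (G.Adj w u.1 ∧ φ u.1 = d) then f (Sum.inr (⟨z, hz⟩, u)) else 0 := by
        funext p
        obtain ⟨⟨v, v'⟩, hp⟩ := p
        have hp' := hp
        rw [hE, mem_filter, mem_product] at hp'
        obtain ⟨⟨hv, hv'⟩, hvv⟩ := hp'
        have h1 : (∑ u : X, if (G.Adj z u.1 ∧ φ u.1 = φ x) then f (Sum.inl (u, ⟨w, hw⟩)) else 0)
            ⟨(v, v'), hp⟩ = if (G.Adj z v ∧ φ v = φ x) ∧ G.Adj w v' then 1 else 0 := by
          rw [Finset.sum_apply, Finset.sum_eq_single (⟨v, hv⟩ : X)]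
          · by_cases h : G.Adj z v ∧ φ v = φ x
            · simp [f, h]
            · simp [h]
          · intro u _ hu
            have : v ≠ u.1 := fun h => hu (Subtype.ext h.symm)
            by_cases h : G.Adj z u.1 ∧ φ u.1 = φ x
            · simp [f, h, this]
            · simp [h]
          · intro h
            exact absurd (mem_univ _) h
        have h2 : (∑ u : Y, if (G.Adj w u.1 ∧ φ u.1 = d) then f (Sum.inr (⟨z, hz⟩, u)) else 0)
            ⟨(v, v'), hp⟩ = if (G.Adj w v' ∧ φ v' = d) ∧ G.Adj z v then 1 else 0 := by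
          rw [Finset.sum_apply, Finset.sum_eq_single (⟨v', hv'⟩ : Y)]
          · by_cases h : G.Adj w v' ∧ φ v' = d
            · simp [f, h]
            · simp [h]
          · intro u _ hu
            have : v' ≠ u.1 := fun h => hu (Subtype.ext h.symm)
            by_cases h : G.Adj w u.1 ∧ φ u.1 = d
            · simp [f, h, this]
            · simp [h]
          · intro h
            exact absurd (mem_univ _) h
        rw [Pi.sub_apply, h1, h2]
        have hneY : ∀ v ∈ X, ∀ v' ∈ Y, ¬ (v = y ∧ v' = x) := by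
          rintro v hv v' hv' ⟨rfl, rfl⟩
          exact disjoint_left.1 hXY hv hyY
        by_cases heq : v = x ∧ v' = y
        · obtain ⟨rfl, rfl⟩ := heq
          rw [Pi.single_eq_same, if_pos ⟨⟨hzx, rfl⟩, hwy⟩, if_neg]
          · ring
          · rintro ⟨⟨-, h⟩, -⟩
            exact hcd (hxy.trans h)
        · have hne : (⟨(v, v'), hp⟩ : E) ≠ ⟨(x, y), he⟩ := by
            intro h
            apply heq
            have := congrArg Subtype.val h
            exact ⟨congrArg Prod.fst this, congrArg Prod.snd this⟩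
          rw [Pi.single_eq_of_ne hne]
          have hcol : φ v ≠ φ v' := by
            intro h
            rcases hφ v v' hvv h with h3 | h3
            · exact heq h3
            · exact hneY v hv v' hv' h3
          by_cases hzv : G.Adj z v
          · by_cases hwv : G.Adj w v'
            · rcases hBz v hv hzv with h5 | h5 <;> rcases hBw v' hv' hwv with h6 | h6
              · exact absurd (h5.trans h6.symm) hcol
              · rw [if_pos ⟨⟨hzv, h5⟩, hwv⟩, if_pos ⟨⟨hwv, h6⟩, hzv⟩]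
                ring
              · rw [if_neg, if_neg]
                · ring
                · rintro ⟨⟨-, h⟩, -⟩
                  exact hcd (h6.symm.trans h)
                · rintro ⟨⟨-, h⟩, -⟩
                  exact hcd (h.symm.trans h5)
              · exact absurd (h5.trans h6.symm) hcol
            · rw [if_neg (fun h => hwv h.2), if_neg (fun h => hwv h.1.1)]
              ring
          · rw [if_neg (fun h => hzv h.1.1), if_neg (fun h => hzv h.2)]
            ring
      rw [hsum]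
      refine Submodule.sub_mem _ (Submodule.sum_mem _ fun u _ => ?_)
        (Submodule.sum_mem _ fun u _ => ?_)
      · split_ifs
        · exact Submodule.subset_span ⟨Sum.inl (u, ⟨w, hw⟩), rfl⟩
        · exact Submodule.zero_mem _
      · split_ifs
        · exact Submodule.subset_span ⟨Sum.inr (⟨z, hz⟩, u), rfl⟩
        · exact Submodule.zero_mem _
  have h1 : Module.finrank ℚ (E → ℚ) ≤ Fintype.card ((X × ZY) ⊕ (ZX × Y)) := by
    have h2 := finrank_range_le_card (R := ℚ) f
    unfold Set.finrank at h2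
    rw [hspan, finrank_top] at h2
    exact h2
  rw [Module.finrank_fintype_fun_eq_card, Fintype.card_coe, Fintype.card_sum, Fintype.card_prod,
    Fintype.card_prod, Fintype.card_coe, Fintype.card_coe, Fintype.card_coe, Fintype.card_coe] at h1
  exact h1

end Main35

end Pool.Agent.FK
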