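import Pool.Agent.FK.Basic

/-!
# The multiplier of a critical parallelogram (MP_42fa54_co)
-/

open Set Filter Metric
open scoped Topology Pointwise

set_option linter.unusedSimpArgs false

namespace FK
open H78

variable {C : Set Plane} {K : ℝ} {a x y : Plane}

/-- first order optimality of the critical parallelogram among all inscribed parallelograms -/
lemma diamond (hB : Body C K) (h : Par C K a x y) {z X W : Plane} (h1 : z ∈ C) (h2 : z + X ∈ C)
    (h3 : z + W ∈ C) (h4 : z + W + X ∈ C) : br X (y - x) + 3 * br a W ≤ 4 * K := by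
  obtain ⟨⟨A, hA, B, hB', hAB⟩, -⟩ := h.max
  by_contra hcon
  push Not at hcon
  set c := br (X - a) (W - (y - x)) with hc
  have key : ∀ ε : ℝ, 0 < ε → ε ≤ 1 → (br X (y - x) + 3 * br a W - 4 * K) + ε * c ≤ 0 := by
    intro ε h0 h1'
    have cv := hB.convex
    have m1 : (1 - ε) • x + ε • z ∈ C := cv h.hx h1 (by linarith) h0.le (by ring)
    have m2 : (1 - ε) • y + ε • (z + W) ∈ C := cv h.hy h3 (by linarith) h0.le (by ring)
    have m3 : (1 - ε) • x + ε • z + ((1 - ε) • a + ε • X) ∈ C := by
      convert cv h.hxa h2 (a := 1 - ε) (b := ε) (by linarith) h0.le (by ring) using 1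
      module
    have m4 : (1 - ε) • y + ε • (z + W) + ((1 - ε) • a + ε • X) ∈ C := by
      convert cv h.hya h4 (a := 1 - ε) (b := ε) (by linarith) h0.le (by ring) using 1
      module
    have := hB.crit.ub2 _ m1 _ m2 _ m3 m4 A hA B hB'
    have e1 : (1 - ε) • a + ε • X + (B - A) = (3 : ℝ) • a + ε • (X - a) := by
      rw [hAB]; module
    have e2 : (1 - ε) • y + ε • (z + W) - ((1 - ε) • x + ε • z) = (y - x) + ε • (W - (y - x)) := by
      module
    rw [e1, e2] at this
    have e3 : br ((3 : ℝ) • a + ε • (X - a)) ((y - x) + ε • (W - (y - x))) =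
        3 * K + ε * ((br X (y - x) + 3 * br a W - 4 * K) + ε * c) := by
      have hb := h.hbr
      rw [hc]
      simp only [br_add_left, br_add_right, br_smul_left, br_smul_right, br_sub_left, br_sub_right]
        at hb ⊢
      linear_combination (3 - 4 * ε) * hb
    rw [e3] at this
    have h5 : ε * ((br X (y - x) + 3 * br a W - 4 * K) + ε * c) ≤ 0 := by linarith
    by_contra hcon
    push Not at hcon
    have := mul_pos h0 hcon
    linarith
  set d := br X (y - x) + 3 * br a W - 4 * K with hd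
  have hdpos : 0 < d := by rw [hd]; linarith
  have hcc : 0 < |c| + 1 := by positivity
  have := key (min 1 (d / (|c| + 1))) (lt_min one_pos (by positivity)) (min_le_left _ _)
  have h6 : min 1 (d / (|c| + 1)) * (-c) ≤ d / (|c| + 1) * |c| := by
    have h7 : min 1 (d / (|c| + 1)) * (-c) ≤ min 1 (d / (|c| + 1)) * |c| := by
      apply mul_le_mul_of_nonneg_left (neg_le_abs c)
      positivity
    exact h7.trans (mul_le_mul_of_nonneg_right (min_le_right _ _) (abs_nonneg _))
  have h8 : d / (|c| + 1) * |c| < d := by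
    rw [div_mul_eq_mul_div, div_lt_iff₀ hcc]
    nlinarith
  linarith

lemma exists_br_rep (f : Plane → ℝ) (hadd : ∀ u v, f (u + v) = f u + f v)
    (hsmul : ∀ (r : ℝ) u, f (r • u) = r * f u) : ∃ n : Plane, ∀ w, f w = br w n := by
  refine ⟨WithLp.toLp 2 ![-(f (EuclideanSpace.single 1 (1 : ℝ))),
    f (EuclideanSpace.single 0 (1 : ℝ))], fun w => ?_⟩
  have hw : w = w 0 • (EuclideanSpace.single 0 (1 : ℝ) : Plane) +
      w 1 • (EuclideanSpace.single 1 (1 : ℝ) : Plane) := by
    apply plane_ext <;> simp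
  conv_lhs => rw [hw]
  rw [hadd, hsmul, hsmul]
  simp [br]

/-- the value of the linear functional of a critical parallelogram -/
def val (a b n c1 c0 d1 d0 : Plane) : ℝ :=
  br (c1 - c0 - d1 + d0) n + (3 * br a (c0 - d0) + br (d1 - d0) b)

lemma mult_val (hB : Body C K) (h : Par C K a x y) : ∃ n : Plane, ∀ c1 ∈ C, ∀ c0 ∈ C, ∀ d1 ∈ C,
    ∀ d0 ∈ C, val a (y - x) n c1 c0 d1 d0 ≤ 4 * K := by
  set b := y - x with hb
  obtain ⟨z0, hz0⟩ := hB.int
  obtain ⟨S, hS⟩ : ∃ S : Set (Plane × ℝ), S = {p | ∃ c0 ∈ interior C, ∃ d1 ∈ interior C,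
      ∃ d0 ∈ interior C, p.1 + c0 + d1 - d0 ∈ interior C ∧
        p.2 < 3 * br a (c0 - d0) + br (d1 - d0) b} := ⟨_, rfl⟩
  have hopen : IsOpen S := by
    have : S = ⋃ c0 ∈ interior C, ⋃ d1 ∈ interior C, ⋃ d0 ∈ interior C,
        {p : Plane × ℝ | p.1 + c0 + d1 - d0 ∈ interior C ∧
          p.2 < 3 * br a (c0 - d0) + br (d1 - d0) b} := by
      rw [hS]; ext p; simp only [mem_ofPred_eq, mem_iUnion, exists_prop]
    rw [this]
    refine isOpen_biUnion fun c0 _ => isOpen_biUnion fun d1 _ => isOpen_biUnion fun d0 _ => ?_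
    refine IsOpen.inter ?_ ?_
    · exact isOpen_interior.preimage (f := fun p : Plane × ℝ => p.1 + c0 + d1 - d0) (by fun_prop)
    · exact isOpen_lt continuous_snd continuous_const
  have hconv : Convex ℝ S := by
    have ci := hB.convex.interior
    rw [hS]
    rintro ⟨p1, p2⟩ ⟨c0, hc0, d1, hd1, d0, hd0, hc1, hp⟩ ⟨q1, q2⟩ ⟨c0', hc0', d1', hd1', d0', hd0', hc1', hq⟩
      α β hα hβ hαβ
    refine ⟨α • c0 + β • c0', ci hc0 hc0' hα hβ hαβ, α • d1 + β • d1', ci hd1 hd1' hα hβ hαβ,
      α • d0 + β • d0', ci hd0 hd0' hα hβ hαβ, ?_, ?_⟩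
    · convert ci hc1 hc1' hα hβ hαβ using 1
      simp only [Prod.smul_mk, Prod.mk_add_mk]
      module
    · simp only [Prod.smul_mk, Prod.mk_add_mk, smul_eq_mul] at hp hq ⊢
      have e : 3 * br a (α • c0 + β • c0' - (α • d0 + β • d0')) +
          br (α • d1 + β • d1' - (α • d0 + β • d0')) b =
          α * (3 * br a (c0 - d0) + br (d1 - d0) b) + β * (3 * br a (c0' - d0') + br (d1' - d0') b) := by
        simp only [br_add_left, br_add_right, br_smul_left, br_smul_right, br_sub_left, br_sub_right]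
        ring
      rw [e]
      rcases hα.eq_or_lt with h0 | h0
      · have : β = 1 := by linarith
        rw [← h0, this]; simpa using hq
      · have := mul_lt_mul_of_pos_left hp h0
        have := mul_le_mul_of_nonneg_left hq.le hβ
        linarith
  have hnot : ((0 : Plane), 4 * K) ∉ S := by
    rw [hS]
    rintro ⟨c0, hc0, d1, hd1, d0, hd0, hc1, hp⟩
    simp only [zero_add] at hc1 hp
    have := diamond hB h (z := d0) (X := d1 - d0) (W := c0 - d0) (interior_subset hd0)
      (by rw [add_sub_cancel]; exact interior_subset hd1)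
      (by rw [add_sub_cancel]; exact interior_subset hc0)
      (by rw [add_sub_cancel, ← add_sub_assoc]; exact interior_subset hc1)
    rw [← hb] at this
    linarith
  obtain ⟨f, hf⟩ := geometric_hahn_banach_open_point hconv hopen hnot
  obtain ⟨n', hn'⟩ := exists_br_rep (fun w => f (w, 0)) (fun u v => by
      have : ((u + v, 0) : Plane × ℝ) = (u, 0) + (v, 0) := by simp
      rw [this, map_add]) (fun r u => by
      have : ((r • u, 0) : Plane × ℝ) = r • (u, 0) := by simp
      rw [this, map_smul, smul_eq_mul])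
  set κ := f ((0 : Plane), (1 : ℝ)) with hκ
  have hfp : ∀ (w : Plane) (r : ℝ), f (w, r) = br w n' + κ * r := by
    intro w r
    have : ((w, r) : Plane × ℝ) = (w, 0) + r • ((0 : Plane), (1 : ℝ)) := by simp
    rw [this, map_add, map_smul, hn', smul_eq_mul, ← hκ]; ring
  have hκpos : 0 < κ := by
    have hm : ((0 : Plane), (-1 : ℝ)) ∈ S := by
      rw [hS]
      refine ⟨z0, hz0, z0, hz0, z0, hz0, by simpa using hz0, ?_⟩
      simp [br]
    have := hf _ hm
    rw [hfp, hfp] at this
    have hK := hB.pos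
    by_contra hcon
    push Not at hcon
    nlinarith
  refine ⟨κ⁻¹ • n', ?_⟩
  have hint : ∀ c1 ∈ interior C, ∀ c0 ∈ interior C, ∀ d1 ∈ interior C,
      ∀ d0 ∈ interior C, val a b (κ⁻¹ • n') c1 c0 d1 d0 ≤ 4 * K := by
    intro c1 hc1 c0 hc0 d1 hd1 d0 hd0
    apply le_of_forall_pos_lt_add
    intro ε hε
    have hm : (c1 - c0 - d1 + d0, 3 * br a (c0 - d0) + br (d1 - d0) b - ε) ∈ S := by
      rw [hS]
      refine ⟨c0, hc0, d1, hd1, d0, hd0, ?_, by simp only; linarith⟩
      convert hc1 using 1
      simp only; abel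
    have := hf _ hm
    rw [hfp, hfp, br_zero_left, zero_add] at this
    rw [val, br_smul_right]
    have h2 : br (c1 - c0 - d1 + d0) n' < κ * (4 * K - (3 * br a (c0 - d0) + br (d1 - d0) b - ε)) := by
      linarith
    have h3 : κ⁻¹ * br (c1 - c0 - d1 + d0) n' <
        4 * K - (3 * br a (c0 - d0) + br (d1 - d0) b - ε) := by
      rw [inv_mul_lt_iff₀ hκpos]; exact h2
    linarith
  intro c1 hc1 c0 hc0 d1 hd1 d0 hd0
  by_contra hcon
  push Not at hcon
  set F := val a b (κ⁻¹ • n') c1 c0 d1 d0 with hF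
  have hK := hB.pos
  have hFpos : 0 < F := by linarith
  set ε := (F - 4 * K) / (2 * F) with hε
  have hε0 : 0 < ε := by rw [hε]; apply div_pos <;> linarith
  have hε1 : ε < 1 := by rw [hε, div_lt_one (by linarith)]; linarith
  have mem : ∀ c ∈ C, ε • z0 + (1 - ε) • c ∈ interior C := fun c hc =>
    hB.convex.combo_interior_closure_mem_interior hz0 (subset_closure hc) hε0 (by linarith) (by ring)
  have := hint _ (mem c1 hc1) _ (mem c0 hc0) _ (mem d1 hd1) _ (mem d0 hd0)
  have e : val a b (κ⁻¹ • n') (ε • z0 + (1 - ε) • c1) (ε • z0 + (1 - ε) • c0)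
      (ε • z0 + (1 - ε) • d1) (ε • z0 + (1 - ε) • d0) = (1 - ε) * F := by
    rw [hF, val, val]
    simp only [br_add_left, br_add_right, br_smul_left, br_smul_right, br_sub_left, br_sub_right]
    ring
  rw [e] at this
  have e2 : (1 - ε) * F = (F + 4 * K) / 2 := by rw [hε]; field_simp; ring
  rw [e2] at this
  linarith

/-- The multiplier: compatible support functionals at the corners of a critical parallelogram. -/
theorem mult (hB : Body C K) (h : Par C K a x y) : ∃ n : Plane,
    (∀ z ∈ C, br z n ≤ br (y + a) n) ∧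
    (∀ z ∈ C, br z (-((3 : ℝ) • a) - n) ≤ br y (-((3 : ℝ) • a) - n)) ∧
    (∀ z ∈ C, br z ((y - x) - n) ≤ br (x + a) ((y - x) - n)) ∧
    (∀ z ∈ C, br z (n - (y - x) + (3 : ℝ) • a) ≤ br x (n - (y - x) + (3 : ℝ) • a)) := by
  obtain ⟨n, hn⟩ := mult_val hB h
  have hb := h.hbr
  have hs := br_swap a x
  have hs2 := br_swap a y
  have hs3 := br_swap x y
  refine ⟨n, ?_, ?_, ?_, ?_⟩ <;> intro z hz
  · have := hn z hz y h.hy _ h.hxa x h.hx
    rw [val] at this
    simp only [br_add_left, br_add_right, br_smul_left, br_smul_right, br_sub_left, br_sub_right,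
      br_self, br_neg_right] at this hb ⊢
    linarith
  · have := hn _ h.hya z hz _ h.hxa x h.hx
    rw [val] at this
    have hs4 := br_swap a z
    simp only [br_add_left, br_add_right, br_smul_left, br_smul_right, br_sub_left, br_sub_right,
      br_self, br_neg_right] at this hb ⊢
    linarith
  · have := hn _ h.hya y h.hy z hz x h.hx
    rw [val] at this
    simp only [br_add_left, br_add_right, br_smul_left, br_smul_right, br_sub_left, br_sub_right,
      br_self, br_neg_right] at this hb ⊢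
    linarith
  · have := hn _ h.hya y h.hy _ h.hxa z hz
    rw [val] at this
    have hs4 := br_swap a z
    simp only [br_add_left, br_add_right, br_smul_left, br_smul_right, br_sub_left, br_sub_right,
      br_self, br_neg_right] at this hb ⊢
    linarith

end FK
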