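import Pool.Agent.FK.Basic

/-!
# Continuous parametrisation of the critical parallelograms (MP_42fa54_co)
-/

open Set Filter Metric
open scoped Topology Pointwise

namespace FK
open H78

variable {C : Set Plane} {K : ℝ} {a x y : Plane}

lemma continuous_br {X : Type*} [TopologicalSpace X] {f g : X → Plane} (hf : Continuous f)
    (hg : Continuous g) : Continuous fun t => br (f t) (g t) := by
  unfold br; fun_prop

lemma continuous_of_closed_unique {X : Type*} [TopologicalSpace X] {S : Set X} (hS : IsCompact S)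
    {R : Set (ℝ × X)} (hR : IsClosed R) {f : ℝ → X} (hfS : ∀ t, f t ∈ S) (hf : ∀ t, (t, f t) ∈ R)
    (huniq : ∀ t, ∀ z ∈ S, (t, z) ∈ R → z = f t) : Continuous f := by
  rw [continuous_iff_continuousAt]
  intro t
  refine hS.tendsto_nhds_of_unique_mapClusterPt (Eventually.of_forall hfS) ?_
  intro z hz hcl
  apply huniq t z hz
  rw [← hR.closure_eq, mem_closure_iff_nhds]
  intro U hU
  rw [mem_nhds_prod_iff] at hU
  obtain ⟨V, hV, W, hW, hVW⟩ := hU
  have h1 : ∃ᶠ s in 𝓝 t, f s ∈ W := (mapClusterPt_iff_frequently.1 hcl) W hW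
  obtain ⟨s, hs1, hs2⟩ := (h1.and_eventually hV).exists
  exact ⟨(s, f s), hVW ⟨hs2, hs1⟩, hf s⟩

/-- half of the difference body -/
def Dh (C : Set Plane) : Set Plane := {z | ∃ A ∈ C, ∃ B ∈ C, B - A = (2 : ℝ) • z}

lemma Dh_convex (hB : Body C K) : Convex ℝ (Dh C) := by
  rintro u ⟨A, hA, B, hB1, h1⟩ v ⟨A', hA', B', hB', h2⟩ α β hα hβ hαβ
  refine ⟨α • A + β • A', hB.convex hA hA' hα hβ hαβ, α • B + β • B',
    hB.convex hB1 hB' hα hβ hαβ, ?_⟩
  have : α • B + β • B' - (α • A + β • A') = α • (B - A) + β • (B' - A') := by module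
  rw [this, h1, h2]; module

lemma Dh_eq_image (C : Set Plane) :
    Dh C = (fun p : Plane × Plane => (1 / 2 : ℝ) • (p.2 - p.1)) '' (C ×ˢ C) := by
  ext z
  constructor
  · rintro ⟨A, hA, B, hB, h⟩
    exact ⟨(A, B), ⟨hA, hB⟩, by simp only; rw [h]; module⟩
  · rintro ⟨⟨A, B⟩, ⟨hA, hB⟩, rfl⟩
    exact ⟨A, hA, B, hB, by simp only; module⟩

lemma Dh_compact (hB : Body C K) : IsCompact (Dh C) := by
  rw [Dh_eq_image]
  exact (hB.comp.prod hB.comp).image (by fun_prop)

lemma zero_mem_int_Dh (hB : Body C K) : (0 : Plane) ∈ interior (Dh C) := by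
  obtain ⟨z0, hz0⟩ := hB.int
  rw [mem_interior_iff_mem_nhds] at hz0 ⊢
  have hc : Continuous fun z : Plane => z0 + (2 : ℝ) • z := by fun_prop
  have := hc.continuousAt (x := (0 : Plane))
  have h2 : (fun z : Plane => z0 + (2 : ℝ) • z) ⁻¹' C ∈ 𝓝 (0 : Plane) := by
    apply this
    simpa using hz0
  filter_upwards [h2] with z hz
  exact ⟨z0, mem_of_mem_nhds hz0, _, hz, add_sub_cancel_left _ _⟩

lemma maxChord_iff_gauge (hB : Body C K) : MaxChord C a ↔ gauge (Dh C) a = 1 := by
  have h0 := zero_mem_int_Dh hB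
  have hcp := Dh_compact hB
  have hcv := Dh_convex hB
  constructor
  · intro h
    have ha0 := maxChord_ne_zero h
    have h1 : a ∈ Dh C := h.1
    rw [mem_iff_gauge hcp hcv h0] at h1
    refine le_antisymm h1 ?_
    by_contra hlt
    push Not at hlt
    have hpos := gauge_pos' hcp h0 ha0
    have h2 : (gauge (Dh C) a)⁻¹ • a ∈ Dh C := by
      rw [mem_iff_gauge hcp hcv h0, gauge_smul_of_nonneg (inv_nonneg.2 hpos.le), smul_eq_mul,
        inv_mul_cancel₀ hpos.ne']
    obtain ⟨A, hA, B, hB', hAB⟩ := h2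
    refine h.2 (gauge (Dh C) a)⁻¹ ((one_lt_inv₀ hpos).2 hlt) A hA B hB' ?_
    rw [hAB, smul_smul]
  · intro h
    have h1 : a ∈ Dh C := by rw [mem_iff_gauge hcp hcv h0, h]
    refine ⟨h1, ?_⟩
    intro t ht P hP Q hQ hPQ
    have h2 : t • a ∈ Dh C := ⟨P, hP, Q, hQ, by rw [hPQ, smul_smul]⟩
    rw [mem_iff_gauge hcp hcv h0, gauge_smul_of_nonneg (by linarith), h, smul_eq_mul] at h2
    linarith

lemma continuous_gauge_Dh (hB : Body C K) : Continuous (gauge (Dh C)) :=
  continuous_gauge (Dh_convex hB) (mem_interior_iff_mem_nhds.1 (zero_mem_int_Dh hB))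

/-- radial function -/
noncomputable def rad (C : Set Plane) (t : ℝ) : ℝ := (gauge (Dh C) (uv t))⁻¹

/-- half of the longest chord in direction `t` -/
noncomputable def av (C : Set Plane) (t : ℝ) : Plane := rad C t • uv t

lemma rad_pos (hB : Body C K) (t : ℝ) : 0 < rad C t :=
  inv_pos.2 (gauge_pos' (Dh_compact hB) (zero_mem_int_Dh hB) (uv_ne t))

lemma continuous_rad (hB : Body C K) : Continuous (rad C) :=
  ((continuous_gauge_Dh hB).comp continuous_uv).inv₀
    fun t => (gauge_pos' (Dh_compact hB) (zero_mem_int_Dh hB) (uv_ne t)).ne'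

lemma continuous_av (hB : Body C K) : Continuous (av C) := (continuous_rad hB).smul continuous_uv

lemma maxChord_av (hB : Body C K) (t : ℝ) : MaxChord C (av C t) := by
  have hpos := gauge_pos' (Dh_compact hB) (zero_mem_int_Dh hB) (uv_ne t)
  rw [maxChord_iff_gauge hB, av, rad, gauge_smul_of_nonneg (inv_nonneg.2 hpos.le), smul_eq_mul,
    inv_mul_cancel₀ hpos.ne']

/-- longest chords in a given direction are `av` -/
lemma eq_av (hB : Body C K) {t r : ℝ} (hr : 0 < r) (h : MaxChord C (r • uv t)) :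
    r • uv t = av C t := by
  rw [av, scale_unique h (maxChord_av hB t) hr (rad_pos hB t)]

lemma av_add_pi (hB : Body C K) (t : ℝ) : av C (t + Real.pi) = -av C t := by
  have h := maxChord_neg (maxChord_av hB t)
  have e : -av C t = rad C t • uv (t + Real.pi) := by rw [uv_add_pi, av, smul_neg]
  rw [e] at h ⊢
  exact (eq_av hB (rad_pos hB t) h).symm

lemma exists_xy (hB : Body C K) : ∃ x y : ℝ → Plane, Continuous x ∧ Continuous y ∧
    ∀ t, Par C K (av C t) (x t) (y t) := by
  choose x y h using fun t => hB.exists_par (maxChord_av hB t)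
  have hav := continuous_av hB
  have hCc := hB.comp.isClosed
  have hc : Continuous fun t => (x t, y t) := by
    refine continuous_of_closed_unique (hB.comp.prod hB.comp)
      (R := {p : ℝ × (Plane × Plane) | p.2.1 + av C p.1 ∈ C} ∩ {p | p.2.2 + av C p.1 ∈ C} ∩
        {p | br (av C p.1) (p.2.2 - p.2.1) = K}) ?_ ?_ ?_ ?_
    · refine IsClosed.inter (IsClosed.inter ?_ ?_) ?_
      · exact hCc.preimage (by fun_prop)
      · exact hCc.preimage (by fun_prop)
      · exact isClosed_eq (continuous_br (by fun_prop) (by fun_prop)) continuous_const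
    · intro t; exact ⟨(h t).hx, (h t).hy⟩
    · intro t; exact ⟨⟨(h t).hxa, (h t).hya⟩, (h t).hbr⟩
    · rintro t ⟨u, v⟩ ⟨hu, hv⟩ ⟨⟨h1, h2⟩, h3⟩
      have hp : Par C K (av C t) u v := ⟨maxChord_av hB t, hu, h1, hv, h2, h3⟩
      obtain ⟨e1, e2⟩ := hp.unique hB (h t)
      rw [e1, e2]
  exact ⟨x, y, continuous_fst.comp hc, continuous_snd.comp hc, h⟩

lemma exists_q (hB : Body C K) : ∃ q : ℝ → Plane, Continuous q ∧
    ∀ t, q t ∈ C ∧ q t + (2 : ℝ) • av C t ∈ C := by
  have h : ∀ t, ∃ q, q ∈ C ∧ q + (2 : ℝ) • av C t ∈ C := by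
    intro t
    obtain ⟨A, hA, B, hB', hAB⟩ := (maxChord_av hB t).1
    exact ⟨A, hA, by rw [← hAB]; simpa using hB'⟩
  choose q hq using h
  have hav := continuous_av hB
  refine ⟨q, ?_, hq⟩
  refine continuous_of_closed_unique hB.comp
    (R := {p : ℝ × Plane | p.2 + (2 : ℝ) • av C p.1 ∈ C}) ?_ ?_ ?_ ?_
  · exact hB.comp.isClosed.preimage (by fun_prop)
  · intro t; exact (hq t).1
  · intro t; exact (hq t).2
  · intro t z hz h
    exact ends_unique hB (maxChord_av hB t) hz h (hq t).1 (hq t).2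

end FK
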