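import Pool.Agent.FK.Param
import Pool.Agent.FK.Mult

/-!
# First variation: smoothness at the corners, p-zeros and q-zeros (MP_42fa54_co)
-/

open Set Filter Metric
open scoped Topology Pointwise

set_option linter.unusedSimpArgs false

namespace FK
open H78

variable {C : Set Plane} {K : ℝ} {a x y : Plane}

lemma Par.width' (hB : Body C K) (h : Par C K a x y) {a' : Plane} (h' : MaxChord C a') :
    br a' (y - x) ≤ K := by
  obtain ⟨⟨A, hA, B, hB', hAB⟩, -⟩ := h'
  have := h.width hB hA hB'
  rw [hAB, br_smul_left] at this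
  linarith

lemma Par.width'' (hB : Body C K) (h : Par C K a x y) {a' : Plane} (h' : MaxChord C a') :
    -K ≤ br a' (y - x) := by
  have := h.width' hB (maxChord_neg h')
  rw [br_neg_left] at this
  linarith

lemma plucker (a a' b b' : Plane) :
    br a a' * br b b' = br a b * br a' b' - br a b' * br a' b := by
  simp only [br]; ring

/-- the direction of `a` -/
lemma exists_dir (hB : Body C K) (h : MaxChord C a) : ∃ t, a = av C t := by
  obtain ⟨t, ht⟩ := exists_polar a
  have h0 : 0 < ‖a‖ := norm_pos_iff.2 (maxChord_ne_zero h)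
  refine ⟨t, ?_⟩
  have h1 : MaxChord C (‖a‖ • uv t) := by rw [← ht]; exact h
  rw [← eq_av hB h0 h1]; exact ht

lemma br_av (t s : ℝ) : br (av C t) (av C s) = rad C t * rad C s * Real.sin (s - t) := by
  rw [av, av, br_smul_left, br_smul_right, br_uv]; ring

lemma near (hB : Body C K) (h : Par C K a x y) {ε : ℝ} (hε : 0 < ε) (τ : ℝ) (hτ : τ = 1 ∨ τ = -1) :
    ∃ a' x' y', Par C K a' x' y' ∧ 0 < τ * br a a' ∧ |br (y - x) (y' - x')| < ε ∧
      0 < br a (y' - x') ∧ 0 < br a' (y - x) := by
  obtain ⟨t, ht⟩ := exists_dir hB h.max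
  obtain ⟨X, Y, hX, hY, hP⟩ := exists_xy hB
  have hav := continuous_av hB
  have hxy : x = X t ∧ y = Y t := by
    have h2 := hP t
    rw [← ht] at h2
    exact h.unique hB h2
  have c1 : Continuous fun s => |br (y - x) (Y s - X s)| :=
    (continuous_br continuous_const (hY.sub hX)).abs
  have c2 : Continuous fun s => br a (Y s - X s) := continuous_br continuous_const (hY.sub hX)
  have c3 : Continuous fun s => br (av C s) (y - x) := continuous_br hav continuous_const
  have e1 : ∀ᶠ s in 𝓝 t, |br (y - x) (Y s - X s)| < ε := by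
    have := c1.tendsto t
    rw [← hxy.1, ← hxy.2, br_self, abs_zero] at this
    exact this.eventually_lt_const hε
  have e2 : ∀ᶠ s in 𝓝 t, 0 < br a (Y s - X s) := by
    have := c2.tendsto t
    rw [← hxy.1, ← hxy.2, h.hbr] at this
    exact this.eventually_const_lt hB.pos
  have e3 : ∀ᶠ s in 𝓝 t, 0 < br (av C s) (y - x) := by
    have := c3.tendsto t
    rw [← ht, h.hbr] at this
    exact this.eventually_const_lt hB.pos
  obtain ⟨δ, hδ, hball⟩ := Metric.eventually_nhds_iff.1 (e1.and (e2.and e3))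
  set η := min (δ / 2) 1 with hη
  have hη0 : 0 < η := lt_min (by positivity) one_pos
  have hηδ : η < δ := lt_of_le_of_lt (min_le_left _ _) (by linarith)
  have hηπ : η < Real.pi := lt_of_le_of_lt (min_le_right _ _) (by linarith [Real.pi_gt_three])
  have hsin := Real.sin_pos_of_pos_of_lt_pi hη0 hηπ
  have hτ2 : |τ| = 1 := by rcases hτ with h | h <;> rw [h] <;> simp
  obtain ⟨h1, h2, h3⟩ := hball (y := t + τ * η) (by
    rw [Real.dist_eq, add_sub_cancel_left, abs_mul, hτ2, one_mul, abs_of_pos hη0]; exact hηδ)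
  refine ⟨_, _, _, hP (t + τ * η), ?_, h1, h2, h3⟩
  rw [ht, br_av, add_sub_cancel_left]
  have hr1 := rad_pos hB t
  have hr2 := rad_pos hB (t + τ * η)
  rcases hτ with h | h
  · rw [h, one_mul, one_mul]
    rw [h, one_mul] at hr2
    positivity
  · rw [h]
    rw [h] at hr2
    have e : Real.sin (-1 * η) = -Real.sin η := by rw [neg_one_mul, Real.sin_neg]
    rw [e]
    have : -1 * (rad C t * rad C (t + -1 * η) * -Real.sin η) = rad C t * rad C (t + -1 * η) * Real.sin η := by
      ring
    rw [this]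
    positivity

/-- first variation -/
lemma var (hB : Body C K) (h : Par C K a x y) {g : Plane} {c0 : ℝ} (hc0 : 0 ≤ c0)
    (hg : ∀ a' x' y', Par C K a' x' y' → br (a' - a) g ≤ c0 * br (a' - a) (y' - x')) :
    br (y - x) g = 0 := by
  by_contra hne
  have hK := hB.pos
  set b := y - x with hb
  set g2 := br b g with hg2
  set M := K * c0 + |br a g| with hM
  have hM0 : 0 ≤ M := by positivity
  -- key estimate
  have key : ∀ τ : ℝ, (τ = 1 ∨ τ = -1) → ∀ ε : ℝ, 0 < ε → τ * g2 * K ≤ M * 2 * ε := by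
    intro τ hτ ε hε
    obtain ⟨a', x', y', hP, hS, hBn, h1, h2⟩ := near hB h hε τ hτ
    set b' := y' - x' with hb'
    have hpl := plucker a a' b b'
    rw [h.hbr, hP.hbr] at hpl
    have hy1 := hP.width' hB h.max
    have hy2 := h.width' hB hP.max
    rw [← hb'] at hy1
    rw [← hb] at hy2
    set y1 := K - br a b' with hy1d
    set y2 := K - br a' b with hy2d
    have hy10 : 0 ≤ y1 := by rw [hy1d]; linarith
    have hy20 : 0 ≤ y2 := by rw [hy2d]; linarith
    have hy1K : y1 ≤ K := by rw [hy1d]; linarith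
    have hy2K : y2 ≤ K := by rw [hy2d]; linarith
    set S := br a a' with hSd
    set Bn := br b b' with hBnd
    have hpl2 : S * Bn = K * (y1 + y2) - y1 * y2 := by rw [hpl, hy1d, hy2d]; ring
    have hyy : y1 * y2 ≤ K * (y1 + y2) / 2 := by nlinarith
    have hsum : K * (y1 + y2) ≤ 2 * (S * Bn) := by linarith
    -- |S|
    set s := τ * S with hs
    have hS2 : S = τ * s := by rw [hs]; rcases hτ with h | h <;> rw [h] <;> ring
    have hSB : S * Bn ≤ s * ε := by
      have : S * Bn ≤ |S * Bn| := le_abs_self _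
      rw [abs_mul] at this
      have hSabs : |S| = s := by
        rcases hτ with h | h
        · rw [hs, h, one_mul]; rw [hs, h, one_mul] at hS; exact abs_of_pos hS
        · rw [hs, h]; rw [hs, h] at hS
          rw [abs_of_neg (by linarith)]; ring
      rw [hSabs] at this
      exact this.trans (mul_le_mul_of_nonneg_left hBn.le hS.le)
    -- the hypothesis
    have hh := hg a' x' y' hP
    rw [← hb'] at hh
    have e1 : br (a' - a) b' = y1 := by rw [br_sub_left, hP.hbr]
    rw [e1] at hh
    -- K * br (a'-a) g = -(y2) * br a g + S * g2 ... via coordinates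
    have e2 : K * br (a' - a) g = -y2 * br a g - S * (-g2) * (-1) * (-1) := by
      have p1 := plucker a b a' g
      have hbr1 : br a b = K := h.hbr
      rw [hbr1] at p1
      have hb1 : br b a' = -(K - y2) := by rw [br_swap, hy2d]; ring
      rw [hb1, ← hSd, ← hg2] at p1
      rw [br_sub_left]
      linear_combination p1
    have e3 : K * (c0 * y1) = K * c0 * y1 := by ring
    have e4 : S * g2 ≤ K * c0 * y1 + |br a g| * y2 := by
      have h5 := mul_le_mul_of_nonneg_left hh hK.le
      rw [e2, e3] at h5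
      have h6 : y2 * br a g ≤ y2 * |br a g| := mul_le_mul_of_nonneg_left (le_abs_self _) hy20
      linarith
    have e5 : K * c0 * y1 + |br a g| * y2 ≤ M * (y1 + y2) := by
      rw [hM]
      have : 0 ≤ K * c0 * y2 := by positivity
      have : 0 ≤ |br a g| * y1 := by positivity
      linarith
    have e6 : S * g2 * K ≤ M * 2 * ε * s := by
      have h7 : S * g2 * K ≤ M * (y1 + y2) * K := mul_le_mul_of_nonneg_right (e4.trans e5) hK.le
      have h8 : M * (K * (y1 + y2)) ≤ M * (2 * (s * ε)) :=
        mul_le_mul_of_nonneg_left (hsum.trans (by linarith)) hM0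
      linarith
    have e7 : s * (τ * g2 * K) ≤ s * (M * 2 * ε) := by
      have : s * (τ * g2 * K) = S * g2 * K := by rw [hS2]; ring
      rw [this]; linarith
    exact le_of_mul_le_mul_left e7 hS
  have hpos : 0 < |g2| * K := mul_pos (abs_pos.2 hne) hK
  have key2 : ∀ ε : ℝ, 0 < ε → |g2| * K ≤ M * 2 * ε := by
    intro ε hε
    rcases abs_cases g2 with ⟨h1, -⟩ | ⟨h1, -⟩
    · rw [h1]; have := key 1 (Or.inl rfl) ε hε; rwa [one_mul] at this
    · rw [h1]; have := key (-1) (Or.inr rfl) ε hε; rwa [neg_one_mul] at this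
  have h3 := key2 (|g2| * K / (4 * (M + 1))) (by positivity)
  have h4 : M * 2 * (|g2| * K / (4 * (M + 1))) < |g2| * K := by
    rw [mul_div_assoc', div_lt_iff₀ (by positivity)]
    nlinarith
  linarith

/-- `½ (C - C)` is smooth at `a` -/
lemma smoothD (hB : Body C K) (h : Par C K a x y) {c : Plane} (h1 : br a c = K)
    (h2 : ∀ A ∈ C, ∀ B ∈ C, br (B - A) c ≤ 2 * K) : c = y - x := by
  have h3 : br (y - x) c = 0 := by
    refine var hB h le_rfl ?_
    intro a' x' y' h'
    obtain ⟨⟨A, hA, B, hB', hAB⟩, -⟩ := h'.max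
    have := h2 A hA B hB'
    rw [hAB, br_smul_left] at this
    rw [zero_mul, br_sub_left, h1]
    linarith
  have hne : br a (y - x) ≠ 0 := by rw [h.hbr]; exact hB.pos.ne'
  apply eq_of_br hne
  · rw [h1, h.hbr]
  · rw [h3, br_self]

/-- sums of support functionals at the corners -/
lemma corner_sum (hB : Body C K) (h : Par C K a x y) {n1 n0 m1 m0 : Plane}
    (hn1 : ∀ z ∈ C, br z n1 ≤ br (y + a) n1) (hn0 : ∀ z ∈ C, br z n0 ≤ br y n0)
    (hm1 : ∀ z ∈ C, br z m1 ≤ br (x + a) m1) (hm0 : ∀ z ∈ C, br z m0 ≤ br x m0)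
    (hs : n1 + n0 = -((3 : ℝ) • a)) (hs' : m1 + m0 = (3 : ℝ) • a) :
    br (y - x) (n1 + m1) = 0 := by
  refine var hB h (c0 := 3) (by norm_num) ?_
  intro a' x' y' h'
  have i1 := hn1 _ h'.hya
  have i2 := hn0 _ h'.hy
  have i3 := hm1 _ h'.hxa
  have i4 := hm0 _ h'.hx
  have en0 : n0 = -((3 : ℝ) • a) - n1 := by rw [← hs]; abel
  have em0 : m0 = (3 : ℝ) • a - m1 := by rw [← hs']; abel
  rw [en0] at i2
  rw [em0] at i4
  have hb := h.hbr
  have hb' := h'.hbr
  have s1 := br_swap y' a
  have s2 := br_swap y a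
  have s3 := br_swap x' a
  have s4 := br_swap x a
  simp only [br_add_left, br_add_right, br_smul_left, br_smul_right, br_sub_left, br_sub_right,
      br_self, br_neg_right] at *
  linarith

/-- the multiplier conditions -/
structure Mul (C : Set Plane) (a x y n : Plane) : Prop where
  c1 : ∀ z ∈ C, br z n ≤ br (y + a) n
  c0 : ∀ z ∈ C, br z (-((3 : ℝ) • a) - n) ≤ br y (-((3 : ℝ) • a) - n)
  d1 : ∀ z ∈ C, br z ((y - x) - n) ≤ br (x + a) ((y - x) - n)
  d0 : ∀ z ∈ C, br z (n - (y - x) + (3 : ℝ) • a) ≤ br x (n - (y - x) + (3 : ℝ) • a)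

lemma exists_mul (hB : Body C K) (h : Par C K a x y) : ∃ n, Mul C a x y n := by
  obtain ⟨n, h1, h2, h3, h4⟩ := mult hB h
  exact ⟨n, h1, h2, h3, h4⟩

lemma Mul.neg {n : Plane} (h : Mul C a x y n) :
    Mul C (-a) (y + a) (x + a) (n - (y - x) + (3 : ℝ) • a) where
  c1 := by rw [add_neg_cancel_right]; exact h.d0
  c0 := by
    have e : -((3 : ℝ) • -a) - (n - (y - x) + (3 : ℝ) • a) = (y - x) - n := by module
    rw [e]; exact h.d1
  d1 := by
    have e : x + a - (y + a) - (n - (y - x) + (3 : ℝ) • a) = -((3 : ℝ) • a) - n := by module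
    rw [e, add_neg_cancel_right]; exact h.c0
  d0 := by
    have e : n - (y - x) + (3 : ℝ) • a - (x + a - (y + a)) + (3 : ℝ) • -a = n := by module
    rw [e]; exact h.c1

lemma ne_add_a (h : MaxChord C a) (z : Plane) : z + a ≠ z := by
  intro h0
  exact maxChord_ne_zero h (by simpa using h0)

/-- positivity of support functionals at the corner `y + a` -/
lemma pos_c1 (hB : Body C K) (h : Par C K a x y) {n : Plane} (hn : n ≠ 0)
    (hc : ∀ z ∈ C, br z n ≤ br (y + a) n) : 0 < br a n ∧ 0 < br (y - x) n := by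
  constructor
  · have := strict_max hB.sc h.hya hn hc h.hy (ne_add_a h.max y).symm
    rw [br_add_left] at this; linarith
  · have := strict_max hB.sc h.hya hn hc h.hxa (fun h0 => h.ne_b hB (by
      rw [sub_eq_zero]; exact (add_right_cancel h0).symm))
    rw [br_add_left, br_add_left] at this
    rw [br_sub_left]; linarith

/-- positivity of support functionals at the corner `y` -/
lemma pos_c0 (hB : Body C K) (h : Par C K a x y) {n : Plane} (hn : n ≠ 0)
    (hc : ∀ z ∈ C, br z n ≤ br y n) : br a n < 0 ∧ 0 < br (y - x) n := by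
  constructor
  · have := strict_max hB.sc h.hy hn hc h.hya (ne_add_a h.max y)
    rw [br_add_left] at this; linarith
  · have := strict_max hB.sc h.hy hn hc h.hx (fun h0 => h.ne_b hB (by
      rw [sub_eq_zero]; exact h0.symm))
    rw [br_sub_left]; linarith

lemma three_ne (h : MaxChord C a) : (3 : ℝ) • a ≠ 0 :=
  smul_ne_zero (by norm_num) (maxChord_ne_zero h)

lemma Mul.n_ne (hB : Body C K) (h : Par C K a x y) {n : Plane} (hn : Mul C a x y n) : n ≠ 0 := by
  rintro rfl
  have h1 := hn.c0
  rw [sub_zero] at h1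
  have := (pos_c0 hB h (neg_ne_zero.2 (three_ne h.max)) h1).1
  rw [br_neg_right, br_smul_right, br_self] at this
  simp at this

lemma Mul.n0_ne (hB : Body C K) (h : Par C K a x y) {n : Plane} (hn : Mul C a x y n) :
    -((3 : ℝ) • a) - n ≠ 0 := by
  intro h0
  have e : n = -((3 : ℝ) • a) := (sub_eq_zero.1 h0).symm
  have h1 := hn.c1
  rw [e] at h1
  have := (pos_c1 hB h (neg_ne_zero.2 (three_ne h.max)) h1).1
  rw [br_neg_right, br_smul_right, br_self] at this
  simp at this

lemma br_ba (h : Par C K a x y) : br (y - x) a = -K := by rw [br_swap, h.hbr]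

/-- smoothness at `y + a` -/
lemma smooth_c1 (hB : Body C K) (h : Par C K a x y) {n n' : Plane} (hn : Mul C a x y n)
    (hn'0 : n' ≠ 0) (hn' : ∀ z ∈ C, br z n' ≤ br (y + a) n') : ∃ r : ℝ, 0 < r ∧ n = r • n' := by
  have hK := hB.pos
  obtain ⟨p1, q1⟩ := pos_c1 hB h hn'0 hn'
  obtain ⟨p2, q2⟩ := pos_c1 hB h (hn.n_ne hB h) hn.c1
  obtain ⟨p3, q3⟩ := pos_c0 hB h (hn.n0_ne hB h) hn.c0
  set b := y - x with hb
  have hba : br b a = -K := br_ba h
  have e1 : br a (-((3 : ℝ) • a) - n) = -br a n := by
    rw [br_sub_right, br_neg_right, br_smul_right, br_self]; ring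
  have e2 : br b (-((3 : ℝ) • a) - n) = 3 * K - br b n := by
    rw [br_sub_right, br_neg_right, br_smul_right, hba]; ring
  rw [e2] at q3
  set p := br a n' with hp
  set q := br b n' with hq
  set P := br a n with hP
  set Q := 3 * K - br b n with hQ
  have hden : 0 < q * P + p * Q := by positivity
  set X := 3 * K * P / (q * P + p * Q) with hX
  set Y := 3 * K * p / (q * P + p * Q) with hY
  have hX0 : 0 < X := by positivity
  have hY0 : 0 < Y := by positivity
  have s1 : X * p = Y * P := by rw [hX, hY]; ring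
  have s2 : X * q + Y * Q = 3 * K := by rw [hX, hY]; field_simp
  have hne : br a b ≠ 0 := by rw [h.hbr]; exact hK.ne'
  have hsum : X • n' + Y • (-((3 : ℝ) • a) - n) = -((3 : ℝ) • a) := by
    apply eq_of_br hne
    · rw [br_add_right, br_smul_right, br_smul_right, e1, br_neg_right, br_smul_right, br_self,
        ← hp]
      linear_combination s1
    · rw [br_add_right, br_smul_right, br_smul_right, e2, br_neg_right, br_smul_right, hba, ← hq]
      linear_combination s2
  have hcs := corner_sum hB h (n1 := X • n') (n0 := Y • (-((3 : ℝ) • a) - n))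
    (m1 := b - n) (m0 := n - b + (3 : ℝ) • a)
    (fun z hz => by
      rw [br_smul_right, br_smul_right]; exact mul_le_mul_of_nonneg_left (hn' z hz) hX0.le)
    (fun z hz => by
      rw [br_smul_right, br_smul_right]; exact mul_le_mul_of_nonneg_left (hn.c0 z hz) hY0.le)
    hn.d1 hn.d0 hsum (by abel)
  rw [← hb, br_add_right, br_smul_right, br_sub_right, br_self, ← hq] at hcs
  have hY1 : Y = 1 := by
    have : Y * Q = 1 * Q := by rw [hQ] at s2 ⊢; linarith
    exact mul_right_cancel₀ q3.ne' this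
  refine ⟨X, hX0, ?_⟩
  rw [hY1, one_smul] at hsum
  have : X • n' = -((3 : ℝ) • a) - (-((3 : ℝ) • a) - n) := eq_sub_of_add_eq hsum
  rw [this]; abel

/-- smoothness at `y` -/
lemma smooth_c0 (hB : Body C K) (h : Par C K a x y) {n n' : Plane} (hn : Mul C a x y n)
    (hn'0 : n' ≠ 0) (hn' : ∀ z ∈ C, br z n' ≤ br y n') :
    ∃ r : ℝ, 0 < r ∧ -((3 : ℝ) • a) - n = r • n' := by
  have hK := hB.pos
  obtain ⟨p1, q1⟩ := pos_c0 hB h hn'0 hn'
  obtain ⟨p2, q2⟩ := pos_c1 hB h (hn.n_ne hB h) hn.c1
  set b := y - x with hb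
  have hba : br b a = -K := br_ba h
  have e1 : br a (-((3 : ℝ) • a) - n) = -br a n := by
    rw [br_sub_right, br_neg_right, br_smul_right, br_self]; ring
  have e2 : br b (-((3 : ℝ) • a) - n) = 3 * K - br b n := by
    rw [br_sub_right, br_neg_right, br_smul_right, hba]; ring
  obtain ⟨p, hp⟩ : ∃ p, p = -br a n' := ⟨_, rfl⟩
  have hp0 : 0 < p := by rw [hp]; linarith
  set q := br b n' with hq
  set P := br a n with hP
  set Q := br b n with hQ
  have hden : 0 < Q * p + q * P := by positivity
  set X := 3 * K * p / (Q * p + q * P) with hX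
  set Y := 3 * K * P / (Q * p + q * P) with hY
  have hX0 : 0 < X := by positivity
  have hY0 : 0 < Y := by positivity
  have s1 : X * P = Y * p := by rw [hX, hY]; ring
  have s2 : X * Q + Y * q = 3 * K := by rw [hX, hY]; field_simp
  have hne : br a b ≠ 0 := by rw [h.hbr]; exact hK.ne'
  have hsum : X • n + Y • n' = -((3 : ℝ) • a) := by
    apply eq_of_br hne
    · rw [br_add_right, br_smul_right, br_smul_right, br_neg_right, br_smul_right, br_self,
        ← hP]
      have : br a n' = -p := by rw [hp]; ring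
      rw [this]
      linear_combination s1
    · rw [br_add_right, br_smul_right, br_smul_right, br_neg_right, br_smul_right, hba, ← hq, ← hQ]
      linear_combination s2
  have hcs := corner_sum hB h (n1 := X • n) (n0 := Y • n')
    (m1 := b - n) (m0 := n - b + (3 : ℝ) • a)
    (fun z hz => by
      rw [br_smul_right, br_smul_right]; exact mul_le_mul_of_nonneg_left (hn.c1 z hz) hX0.le)
    (fun z hz => by
      rw [br_smul_right, br_smul_right]; exact mul_le_mul_of_nonneg_left (hn' z hz) hY0.le)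
    hn.d1 hn.d0 hsum (by abel)
  rw [← hb, br_add_right, br_smul_right, br_sub_right, br_self, ← hQ] at hcs
  have hX1 : X = 1 := by
    have : X * Q = 1 * Q := by linarith
    exact mul_right_cancel₀ q2.ne' this
  refine ⟨Y, hY0, ?_⟩
  rw [hX1, one_smul] at hsum
  rw [← hsum]; abel

/-- p-zero: if the diagonal `a + b` is a longest chord, then the critical side of its half is
`(b - 3a) / 2`. -/
lemma pzero_b (hB : Body C K) (h : Par C K a x y) {x' y' : Plane}
    (h' : Par C K ((1 / 2 : ℝ) • (a + (y - x))) x' y') :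
    y' - x' = (1 / 2 : ℝ) • ((y - x) - (3 : ℝ) • a) := by
  have hK := hB.pos
  obtain ⟨n, hn⟩ := exists_mul hB h
  set w := y' - x' with hw
  have hw0 : w ≠ 0 := h'.ne_b hB
  have hf := h'.hbr
  rw [← hw] at hf
  have e2 : br (a + (y - x)) w = 2 * K := by
    rw [br_smul_left] at hf; linarith
  have e3 : br ((y + a) - x) w = 2 * K := by
    rw [← e2]; congr 1; abel
  have s1 : ∀ z ∈ C, br z w ≤ br (y + a) w := by
    intro z hz
    have := h'.width hB h.hx hz
    rw [← hw, br_sub_left] at this
    rw [br_sub_left] at e3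
    linarith
  have s2 : ∀ z ∈ C, br z (-w) ≤ br x (-w) := by
    intro z hz
    have := h'.width hB hz h.hya
    rw [← hw, br_sub_left] at this
    rw [br_sub_left] at e3
    rw [br_neg_right, br_neg_right]
    linarith
  obtain ⟨r, hr, hnr⟩ := smooth_c1 hB h hn hw0 s1
  obtain ⟨s, hs, hns⟩ := smooth_c1 hB h.neg hn.neg (n' := -w) (neg_ne_zero.2 hw0)
    (by rw [add_neg_cancel_right]; exact s2)
  have e4 : (y - x) - (3 : ℝ) • a = (r + s) • w := by
    have : (y - x) - (3 : ℝ) • a = n - (n - (y - x) + (3 : ℝ) • a) := by abel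
    rw [this, hns, hnr]; module
  have e5 : br ((1 / 2 : ℝ) • (a + (y - x))) ((y - x) - (3 : ℝ) • a) = 2 * K := by
    have hb := h.hbr
    have hba := br_ba h
    obtain ⟨b, hbdef⟩ : ∃ b, b = y - x := ⟨_, rfl⟩
    rw [← hbdef] at hb hba ⊢
    simp only [br_smul_left, br_add_left, br_sub_right, br_smul_right, br_self, hb, hba]; ring
  rw [e4, br_smul_right, hf] at e5
  have e6 : r + s = 2 := by
    have : (r + s) * K = 2 * K := e5
    exact mul_right_cancel₀ hK.ne' this
  rw [e4, e6]; module

/-- q-zero: if the diagonal `b - a` is a longest chord, then the critical side of its half is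
`-(b + 3a) / 2`. -/
lemma qzero_b (hB : Body C K) (h : Par C K a x y) {x' y' : Plane}
    (h' : Par C K ((1 / 2 : ℝ) • ((y - x) - a)) x' y') :
    y' - x' = -((1 / 2 : ℝ) • ((y - x) + (3 : ℝ) • a)) := by
  have hK := hB.pos
  obtain ⟨n, hn⟩ := exists_mul hB h
  set w := y' - x' with hw
  have hw0 : w ≠ 0 := h'.ne_b hB
  have hf := h'.hbr
  rw [← hw] at hf
  have e2 : br ((y - x) - a) w = 2 * K := by
    rw [br_smul_left] at hf; linarith
  have e3 : br (y - (x + a)) w = 2 * K := by
    rw [← e2]; congr 1; abel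
  have s1 : ∀ z ∈ C, br z w ≤ br y w := by
    intro z hz
    have := h'.width hB h.hxa hz
    rw [← hw, br_sub_left] at this
    rw [br_sub_left] at e3
    linarith
  have s2 : ∀ z ∈ C, br z (-w) ≤ br (x + a) (-w) := by
    intro z hz
    have := h'.width hB hz h.hy
    rw [← hw, br_sub_left] at this
    rw [br_sub_left] at e3
    rw [br_neg_right, br_neg_right]
    linarith
  obtain ⟨r, hr, hnr⟩ := smooth_c0 hB h hn hw0 s1
  obtain ⟨s, hs, hns⟩ := smooth_c0 hB h.neg hn.neg (n' := -w) (neg_ne_zero.2 hw0) s2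
  have e4 : -((y - x) + (3 : ℝ) • a) = (r + s) • w := by
    have e : -((3 : ℝ) • -a) - (n - (y - x) + (3 : ℝ) • a) = (y - x) - n := by module
    rw [e] at hns
    have : -((y - x) + (3 : ℝ) • a) = (-((3 : ℝ) • a) - n) - ((y - x) - n) := by abel
    rw [this, hns, hnr]; module
  have e5 : br ((1 / 2 : ℝ) • ((y - x) - a)) (-((y - x) + (3 : ℝ) • a)) = 2 * K := by
    have hb := h.hbr
    have hba := br_ba h
    obtain ⟨b, hbdef⟩ : ∃ b, b = y - x := ⟨_, rfl⟩
    rw [← hbdef] at hb hba ⊢
    simp only [br_smul_left, br_sub_left, br_add_right, br_neg_right, br_smul_right, br_self, hb,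
      hba]; ring
  rw [e4, br_smul_right, hf] at e5
  have e6 : r + s = 2 := by
    have : (r + s) * K = 2 * K := e5
    exact mul_right_cancel₀ hK.ne' this
  rw [← smul_neg, e4, e6]; module

end FK
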